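import Pool.Agent.Run7.h259.LHY.Conv

/-!
# Translation invariant examples

On a finite abelian group, a translation invariant nonnegative hopping with the additional gap
`Δ (1 - P₀)` satisfies all hypotheses with constants which do not depend on the group.
-/

set_option autoImplicit false
set_option linter.unusedSectionVars false
set_option linter.unusedVariables false

noncomputable section

namespace Run7.h259.LHY

open Finset

section general

variable {V : Type*} [Fintype V] [DecidableEq V] [Nonempty V]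

/-- the Green matrix in the basis of eigenvectors -/
lemma green_gen {o : V} {v : V → V → ℝ} {ε : V → ℝ} {g : ℝ} {T R : V → V → ℝ}
    (hg : 0 < g) (hT : IsHopping g T) (hR : IsGreen T R) (b : Basis o v)
    (hε0 : ε o = 0) (hε : ∀ k, k ≠ o → g ≤ ε k) (h3 : ∀ j x, ∑ y, T x y * v j y = ε j * v j x)
    (x z : V) : R x z = ∑ k ∈ univ.erase o, v k x * v k z / ε k := by
  calc R x z = ∑ y, (if x = y then 1 else 0) * R y z := by simp
    _ = ∑ y, (∑ k, v k x * v k y) * R y z := by simp_rw [b.compl]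
    _ = ∑ k, v k x * ∑ y, v k y * R y z := by
        simp_rw [sum_mul]
        rw [sum_comm]
        refine sum_congr rfl fun k _ => ?_
        rw [mul_sum]
        exact sum_congr rfl fun y _ => by ring
    _ = ∑ k, v k x * (if k = o then 0 else v k z / ε k) := by
        simp_rw [green_coef hg hT hR b hε0 hε h3]
    _ = _ := by
        rw [← add_sum_erase univ _ (mem_univ o), if_pos rfl, mul_zero, zero_add]
        refine sum_congr rfl fun k hk => ?_
        rw [if_neg (ne_of_mem_erase hk)]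
        ring

theorem exists_green {g : ℝ} (hg : 0 < g) {T : V → V → ℝ} (hT : IsHopping g T) :
    ∃ R : V → V → ℝ, IsGreen T R := by
  obtain ⟨o, v, ε, b, hε0, hε, h3⟩ := exists_basis hg hT
  refine ⟨fun x z => ∑ k ∈ univ.erase o, v k x * v k z / ε k, ?_, ?_⟩
  · intro x z
    have e1 : ∑ y, T x y * ∑ k ∈ univ.erase o, v k y * v k z / ε k =
        ∑ k ∈ univ.erase o, v k x * v k z := by
      simp_rw [mul_sum]
      rw [sum_comm]
      refine sum_congr rfl fun k hk => ?_
      have hk' : 0 < ε k := lt_of_lt_of_le hg (hε k (ne_of_mem_erase hk))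
      calc ∑ y, T x y * (v k y * v k z / ε k) = (∑ y, T x y * v k y) * (v k z / ε k) := by
            rw [sum_mul]; exact sum_congr rfl fun y _ => by ring
        _ = v k x * v k z := by rw [h3]; field_simp
    rw [e1]
    have e2 := b.compl x z
    rw [← add_sum_erase univ _ (mem_univ o)] at e2
    have e3 : v o x * v o z = 1 / (Fintype.card V : ℝ) := by
      rw [b.const z x, ← sq, b.sq]
    linarith
  · intro z
    rw [sum_comm]
    refine sum_eq_zero fun k hk => ?_
    have h1 : ∑ x, v k x = 0 := by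
      have := fx_sum b k
      simpa only [fx, if_neg (ne_of_mem_erase hk)] using this
    have : ∀ y, v k y * v k z / ε k = v k y * (v k z / ε k) := fun y => by ring
    simp only [this, ← sum_mul, h1, zero_mul]

theorem green_unique {g : ℝ} (hg : 0 < g) {T R R' : V → V → ℝ} (hT : IsHopping g T)
    (hR : IsGreen T R) (hR' : IsGreen T R') : R = R' := by
  obtain ⟨o, v, ε, b, hε0, hε, h3⟩ := exists_basis hg hT
  funext x z
  rw [green_gen hg hT hR b hε0 hε h3, green_gen hg hT hR' b hε0 hε h3]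

theorem green_symm {g : ℝ} (hg : 0 < g) {T R : V → V → ℝ} (hT : IsHopping g T)
    (hR : IsGreen T R) (x z : V) : R x z = R z x := by
  obtain ⟨o, v, ε, b, hε0, hε, h3⟩ := exists_basis hg hT
  rw [green_gen hg hT hR b hε0 hε h3, green_gen hg hT hR b hε0 hε h3]
  exact sum_congr rfl fun k _ => by ring

end general

section group

variable {V : Type*} [AddCommGroup V] [Fintype V] [DecidableEq V]

/-- the hopping `∑ c - c(x - y)` (the Laplacian with the weights `c`) plus `Δ (1 - P₀)` -/
def gapHopping (c : V → ℝ) (Δ : ℝ) (x y : V) : ℝ :=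
  (if x = y then (∑ z, c z) + Δ else 0) - c (x - y) - Δ / (Fintype.card V : ℝ)

variable {c : V → ℝ} {Δ κ : ℝ} (hc : ∀ z, 0 ≤ c z) (hcs : ∀ z, c (-z) = c z) (hΔ : 0 < Δ)

lemma sum_c (c : V → ℝ) (x : V) : ∑ y, c (x - y) = ∑ z, c z :=
  Fintype.sum_equiv (Equiv.subLeft x) _ _ fun y => rfl

include hc hcs

lemma form_c (f : V → ℝ) : ∑ x, ∑ y, c (x - y) * (f x * f y) =
    (∑ z, c z) * ∑ x, f x ^ 2 - 1 / 2 * ∑ x, ∑ y, c (x - y) * (f x - f y) ^ 2 := by
  have e1 : ∑ x, ∑ y, c (x - y) * f x ^ 2 = (∑ z, c z) * ∑ x, f x ^ 2 := by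
    rw [mul_sum]
    refine sum_congr rfl fun x _ => ?_
    rw [← sum_mul, sum_c]
  have e2 : ∑ x, ∑ y, c (x - y) * f y ^ 2 = (∑ z, c z) * ∑ x, f x ^ 2 := by
    rw [sum_comm, ← e1]
    refine sum_congr rfl fun x _ => sum_congr rfl fun y _ => ?_
    rw [← hcs (y - x), neg_sub]
  have e3 : ∑ x, ∑ y, c (x - y) * (f x - f y) ^ 2 = ∑ x, ∑ y, c (x - y) * f x ^ 2 +
      ∑ x, ∑ y, c (x - y) * f y ^ 2 - 2 * ∑ x, ∑ y, c (x - y) * (f x * f y) := by
    rw [mul_sum, ← sum_add_distrib, ← sum_sub_distrib]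
    refine sum_congr rfl fun x _ => ?_
    rw [mul_sum, ← sum_add_distrib, ← sum_sub_distrib]
    exact sum_congr rfl fun y _ => by ring
  rw [e3, e1, e2]; ring

lemma form_T (f : V → ℝ) : ∑ x, ∑ y, gapHopping c Δ x y * (f x * f y) =
    Δ * ∑ x, f x ^ 2 + 1 / 2 * ∑ x, ∑ y, c (x - y) * (f x - f y) ^ 2 -
      Δ / (Fintype.card V : ℝ) * (∑ x, f x) ^ 2 := by
  unfold gapHopping
  have e1 : ∀ x y, ((if x = y then (∑ z, c z) + Δ else 0) - c (x - y) -
      Δ / (Fintype.card V : ℝ)) * (f x * f y) =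
      (if x = y then ((∑ z, c z) + Δ) * (f x * f y) else 0) - c (x - y) * (f x * f y) -
      Δ / (Fintype.card V : ℝ) * (f x * f y) := by
    intro x y
    split_ifs <;> ring
  simp_rw [e1, sum_sub_distrib]
  rw [form_c hc hcs]
  have e2 : ∑ x, ∑ y, (if x = y then ((∑ z, c z) + Δ) * (f x * f y) else 0) =
      ((∑ z, c z) + Δ) * ∑ x, f x ^ 2 := by
    rw [mul_sum]
    refine sum_congr rfl fun x _ => ?_
    rw [sum_ite_eq, if_pos (mem_univ _)]; ring
  have e3 : ∑ x, ∑ y, Δ / (Fintype.card V : ℝ) * (f x * f y) =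
      Δ / (Fintype.card V : ℝ) * (∑ x, f x) ^ 2 := by
    rw [sq, sum_mul_sum, mul_sum]
    exact sum_congr rfl fun x _ => by rw [mul_sum]
  rw [e2, e3]; ring

include hΔ

theorem hopping_T : IsHopping Δ (gapHopping c Δ) := by
  refine ⟨?_, ?_, ?_⟩
  · intro x y
    unfold gapHopping
    rw [← hcs (x - y), neg_sub]
    by_cases h : x = y
    · rw [if_pos h, if_pos h.symm]
    · rw [if_neg h, if_neg (Ne.symm h)]
  · intro x
    unfold gapHopping
    have hn0 : (0 : ℝ) < Fintype.card V := by exact_mod_cast Fintype.card_pos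
    rw [sum_sub_distrib, sum_sub_distrib, sum_ite_eq, if_pos (mem_univ _), sum_c, sum_const,
      card_univ, nsmul_eq_mul]
    field_simp
    ring
  · intro f hf
    rw [form_T hc hcs, hf]
    have : 0 ≤ ∑ x, ∑ y, c (x - y) * (f x - f y) ^ 2 :=
      sum_nonneg fun x _ => sum_nonneg fun y _ => by have := hc (x - y); positivity
    linarith

theorem upper_T (hκ : ∑ z, c z ≤ κ) (f : V → ℝ) :
    ∑ x, ∑ y, gapHopping c Δ x y * (f x * f y) ≤ (2 * κ + Δ) * ∑ x, f x ^ 2 := by
  rw [form_T hc hcs]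
  have e1 : ∑ x, ∑ y, c (x - y) * f x ^ 2 = (∑ z, c z) * ∑ x, f x ^ 2 := by
    rw [mul_sum]
    refine sum_congr rfl fun x _ => ?_
    rw [← sum_mul, sum_c]
  have e2 : ∑ x, ∑ y, c (x - y) * f y ^ 2 = (∑ z, c z) * ∑ x, f x ^ 2 := by
    rw [sum_comm, ← e1]
    refine sum_congr rfl fun x _ => sum_congr rfl fun y _ => ?_
    rw [← hcs (y - x), neg_sub]
  have e3 : ∑ x, ∑ y, c (x - y) * (f x - f y) ^ 2 ≤ 4 * ((∑ z, c z) * ∑ x, f x ^ 2) := by
    have : ∀ x y, c (x - y) * (f x - f y) ^ 2 ≤ 2 * (c (x - y) * f x ^ 2) +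
        2 * (c (x - y) * f y ^ 2) := by
      intro x y
      have h1 := hc (x - y)
      have h2 : (f x - f y) ^ 2 ≤ 2 * f x ^ 2 + 2 * f y ^ 2 := by
        nlinarith [sq_nonneg (f x + f y)]
      nlinarith
    refine (sum_le_sum fun x _ => sum_le_sum fun y _ => this x y).trans (le_of_eq ?_)
    simp_rw [sum_add_distrib, ← mul_sum]
    rw [e1, e2]; ring
  have e4 : (∑ z, c z) * ∑ x, f x ^ 2 ≤ κ * ∑ x, f x ^ 2 := by
    have : 0 ≤ ∑ x, f x ^ 2 := sum_nonneg fun _ _ => by positivity
    gcongr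
  have e5 : 0 ≤ Δ / (Fintype.card V : ℝ) * (∑ x, f x) ^ 2 := by positivity
  linarith

/-- all sites are equivalent -/
theorem diag_T {R : V → V → ℝ} (hR : IsGreen (gapHopping c Δ) R) (x y : V) : R x x = R y y := by
  have h1 : ∀ a, IsGreen (gapHopping c Δ) (fun x y => R (x + a) (y + a)) := by
    intro a
    have hT : ∀ x y, gapHopping c Δ x y = gapHopping c Δ (x + a) (y + a) := by
      intro x y
      unfold gapHopping
      rw [add_sub_add_right_eq_sub]
      simp only [add_left_inj]
    refine ⟨?_, ?_⟩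
    · intro x z
      have := hR.inv (x + a) (z + a)
      simp only [add_left_inj] at this
      rw [← this]
      refine Fintype.sum_equiv (Equiv.addRight a) _ _ fun y => ?_
      rw [hT x y]
      rfl
    · intro z
      rw [← hR.mean (z + a)]
      exact Fintype.sum_equiv (Equiv.addRight a) _ _ fun y => rfl
  have h2 := green_unique hΔ (hopping_T hc hcs hΔ) hR (h1 (y - x))
  have h3 := congrFun (congrFun h2 x) x
  simpa using h3

/-- the Green matrix is summable, uniformly in the size of the group -/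
theorem l1_T {R : V → V → ℝ} (hR : IsGreen (gapHopping c Δ) R) (x : V) :
    ∑ y, |R x y| ≤ 2 / Δ := by
  have hn0 : (0 : ℝ) < Fintype.card V := by exact_mod_cast Fintype.card_pos
  set n : ℝ := (Fintype.card V : ℝ) with hn
  set S : V → V → ℝ := fun y z => R y z + 1 / (n * Δ) with hS
  -- the resolvent equation
  have h1 : ∀ w z, ((∑ z, c z) + Δ) * S w z - ∑ y, c (w - y) * S y z = if w = z then 1 else 0 := by
    intro w z
    have e1 := hR.inv w z
    have e2 : ∑ y, gapHopping c Δ w y * R y z = ((∑ z, c z) + Δ) * R w z -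
        ∑ y, c (w - y) * R y z := by
      unfold gapHopping
      have : ∀ y, ((if w = y then (∑ z, c z) + Δ else 0) - c (w - y) - Δ / n) * R y z =
          (if w = y then ((∑ z, c z) + Δ) * R y z else 0) - c (w - y) * R y z -
          Δ / n * R y z := by
        intro y; split_ifs <;> ring
      simp_rw [← hn, this]
      rw [sum_sub_distrib, sum_sub_distrib, sum_ite_eq, if_pos (mem_univ _), ← mul_sum, hR.mean]
      ring
    rw [e2] at e1
    simp only [hS, mul_add, sum_add_distrib, ← sum_mul, sum_c]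
    have e3 : ((∑ z, c z) + Δ) * (1 / (n * Δ)) - (∑ z, c z) * (1 / (n * Δ)) = 1 / n := by
      field_simp; ring
    linarith
  -- the minimum principle
  have h2 : ∀ w z, 0 ≤ S w z := by
    intro w z
    obtain ⟨w₀, _, hw₀⟩ := exists_min_image univ (fun w => S w z) ⟨w, mem_univ w⟩
    have e1 := h1 w₀ z
    have e2 : (∑ z, c z) * S w₀ z ≤ ∑ y, c (w₀ - y) * S y z := by
      rw [← sum_c c w₀, sum_mul]
      refine sum_le_sum fun y _ => ?_
      have := hw₀ y (mem_univ y)
      have := hc (w₀ - y)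
      gcongr
    have e3 : (0 : ℝ) ≤ if w₀ = z then 1 else 0 := by split_ifs <;> norm_num
    have e4 : 0 ≤ Δ * S w₀ z := by nlinarith
    have e5 : 0 ≤ S w₀ z := by
      by_contra hcon
      push Not at hcon
      nlinarith
    exact e5.trans (hw₀ w (mem_univ w))
  have h3 : ∀ y, |R x y| ≤ S y x + 1 / (n * Δ) := by
    intro y
    rw [green_symm hΔ (hopping_T hc hcs hΔ) hR x y]
    have e1 := h2 y x
    have e2 : 0 < 1 / (n * Δ) := by positivity
    have e3 : R y x = S y x - 1 / (n * Δ) := by simp only [hS]; ring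
    rw [e3, abs_le]
    constructor <;> linarith
  refine (sum_le_sum fun y _ => h3 y).trans (le_of_eq ?_)
  simp only [hS]
  rw [sum_add_distrib, sum_add_distrib, hR.mean, sum_const, card_univ, nsmul_eq_mul, ← hn]
  field_simp
  ring

end group

end Run7.h259.LHY
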