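import Pool.Agent.Run7.h259.LHY.Num

/-!
# The abstract theorem
-/

set_option autoImplicit false
set_option linter.unusedSectionVars false
set_option linter.unusedVariables false

noncomputable section

namespace Run7.h259.LHY

open Finset

variable {V : Type*} [Fintype V] [DecidableEq V]
variable {E : Type*} [NormedAddCommGroup E] [InnerProductSpace ℝ E]
variable {c d : V → E →ₗ[ℝ] E}

lemma En_smul (v : V → V → ℝ) (ε : V → ℝ) (U r : ℝ) (φ : E) :
    En c v ε U (r • φ) = r ^ 2 * En c v ε U φ := by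
  unfold En
  simp only [map_smul, norm_smul, mul_pow, Real.norm_eq_abs, sq_abs]
  rw [mul_add, mul_sum, mul_sum, mul_sum]
  congr 1
  · exact sum_congr rfl fun k _ => by ring
  · rw [mul_sum]
    exact sum_congr rfl fun k _ => by ring

/-- the constant of the upper bound -/
def C1 (g : ℝ) : ℝ := 1 / (8 * g ^ 3) + 3 / g ^ 2 + 3 / (4 * g ^ 4) + 3 / 8

/-- the variance of the diagonal of the Green matrix -/
def vv (r : ℝ) (rx : V → ℝ) : ℝ := 1 / (Fintype.card V : ℝ) * ∑ x, (rx x - r) ^ 2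

lemma vv_nonneg (r : ℝ) (rx : V → ℝ) : 0 ≤ vv r rx := by unfold vv; positivity

/-- **the upper bound** -/
theorem upper (h : CCR c d) {o : V} {v : V → V → ℝ} (b : Basis o v) {ω : E} (hω0 : ω ≠ 0)
    (hω : ∀ x, c x ω = 0) (ε : V → ℝ) (g U r u s : ℝ) (rx : V → ℝ)
    (hg : 0 < g) (h0 : ε o = 0) (hε : ∀ k, k ≠ o → g ≤ ε k) (hU : 0 < U)
    (hrx : ∀ x, rx x = ∑ k ∈ univ.erase o, v k x ^ 2 / ε k)
    (hr : r = 1 / (Fintype.card V : ℝ) * ∑ k ∈ univ.erase o, 1 / ε k) (hu : u = ueff U r)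
    (N : ℕ) (hN : 1 ≤ N) (hs : 0 < s) (hs1 : s ≤ 1) (hsg : s ^ 2 ≤ g)
    (hs2 : U * ((N : ℝ) / (Fintype.card V : ℝ) + vv r rx +
      (u * N / (Fintype.card V : ℝ)) ^ 2) ≤ s ^ 2) :
    ∃ Ψ : E, ‖Ψ‖ = 1 ∧ Sec c d N Ψ ∧ En c v ε U Ψ ≤
      u / (2 * (Fintype.card V : ℝ)) * (N * (N - 1)) +
      C1 g * (u * N / (Fintype.card V : ℝ)) ^ 2 * s ^ 2 * (Fintype.card V : ℝ) := by
  set n : ℝ := (Fintype.card V : ℝ) with hn
  have hn0 : 0 < n := by
    rw [hn]; exact_mod_cast Fintype.card_pos_iff.2 ⟨o⟩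
  have hεp : ∀ k, k ≠ o → 0 < ε k := fun k hk => lt_of_lt_of_le hg (hε k hk)
  have hr0 : 0 ≤ r := by
    rw [hr]
    refine mul_nonneg (by positivity) (sum_nonneg fun k hk => ?_)
    have := hεp k (ne_of_mem_erase hk)
    positivity
  have hu0 : 0 ≤ u := by rw [hu]; exact ueff_nonneg hU.le hr0
  have huU : u ≤ U := by rw [hu]; exact ueff_le hU.le hr0
  have hN0 : (0 : ℝ) < N := by exact_mod_cast hN
  set lam := u * N / n with hlam
  have hlam0 : 0 ≤ lam := by positivity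
  have hv0 := vv_nonneg r rx
  have hC1 : 0 ≤ C1 g := by unfold C1; positivity
  -- normalisation
  have norm : ∀ Ψ : E, Ψ ≠ 0 → Sec c d N Ψ → En c v ε U Ψ ≤
      (u / (2 * n) * (N * (N - 1)) + C1 g * lam ^ 2 * s ^ 2 * n) * ‖Ψ‖ ^ 2 →
      ∃ Ψ : E, ‖Ψ‖ = 1 ∧ Sec c d N Ψ ∧ En c v ε U Ψ ≤
        u / (2 * n) * (N * (N - 1)) + C1 g * lam ^ 2 * s ^ 2 * n := by
    intro Ψ h1 h2 h3
    have h4 : 0 < ‖Ψ‖ := norm_pos_iff.2 h1
    refine ⟨(‖Ψ‖)⁻¹ • Ψ, ?_, h2.smul _, ?_⟩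
    · rw [norm_smul, norm_inv, norm_norm, inv_mul_cancel₀ h4.ne']
    · rw [En_smul, inv_pow, inv_mul_le_iff₀ (by positivity), mul_comm]
      exact h3
  by_cases hN1 : N = 1
  · subst hN1
    refine norm (cnd d o ω 1) (cnd_ne h hω0 1) (sec_cnd h hω 1) ?_
    have e1 : En c v ε U (cnd d o ω 1) = 0 := by
      unfold En
      have e2 : ∀ k, ε k * ‖c k (cnd d o ω 1)‖ ^ 2 = 0 := by
        intro k
        by_cases hk : k = o
        · rw [hk, h0, zero_mul]
        · rw [c_cnd h hω hk, norm_zero]; ring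
      have e3 : ∀ x, ‖A c v x (A c v x (cnd d o ω 1))‖ ^ 2 = 0 := by
        intro x
        unfold A
        have e4 := h.norm_M_le (h.sec_M (sec_cnd h hω (o := o) 1) (fun j => v j x))
          (fun j => v j x)
        push_cast at e4
        rw [sub_self, zero_mul, mul_zero] at e4
        exact le_antisymm e4 (by positivity)
      simp only [e2, e3, sum_const_zero, mul_zero, add_zero]
    rw [e1]
    push_cast
    have : 0 ≤ C1 g * lam ^ 2 * s ^ 2 * n := by positivity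
    have : 0 ≤ ‖cnd d o ω 1‖ ^ 2 := by positivity
    nlinarith
  · have hN2 : (2 : ℝ) ≤ N := by
      have : 2 ≤ N := by omega
      exact_mod_cast this
    set κ := √((N : ℝ) * (N - 1)) with hκ
    have hκ2 : κ ^ 2 = N * (N - 1) := by
      rw [hκ, Real.sq_sqrt]; nlinarith
    have hκ0 : 0 < κ := by
      rw [hκ]; apply Real.sqrt_pos.2; nlinarith
    have hκN : κ ≤ N := by
      refine abs_le_of_sq_le_sq' ?_ hN0.le |>.2
      rw [hκ2]; nlinarith
    set τ : V → ℝ := fun k => if k = o then 0 else -(u * κ / n / (2 * ε k)) with hτ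
    set t := lam / (2 * g) with ht
    have ht0 : 0 ≤ t := by positivity
    have hlU : lam ≤ U * (N / n) := by
      rw [hlam, mul_div_assoc]; gcongr
    have hUN : U * (N / n) ≤ s ^ 2 := by
      refine le_trans ?_ hs2
      gcongr
      have : 0 ≤ lam ^ 2 := by positivity
      linarith
    have hUv : U * vv r rx ≤ s ^ 2 := by
      refine le_trans ?_ hs2
      gcongr
      have : 0 ≤ lam ^ 2 := by positivity
      have : 0 ≤ (N : ℝ) / n := by positivity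
      linarith
    have hUl : U * lam ^ 2 ≤ s ^ 2 := by
      refine le_trans ?_ hs2
      gcongr
      have : 0 ≤ (N : ℝ) / n := by positivity
      linarith
    have hls : lam ≤ s ^ 2 := hlU.trans hUN
    have ht2 : t ≤ 1 / 2 := by
      rw [ht, div_le_div_iff₀ (by positivity) (by norm_num)]
      nlinarith
    obtain ⟨Ψ, h1, h2, h3⟩ := trial h (o := o) hω0 hω N (w := fun k => τ k / (2 * κ))
      (by simp [hτ])
    have TT : TS c d o N κ t τ Ψ := by
      refine ⟨h, hN2, hκ0, hκ2, h2, ?_, ?_, ht0, ht2⟩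
      · intro k hk
        rw [h3 k hk]
        congr 1
        field_simp
      · intro k
        simp only [hτ]
        by_cases hk : k = o
        · rw [if_pos hk, abs_zero]; exact ht0
        · rw [if_neg hk, abs_neg, abs_of_nonneg (by have := hεp k hk; positivity), ht, hlam]
          have := hε k hk
          gcongr
    refine norm Ψ h1 h2 ?_
    have h4 := TT.energy_le b ε g U r u rx hg h0 hε hU.le hrx hr hu
      (fun k hk => by simp only [hτ, if_neg hk]; rfl) (by simp [hτ])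
    rw [← hn, ← hlam] at h4
    refine h4.trans ?_
    have e1 : t ^ 2 = lam ^ 2 / (4 * g ^ 2) := by rw [ht]; field_simp; ring
    have e2 : t ^ 4 = lam ^ 2 / (4 * g ^ 2) * (lam ^ 2 / (4 * g ^ 2)) := by
      rw [← e1]; ring
    have f1 : t ^ 2 * lam ^ 2 / (2 * g) ≤ 1 / (8 * g ^ 3) * (lam ^ 2 * s ^ 2) := by
      rw [e1]
      have : lam ^ 2 ≤ s ^ 2 := by
        have : lam * lam ≤ s ^ 2 * 1 := by
          have : lam ≤ 1 := hls.trans (by nlinarith)
          gcongr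
        nlinarith
      calc lam ^ 2 / (4 * g ^ 2) * lam ^ 2 / (2 * g) = 1 / (8 * g ^ 3) * (lam ^ 2 * lam ^ 2) := by
            field_simp; ring
        _ ≤ _ := by gcongr
    have f2 : 12 * U * (N / n) * t ^ 2 ≤ 3 / g ^ 2 * (lam ^ 2 * s ^ 2) := by
      rw [e1]
      calc 12 * U * (N / n) * (lam ^ 2 / (4 * g ^ 2)) = 3 / g ^ 2 * (lam ^ 2 * (U * (N / n))) := by
            field_simp; ring
        _ ≤ _ := by gcongr
    have f3 : 12 * U * t ^ 4 ≤ 3 / (4 * g ^ 4) * (lam ^ 2 * s ^ 2) := by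
      rw [e2]
      calc 12 * U * (lam ^ 2 / (4 * g ^ 2) * (lam ^ 2 / (4 * g ^ 2))) =
            3 / (4 * g ^ 4) * (lam ^ 2 * (U * lam ^ 2)) := by
            field_simp; ring
        _ ≤ _ := by gcongr
    have f4 : 3 / 8 * U * lam ^ 2 * (1 / n * ∑ x, (rx x - r) ^ 2) ≤
        3 / 8 * (lam ^ 2 * s ^ 2) := by
      change 3 / 8 * U * lam ^ 2 * vv r rx ≤ _
      calc 3 / 8 * U * lam ^ 2 * vv r rx = 3 / 8 * (lam ^ 2 * (U * vv r rx)) := by ring
        _ ≤ _ := by gcongr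
    refine mul_le_mul_of_nonneg_right ?_ (by positivity)
    have f5 : C1 g * lam ^ 2 * s ^ 2 * n = (1 / (8 * g ^ 3) * (lam ^ 2 * s ^ 2) +
        3 / g ^ 2 * (lam ^ 2 * s ^ 2) + 3 / (4 * g ^ 4) * (lam ^ 2 * s ^ 2) +
        3 / 8 * (lam ^ 2 * s ^ 2)) * n := by unfold C1; ring
    rw [f5]
    gcongr

/-- the constant -/
def C3 (g : ℝ) : ℝ := 1 / g ^ 2 + 2 * (C1 g + 1 / (2 * g ^ 3)) + 2

/-- **the depletion formula** -/
theorem main (h : CCR c d) {o : V} {v : V → V → ℝ} (b : Basis o v) {ω : E} (hω0 : ω ≠ 0)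
    (hω : ∀ x, c x ω = 0) (ε : V → ℝ) (g U r u s δ : ℝ) (rx : V → ℝ)
    (hg : 0 < g) (h0 : ε o = 0) (hε : ∀ k, k ≠ o → g ≤ ε k) (hU : 0 < U)
    (hrx : ∀ x, rx x = ∑ k ∈ univ.erase o, v k x ^ 2 / ε k)
    (hr : r = 1 / (Fintype.card V : ℝ) * ∑ k ∈ univ.erase o, 1 / ε k) (hu : u = ueff U r)
    (N : ℕ) (hN : 1 ≤ N) (hs : 0 < s) (hs4 : s ≤ 1 / 4) (hsg : s ≤ g / 2)
    (hs2 : U * ((N : ℝ) / (Fintype.card V : ℝ) + vv r rx +
      (u * N / (Fintype.card V : ℝ)) ^ 2) ≤ s ^ 2) (hδ : 0 ≤ δ)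
    (φ₁ φ₂ : E) (hφ₁ : Sec c d N φ₁) (hφ₂ : Sec c d N φ₂) (hφ : ‖φ₁‖ ^ 2 + ‖φ₂‖ ^ 2 = 1)
    (hmin : ∀ Ψ : E, ‖Ψ‖ = 1 → Sec c d N Ψ → En c v ε U φ₁ + En c v ε U φ₂ ≤
      En c v ε U Ψ + δ * (Fintype.card V : ℝ)) :
    |(Np c o φ₁ + Np c o φ₂) - u ^ 2 * (N * (N - 1)) / (4 * (Fintype.card V : ℝ) ^ 2) * S2 o ε| ≤
      C3 g * ((u * N / (Fintype.card V : ℝ)) ^ 2 * s + δ / s) * (Fintype.card V : ℝ) ∧
    |(En c v ε U φ₁ + En c v ε U φ₂) - u / (2 * (Fintype.card V : ℝ)) * (N * (N - 1))| ≤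
      C3 g * ((u * N / (Fintype.card V : ℝ)) ^ 2 * s ^ 2 + δ) * (Fintype.card V : ℝ) := by
  have hs1 : s ≤ 1 := by linarith
  have hsg2 : s ^ 2 ≤ g := by nlinarith
  obtain ⟨Ψ, hΨ1, hΨ2, hΨ3⟩ := upper h b hω0 hω ε g U r u s rx hg h0 hε hU hrx hr hu N hN hs hs1
    hsg2 hs2
  have hup := (hmin Ψ hΨ1 hΨ2).trans (add_le_add_left hΨ3 _)
  have lowμ : ∀ μ, μ < g → ueff U (rr o ε μ) / (2 * (Fintype.card V : ℝ)) * (N * (N - 1)) +
      (μ - ueff U (rr o ε μ) * N / (Fintype.card V : ℝ) -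
        (ueff U (rr o ε μ) * N / (Fintype.card V : ℝ)) ^ 2 / (4 * (g - μ))) *
        (Np c o φ₁ + Np c o φ₂) ≤ En c v ε U φ₁ + En c v ε U φ₂ := by
    intro μ hμ
    have hN1 : (1 : ℝ) ≤ N := by exact_mod_cast hN
    have a1 := lower h b hN1 hφ₁ ε g μ U _ _ hμ hU.le h0 hε (rfl : rr o ε μ = _) rfl
    have a2 := lower h b hN1 hφ₂ ε g μ U _ _ hμ hU.le h0 hε (rfl : rr o ε μ = _) rfl
    have a3 := add_le_add a1 a2
    refine le_trans (le_of_eq ?_) a3
    have : ‖φ₁‖ ^ 2 = 1 - ‖φ₂‖ ^ 2 := by linarith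
    rw [this]; ring
  set n : ℝ := (Fintype.card V : ℝ) with hn
  have hn0 : 0 < n := by
    rw [hn]; exact_mod_cast Fintype.card_pos_iff.2 ⟨o⟩
  have hr' : r = rr o ε 0 := by
    rw [hr]; unfold rr; simp only [sub_zero]; rw [← hn]
  have hr0 : 0 ≤ r := by rw [hr']; exact rr_nonneg hg hε hg
  have hu0 : 0 ≤ u := by rw [hu]; exact ueff_nonneg hU.le hr0
  have huU : u ≤ U := by rw [hu]; exact ueff_le hU.le hr0
  have hN0 : (1 : ℝ) ≤ N := by exact_mod_cast hN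
  set lam := u * N / n with hlam
  have hlam0 : 0 ≤ lam := by positivity
  have hv0 := vv_nonneg r rx
  have hUN : U * (N / n) ≤ s ^ 2 := by
    refine le_trans ?_ hs2
    gcongr
    have : 0 ≤ lam ^ 2 := by positivity
    linarith
  have hlU : lam ≤ U * (N / n) := by rw [hlam, mul_div_assoc]; gcongr
  have hls : lam ≤ s ^ 2 := hlU.trans hUN
  set P := Np c o φ₁ + Np c o φ₂ with hP
  have hP0 : 0 ≤ P := add_nonneg (Np_nonneg _ _ _) (Np_nonneg _ _ _)
  set EE := En c v ε U φ₁ + En c v ε U φ₂ with hEE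
  set m := u ^ 2 * (N * (N - 1)) / (4 * n ^ 2) * S2 o ε with hm
  have hS0 := S2_nonneg hg hε
  have hNN : 0 ≤ (N : ℝ) * (N - 1) := by nlinarith
  have hNN2 : (N : ℝ) * (N - 1) ≤ N ^ 2 := by nlinarith
  have hm0 : 0 ≤ m := by positivity
  have hm1 : m ≤ lam ^ 2 / 4 * (n / g ^ 2) := by
    calc m ≤ u ^ 2 * N ^ 2 / (4 * n ^ 2) * (n / g ^ 2) := by
          rw [hm]; have := S2_le hg hε; gcongr
      _ = _ := by rw [hlam]; field_simp
  -- the effective couplings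
  set us := ueff U (rr o ε s) with hus
  set um := ueff U (rr o ε (-s)) with hum
  have hsg' : s < g := by linarith
  have hrs0 : 0 ≤ rr o ε s := rr_nonneg hg hε hsg'
  have hrm0 : 0 ≤ rr o ε (-s) := rr_nonneg hg hε (by linarith)
  have hus0 : 0 ≤ us := ueff_nonneg hU.le hrs0
  have hum0 : 0 ≤ um := ueff_nonneg hU.le hrm0
  have husU : us ≤ U := ueff_le hU.le hrs0
  have humU : um ≤ U := ueff_le hU.le hrm0
  have husu : us ≤ u := by
    rw [hu, hr']; exact ueff_anti hU.le (by rw [← hr']; exact hr0) (rr_mono hg hε hs.le hsg')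
  have humu : u ≤ um := by
    rw [hu, hr']; exact ueff_anti hU.le hrm0 (rr_mono' hg hε hs.le)
  -- above
  have b1 : u - us ≤ u ^ 2 / 2 * (1 / n * (s * S2 o ε) + 2 * s ^ 2 / g ^ 3) := by
    have e1 : u - us = u * us * (rr o ε s - r) / 2 := by
      rw [hu]; exact ueff_sub hU.le hr0 hrs0
    have e2 := rr_up hg hε hs.le hsg
    rw [← hr', ← hn] at e2
    have e3 : 0 ≤ rr o ε s - r := by
      rw [hr']; linarith [rr_mono (o := o) hg hε hs.le hsg']
    rw [e1]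
    calc u * us * (rr o ε s - r) / 2 ≤
        u * u * (1 / n * (s * S2 o ε) + 2 * s ^ 2 / g ^ 3) / 2 := by gcongr
      _ = _ := by ring
  have b2 : u ^ 2 / 2 * (1 / n * (s * S2 o ε) - s ^ 2 / g ^ 3) ≤ um - u := by
    have e1 : um - u = um * u * (r - rr o ε (-s)) / 2 := by
      rw [hu]; exact ueff_sub hU.le hrm0 hr0
    have e2 := rr_down (o := o) hg hε hs.le
    rw [← hr', ← hn] at e2
    have e3 : 0 ≤ r - rr o ε (-s) := by
      rw [hr']; linarith [rr_mono' (o := o) hg hε hs.le]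
    rw [e1]
    calc u ^ 2 / 2 * (1 / n * (s * S2 o ε) - s ^ 2 / g ^ 3) ≤
        u ^ 2 / 2 * (r - rr o ε (-s)) := by gcongr
      _ = u * u * (r - rr o ε (-s)) / 2 := by ring
      _ ≤ um * u * (r - rr o ε (-s)) / 2 := by gcongr
  set D := (C1 g + 1 / (2 * g ^ 3)) * lam ^ 2 * s ^ 2 * n + δ * n with hD
  have hC1 : 0 ≤ C1 g := by unfold C1; positivity
  set e₀ := u / (2 * n) * (N * (N - 1)) with he₀
  have coef : ∀ w : ℝ, 0 ≤ w → w ≤ U → ∀ a : ℝ, g / 2 ≤ a →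
      w * N / n + (w * N / n) ^ 2 / (4 * a) ≤ 2 * s ^ 2 := by
    intro w hw hwU a ha
    have e1 : w * N / n ≤ s ^ 2 := by
      refine le_trans ?_ hUN
      rw [mul_div_assoc]; gcongr
    have e0 : 0 ≤ w * N / n := by positivity
    have ha0 : 0 < a := by linarith
    have e2 : (w * N / n) ^ 2 / (4 * a) ≤ (s ^ 2) ^ 2 / (4 * (g / 2)) := by gcongr
    have e3 : (s ^ 2) ^ 2 / (4 * (g / 2)) ≤ s ^ 2 := by
      rw [div_le_iff₀ (by positivity)]
      nlinarith [sq_nonneg s]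
    linarith
  -- μ = s
  have l1 : (s - 2 * s ^ 2) * P ≤ s * m + D := by
    have a1 := lowμ s hsg'
    rw [← hus] at a1
    have a2 := coef us hus0 husU (g - s) (by linarith)
    have a3 : (s - 2 * s ^ 2) * P ≤
        (s - us * N / n - (us * N / n) ^ 2 / (4 * (g - s))) * P :=
      mul_le_mul_of_nonneg_right (by linarith) hP0
    have a4 : u / (2 * n) * (N * (N - 1)) - us / (2 * n) * (N * (N - 1)) ≤
        s * m + 1 / (2 * g ^ 3) * lam ^ 2 * s ^ 2 * n := by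
      calc u / (2 * n) * (N * (N - 1)) - us / (2 * n) * (N * (N - 1)) =
          (N * (N - 1)) / (2 * n) * (u - us) := by ring
        _ ≤ (N * (N - 1)) / (2 * n) *
            (u ^ 2 / 2 * (1 / n * (s * S2 o ε) + 2 * s ^ 2 / g ^ 3)) := by gcongr
        _ = s * m + (N * (N - 1)) / (2 * n) * (u ^ 2 / 2 * (2 * s ^ 2 / g ^ 3)) := by
            rw [hm]; field_simp; ring
        _ ≤ s * m + N ^ 2 / (2 * n) * (u ^ 2 / 2 * (2 * s ^ 2 / g ^ 3)) := by gcongr
        _ = _ := by rw [hlam]; field_simp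
    rw [hD]
    linarith
  -- μ = -s
  have l2 : s * m ≤ (s + 2 * s ^ 2) * P + D := by
    have a1 := lowμ (-s) (by linarith)
    rw [← hum] at a1
    have a2 := coef um hum0 humU (g - -s) (by linarith)
    have a3 : (-s - 2 * s ^ 2) * P ≤
        (-s - um * N / n - (um * N / n) ^ 2 / (4 * (g - -s))) * P :=
      mul_le_mul_of_nonneg_right (by linarith) hP0
    have a4 : s * m - 1 / (2 * g ^ 3) * lam ^ 2 * s ^ 2 * n ≤
        um / (2 * n) * (N * (N - 1)) - u / (2 * n) * (N * (N - 1)) := by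
      calc s * m - 1 / (2 * g ^ 3) * lam ^ 2 * s ^ 2 * n ≤
          s * m - (N * (N - 1)) / (2 * n) * (u ^ 2 / 2 * (s ^ 2 / g ^ 3)) := by
            have : (N * (N - 1)) / (2 * n) * (u ^ 2 / 2 * (s ^ 2 / g ^ 3)) ≤
                1 / (2 * g ^ 3) * lam ^ 2 * s ^ 2 * n := by
              calc (N * (N - 1)) / (2 * n) * (u ^ 2 / 2 * (s ^ 2 / g ^ 3)) ≤
                  N ^ 2 / (2 * n) * (u ^ 2 / 1 * (s ^ 2 / g ^ 3)) := by
                    gcongr; norm_num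
                _ = _ := by rw [hlam]; field_simp
            linarith
        _ = (N * (N - 1)) / (2 * n) * (u ^ 2 / 2 * (1 / n * (s * S2 o ε) - s ^ 2 / g ^ 3)) := by
            rw [hm]; field_simp; ring
        _ ≤ (N * (N - 1)) / (2 * n) * (um - u) := by gcongr
        _ = _ := by ring
    rw [hD]
    linarith
  -- μ = 0
  have l3 : e₀ - 2 * lam * P ≤ EE := by
    have a1 := lowμ 0 hg
    rw [← hr', ← hu, ← hlam, sub_zero] at a1
    have a2 : lam ^ 2 / (4 * g) ≤ lam := by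
      rw [div_le_iff₀ (by positivity)]
      nlinarith
    have a3 : (0 - lam - lam) * P ≤ (0 - lam - lam ^ 2 / (4 * g)) * P :=
      mul_le_mul_of_nonneg_right (by linarith) hP0
    linarith
  have l4 : EE ≤ e₀ + D := by
    rw [hD]
    have : 0 ≤ 1 / (2 * g ^ 3) * lam ^ 2 * s ^ 2 * n := by positivity
    linarith
  exact numeric hg hn0 hs hs4 hm0 hm1 hP0 (by positivity) hδ hD l1 l2 hlam0 hls l3 l4

end Run7.h259.LHY
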