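import Pool.Agent.Run7.h259.LHY.Upper3
import Pool.Agent.Run7.h259.LHY.Abs

/-!
# The abstract theorem, sharp form
-/

set_option autoImplicit false
set_option linter.unusedSectionVars false
set_option linter.unusedVariables false

noncomputable section

namespace Run7.h259.LHY

open Finset

variable {V : Type*} [Fintype V] [DecidableEq V]
variable {E : Type*} [NormedAddCommGroup E] [InnerProductSpace ℝ E]
variable {c d : V → E →ₗ[ℝ] E}

/-- **the upper bound, sharp form** -/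
theorem upper2 (h : CCR c d) {o : V} {v : V → V → ℝ} (b : Basis o v) {ω : E} (hω0 : ω ≠ 0)
    (hω : ∀ x, c x ω = 0) (ε : V → ℝ) (g U r u p w m X : ℝ) (rx : V → ℝ)
    (hg : 0 < g) (h0 : ε o = 0) (hε : ∀ k, k ≠ o → g ≤ ε k) (hU : 0 < U) (hw : 0 ≤ w)
    (hp0 : 0 ≤ p)
    (hrx : ∀ x, rx x = ∑ k ∈ univ.erase o, v k x ^ 2 / ε k)
    (hr : r = 1 / (Fintype.card V : ℝ) * ∑ k ∈ univ.erase o, 1 / ε k) (hu : u = ueff U r)
    (N : ℕ) (hN : 1 ≤ N)
    (hp : ∀ x, (u * N / (Fintype.card V : ℝ)) ^ 2 / 4 *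
      ∑ k ∈ univ.erase o, v k x ^ 2 / ε k ^ 2 ≤ p)
    (hvar : ∑ x, (rx x - r) ^ 2 ≤ w * S2 o ε)
    (hm : m = u ^ 2 * (N * (N - 1)) / (4 * (Fintype.card V : ℝ) ^ 2) * S2 o ε)
    (hX : X = U * ((N : ℝ) / (Fintype.card V : ℝ) + p + w)) (hXg : X ≤ g) :
    ∃ Ψ : E, ‖Ψ‖ = 1 ∧ Sec c d N Ψ ∧ En c v ε U Ψ ≤
      u / (2 * (Fintype.card V : ℝ)) * (N * (N - 1)) + 12 * X * m := by
  set n : ℝ := (Fintype.card V : ℝ) with hn
  have hn0 : 0 < n := by
    rw [hn]; exact_mod_cast Fintype.card_pos_iff.2 ⟨o⟩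
  have hεp : ∀ k, k ≠ o → 0 < ε k := fun k hk => lt_of_lt_of_le hg (hε k hk)
  have hr0 : 0 ≤ r := by
    rw [hr]
    refine mul_nonneg (by positivity) (sum_nonneg fun k hk => ?_)
    have := hεp k (ne_of_mem_erase hk)
    positivity
  have hu0 : 0 ≤ u := by rw [hu]; exact ueff_nonneg hU.le hr0
  have huU : u ≤ U := by rw [hu]; exact ueff_le hU.le hr0
  have hN0 : (1 : ℝ) ≤ N := by exact_mod_cast hN
  have hS0 : 0 ≤ S2 o ε := S2_nonneg hg hε
  have hNN : 0 ≤ (N : ℝ) * (N - 1) := by nlinarith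
  have hm0 : 0 ≤ m := by rw [hm]; positivity
  have hX0 : 0 ≤ X := by rw [hX]; positivity
  set lam := u * N / n with hlam
  have hlam0 : 0 ≤ lam := by positivity
  -- normalisation
  have norm : ∀ Ψ : E, Ψ ≠ 0 → Sec c d N Ψ → En c v ε U Ψ ≤
      (u / (2 * n) * (N * (N - 1)) + 12 * X * m) * ‖Ψ‖ ^ 2 →
      ∃ Ψ : E, ‖Ψ‖ = 1 ∧ Sec c d N Ψ ∧ En c v ε U Ψ ≤
        u / (2 * n) * (N * (N - 1)) + 12 * X * m := by
    intro Ψ h1 h2 h3
    have h4 : 0 < ‖Ψ‖ := norm_pos_iff.2 h1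
    refine ⟨(‖Ψ‖)⁻¹ • Ψ, ?_, h2.smul _, ?_⟩
    · rw [norm_smul, norm_inv, norm_norm, inv_mul_cancel₀ h4.ne']
    · rw [En_smul, inv_pow, inv_mul_le_iff₀ (by positivity), mul_comm]
      exact h3
  by_cases hN1 : N = 1
  · subst hN1
    refine norm (cnd d o ω 1) (cnd_ne h hω0 1) (sec_cnd h hω 1) ?_
    have e1 : En c v ε U (cnd d o ω 1) = 0 := by
      unfold En
      have e2 : ∀ k, ε k * ‖c k (cnd d o ω 1)‖ ^ 2 = 0 := by
        intro k
        by_cases hk : k = o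
        · rw [hk, h0, zero_mul]
        · rw [c_cnd h hω hk, norm_zero]; ring
      have e3 : ∀ x, ‖A c v x (A c v x (cnd d o ω 1))‖ ^ 2 = 0 := by
        intro x
        unfold A
        have e4 := h.norm_M_le (h.sec_M (sec_cnd h hω (o := o) 1) (fun j => v j x))
          (fun j => v j x)
        push_cast at e4
        rw [sub_self, zero_mul, mul_zero] at e4
        exact le_antisymm e4 (by positivity)
      simp only [e2, e3, sum_const_zero, mul_zero, add_zero]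
    rw [e1]
    push_cast
    have : 0 ≤ X * m := by positivity
    have : 0 ≤ ‖cnd d o ω 1‖ ^ 2 := by positivity
    nlinarith
  · have hN2 : (2 : ℝ) ≤ N := by
      have : 2 ≤ N := by omega
      exact_mod_cast this
    set κ := √((N : ℝ) * (N - 1)) with hκ
    have hκ2 : κ ^ 2 = N * (N - 1) := by
      rw [hκ, Real.sq_sqrt]; nlinarith
    have hκ0 : 0 < κ := by
      rw [hκ]; apply Real.sqrt_pos.2; nlinarith
    have hκN : κ ≤ N := by
      refine abs_le_of_sq_le_sq' ?_ (by linarith) |>.2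
      rw [hκ2]; nlinarith
    set τ : V → ℝ := fun k => if k = o then 0 else -(u * κ / n / (2 * ε k)) with hτ
    set t := lam / (2 * g) with ht
    have ht0 : 0 ≤ t := by positivity
    have hlX : lam ≤ X := by
      rw [hlam, hX, mul_div_assoc]
      have : 0 ≤ (N : ℝ) / n := by positivity
      calc u * (N / n) ≤ U * (N / n) := by gcongr
        _ ≤ U * (N / n + p + w) := by gcongr; linarith
    have ht2 : t ≤ 1 / 2 := by
      rw [ht, div_le_div_iff₀ (by positivity) (by norm_num)]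
      nlinarith
    obtain ⟨Ψ, h1, h2, h3⟩ := trial h (o := o) hω0 hω N (w := fun k => τ k / (2 * κ))
      (by simp [hτ])
    have TT : TS c d o N κ t τ Ψ := by
      refine ⟨h, hN2, hκ0, hκ2, h2, ?_, ?_, ht0, ht2⟩
      · intro k hk
        rw [h3 k hk]
        congr 1
        field_simp
      · intro k
        simp only [hτ]
        by_cases hk : k = o
        · rw [if_pos hk, abs_zero]; exact ht0
        · rw [if_neg hk, abs_neg, abs_of_nonneg (by have := hεp k hk; positivity), ht, hlam]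
          have := hε k hk
          gcongr
    refine norm Ψ h1 h2 ?_
    have h4 := TT.energy_le2 b ε g U r u p w m rx hg h0 hε hU.le hw hrx hr hu
      (fun k hk => by simp only [hτ, if_neg hk]; rfl) (by simp [hτ]) hp hvar hm
    rw [← hn, ← hlam] at h4
    refine h4.trans ?_
    refine mul_le_mul_of_nonneg_right ?_ (by positivity)
    have h5 : t * lam + 9 * U * (N / n) + 12 * U * p + 3 / 2 * U * w ≤ 12 * X := by
      have e0 : lam ≤ U * (N / n) := by rw [hlam, mul_div_assoc]; gcongr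
      have e1 : t * lam ≤ 1 / 2 * (U * (N / n)) := by gcongr
      have e2 : X = U * (N / n) + U * p + U * w := by rw [hX]; ring
      have e3 : 0 ≤ U * (N / n) := by positivity
      have e4 : 0 ≤ U * p := by positivity
      have e5 : 0 ≤ U * w := by positivity
      linarith
    have h6 : (t * lam + 9 * U * (N / n) + 12 * U * p + 3 / 2 * U * w) * m ≤ 12 * X * m := by
      gcongr
    linarith

/-- the numbers -/
lemma numeric2 {g η P m E e₀ n X δ : ℝ} (hg : 0 < g) (hn : 0 < n) (hη : 0 < η)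
    (hη8 : η ≤ 1 / 8) (hX0 : 0 ≤ X) (hX : X ≤ η ^ 2 * g) (hm0 : 0 ≤ m)
    (hP : 0 ≤ P) (hδ : 0 ≤ δ)
    (h1 : (η * g - 2 * X) * P ≤ η * g * (m * (1 + 2 * η)) + 12 * X * m + δ * n)
    (h2 : η * g * (m * (1 - η)) ≤ (η * g + 2 * X) * P + 12 * X * m + δ * n)
    (h3 : e₀ - 2 * X * P ≤ E) (h4 : E ≤ e₀ + 12 * X * m + δ * n) :
    |P - m| ≤ 25 * η * m + 2 * δ / (η * g) * n ∧
    |E - e₀| ≤ 12 * η ^ 2 * g * m + δ * n := by
  set y := η * g with hy
  have hy0 : 0 < y := by positivity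
  have hXy : X ≤ η * y := by rw [hy]; linarith
  set D := δ * n with hD
  have hD0 : 0 ≤ D := by positivity
  have hym : 0 ≤ y * m := by positivity
  have hηym : 0 ≤ η * (y * m) := by positivity
  have a1 : X * m ≤ η * (y * m) := by
    calc X * m ≤ η * y * m := by gcongr
      _ = _ := by ring
  have a2 : X * P ≤ η * (y * P) := by
    calc X * P ≤ η * y * P := by gcongr
      _ = _ := by ring
  have hyP : 0 ≤ y * P := by positivity
  have a3 : η * (y * P) ≤ 1 / 8 * (y * P) := by gcongr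
  have a4 : η * (y * m) ≤ 1 / 8 * (y * m) := by gcongr
  have h1' : y * P - 2 * (X * P) ≤ y * m + 2 * (η * (y * m)) + 12 * (X * m) + D := by
    calc y * P - 2 * (X * P) = (y - 2 * X) * P := by ring
      _ ≤ _ := h1
      _ = _ := by ring
  have h2' : y * m - η * (y * m) ≤ y * P + 2 * (X * P) + 12 * (X * m) + D := by
    calc y * m - η * (y * m) = y * (m * (1 - η)) := by ring
      _ ≤ _ := h2
      _ = _ := by ring
  have a5 : y * P ≤ 11 / 3 * (y * m) + 4 / 3 * D := by linarith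
  have a6 : η * (y * P) ≤ η * (11 / 3 * (y * m) + 4 / 3 * D) := by gcongr
  have a7 : η * D ≤ 1 / 8 * D := by gcongr
  have a8 : η * (11 / 3 * (y * m) + 4 / 3 * D) = 11 / 3 * (η * (y * m)) + 4 / 3 * (η * D) := by ring
  refine ⟨?_, ?_⟩
  · have e1 : 25 * η * m + 2 * δ / (η * g) * n = (25 * (η * (y * m)) + 2 * D) / y := by
      rw [hD, ← hy]; field_simp
    rw [e1, abs_le]
    constructor
    · rw [neg_le, neg_sub, le_div_iff₀ hy0]
      have : (m - P) * y = y * m - y * P := by ring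
      rw [this]
      linarith
    · rw [le_div_iff₀ hy0]
      have : (P - m) * y = y * P - y * m := by ring
      rw [this]
      linarith
  · have e1 : 12 * η ^ 2 * g * m = 12 * (η * (y * m)) := by rw [hy]; ring
    rw [e1, abs_le]
    constructor
    · linarith
    · linarith

/-- **the depletion formula, sharp form** -/
theorem main2 (h : CCR c d) {o : V} {v : V → V → ℝ} (b : Basis o v) {ω : E} (hω0 : ω ≠ 0)
    (hω : ∀ x, c x ω = 0) (ε : V → ℝ) (g U r u η δ p w m : ℝ) (rx : V → ℝ)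
    (hg : 0 < g) (h0 : ε o = 0) (hε : ∀ k, k ≠ o → g ≤ ε k) (hU : 0 < U) (hw : 0 ≤ w)
    (hp0 : 0 ≤ p)
    (hrx : ∀ x, rx x = ∑ k ∈ univ.erase o, v k x ^ 2 / ε k)
    (hr : r = 1 / (Fintype.card V : ℝ) * ∑ k ∈ univ.erase o, 1 / ε k) (hu : u = ueff U r)
    (N : ℕ) (hN : 1 ≤ N)
    (hp : ∀ x, (u * N / (Fintype.card V : ℝ)) ^ 2 / 4 *
      ∑ k ∈ univ.erase o, v k x ^ 2 / ε k ^ 2 ≤ p)
    (hvar : ∑ x, (rx x - r) ^ 2 ≤ w * S2 o ε)
    (hm : m = u ^ 2 * (N * (N - 1)) / (4 * (Fintype.card V : ℝ) ^ 2) * S2 o ε)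
    (hη : 0 < η) (hη8 : η ≤ 1 / 8)
    (hX : U * ((N : ℝ) / (Fintype.card V : ℝ) + p + w) ≤ η ^ 2 * g) (hδ : 0 ≤ δ)
    (φ₁ φ₂ : E) (hφ₁ : Sec c d N φ₁) (hφ₂ : Sec c d N φ₂) (hφ : ‖φ₁‖ ^ 2 + ‖φ₂‖ ^ 2 = 1)
    (hmin : ∀ Ψ : E, ‖Ψ‖ = 1 → Sec c d N Ψ → En c v ε U φ₁ + En c v ε U φ₂ ≤
      En c v ε U Ψ + δ * (Fintype.card V : ℝ)) :
    |(Np c o φ₁ + Np c o φ₂) - m| ≤ 25 * η * m + 2 * δ / (η * g) * (Fintype.card V : ℝ) ∧
    |(En c v ε U φ₁ + En c v ε U φ₂) - u / (2 * (Fintype.card V : ℝ)) * (N * (N - 1))| ≤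
      12 * η ^ 2 * g * m + δ * (Fintype.card V : ℝ) := by
  set X := U * ((N : ℝ) / (Fintype.card V : ℝ) + p + w) with hXdef
  have hη2 : η ^ 2 ≤ 1 / 64 := by nlinarith
  have hη3 : η ^ 2 * g ≤ 1 / 64 * g := by gcongr
  have hXg : X ≤ g := by linarith
  obtain ⟨Ψ, hΨ1, hΨ2, hΨ3⟩ := upper2 h b hω0 hω ε g U r u p w m X rx hg h0 hε hU hw hp0 hrx hr hu
    N hN hp hvar hm hXdef hXg
  have hup := (hmin Ψ hΨ1 hΨ2).trans (add_le_add_left hΨ3 _)
  have lowμ : ∀ μ, μ < g → ueff U (rr o ε μ) / (2 * (Fintype.card V : ℝ)) * (N * (N - 1)) +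
      (μ - ueff U (rr o ε μ) * N / (Fintype.card V : ℝ) -
        (ueff U (rr o ε μ) * N / (Fintype.card V : ℝ)) ^ 2 / (4 * (g - μ))) *
        (Np c o φ₁ + Np c o φ₂) ≤ En c v ε U φ₁ + En c v ε U φ₂ := by
    intro μ hμ
    have hN1 : (1 : ℝ) ≤ N := by exact_mod_cast hN
    have a1 := lower h b hN1 hφ₁ ε g μ U _ _ hμ hU.le h0 hε (rfl : rr o ε μ = _) rfl
    have a2 := lower h b hN1 hφ₂ ε g μ U _ _ hμ hU.le h0 hε (rfl : rr o ε μ = _) rfl
    have a3 := add_le_add a1 a2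
    refine le_trans (le_of_eq ?_) a3
    have : ‖φ₁‖ ^ 2 = 1 - ‖φ₂‖ ^ 2 := by linarith
    rw [this]; ring
  set n : ℝ := (Fintype.card V : ℝ) with hn
  have hn0 : 0 < n := by
    rw [hn]; exact_mod_cast Fintype.card_pos_iff.2 ⟨o⟩
  have hr' : r = rr o ε 0 := by
    rw [hr]; unfold rr; simp only [sub_zero]; rw [← hn]
  have hr0 : 0 ≤ r := by rw [hr']; exact rr_nonneg hg hε hg
  have hu0 : 0 ≤ u := by rw [hu]; exact ueff_nonneg hU.le hr0
  have huU : u ≤ U := by rw [hu]; exact ueff_le hU.le hr0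
  have hN0 : (1 : ℝ) ≤ N := by exact_mod_cast hN
  have hX0 : 0 ≤ X := by rw [hXdef]; positivity
  have hUN : U * (N / n) ≤ X := by
    rw [hXdef]
    gcongr
    linarith
  have hXg8 : X ≤ g / 8 := by linarith
  set P := Np c o φ₁ + Np c o φ₂ with hP
  have hP0 : 0 ≤ P := add_nonneg (Np_nonneg _ _ _) (Np_nonneg _ _ _)
  set EE := En c v ε U φ₁ + En c v ε U φ₂ with hEE
  have hS0 := S2_nonneg hg hε
  have hNN : 0 ≤ (N : ℝ) * (N - 1) := by nlinarith
  have hm0 : 0 ≤ m := by rw [hm]; positivity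
  set s := η * g with hs
  have hs0 : 0 < s := by positivity
  have hsg : s ≤ g / 2 := by rw [hs]; nlinarith
  have hsg' : s < g := by linarith
  -- the effective couplings
  set us := ueff U (rr o ε s) with hus
  set um := ueff U (rr o ε (-s)) with hum
  have hrs0 : 0 ≤ rr o ε s := rr_nonneg hg hε hsg'
  have hrm0 : 0 ≤ rr o ε (-s) := rr_nonneg hg hε (by linarith)
  have hus0 : 0 ≤ us := ueff_nonneg hU.le hrs0
  have hum0 : 0 ≤ um := ueff_nonneg hU.le hrm0
  have husU : us ≤ U := ueff_le hU.le hrs0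
  have humU : um ≤ U := ueff_le hU.le hrm0
  have husu : us ≤ u := by
    rw [hu, hr']; exact ueff_anti hU.le (by rw [← hr']; exact hr0) (rr_mono hg hε hs0.le hsg')
  have humu : u ≤ um := by
    rw [hu, hr']; exact ueff_anti hU.le hrm0 (rr_mono' hg hε hs0.le)
  -- the resolvents
  have q1 : rr o ε s - r ≤ 1 / n * (s * (1 + 2 * η) * S2 o ε) := by
    rw [hr']
    unfold rr S2
    have e9 : s * (1 + 2 * η) * ∑ k ∈ univ.erase o, 1 / ε k ^ 2 =
      ∑ k ∈ univ.erase o, s * (1 + 2 * η) * (1 / ε k ^ 2) := mul_sum _ _ _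
    rw [← hn, ← mul_sub, ← sum_sub_distrib, e9]
    refine mul_le_mul_of_nonneg_left (sum_le_sum fun k hk => ?_) (by positivity)
    have h2 := hε k (ne_of_mem_erase hk)
    have h3' : 0 < ε k := by linarith
    have h5 : 0 < ε k - s := by linarith
    have e : 1 / (ε k - s) - 1 / (ε k - 0) = s * (ε k / (ε k - s)) * (1 / ε k ^ 2) := by
      rw [sub_zero]; field_simp; ring
    rw [e]
    have h6 : ε k / (ε k - s) ≤ 1 + 2 * η := by
      rw [div_le_iff₀ h5]
      have : s ≤ η * ε k := by rw [hs]; gcongr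
      nlinarith
    gcongr
  have q2 : 1 / n * (s * (1 - η) * S2 o ε) ≤ r - rr o ε (-s) := by
    rw [hr']
    unfold rr S2
    have e9 : s * (1 - η) * ∑ k ∈ univ.erase o, 1 / ε k ^ 2 =
      ∑ k ∈ univ.erase o, s * (1 - η) * (1 / ε k ^ 2) := mul_sum _ _ _
    rw [← hn, ← mul_sub, ← sum_sub_distrib, e9]
    refine mul_le_mul_of_nonneg_left (sum_le_sum fun k hk => ?_) (by positivity)
    have h2 := hε k (ne_of_mem_erase hk)
    have h3' : 0 < ε k := by linarith
    have h5 : 0 < ε k + s := by linarith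
    have e : 1 / (ε k - 0) - 1 / (ε k - -s) = s * (ε k / (ε k + s)) * (1 / ε k ^ 2) := by
      rw [sub_zero, sub_neg_eq_add]; field_simp; ring
    rw [e]
    have h6 : 1 - η ≤ ε k / (ε k + s) := by
      rw [le_div_iff₀ h5]
      have : s ≤ η * ε k := by rw [hs]; gcongr
      nlinarith
    gcongr
  have b1 : u - us ≤ u ^ 2 / 2 * (1 / n * (s * (1 + 2 * η) * S2 o ε)) := by
    have e1 : u - us = u * us * (rr o ε s - r) / 2 := by
      rw [hu]; exact ueff_sub hU.le hr0 hrs0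
    have e3 : 0 ≤ rr o ε s - r := by
      rw [hr']; linarith [rr_mono (o := o) hg hε hs0.le hsg']
    rw [e1]
    calc u * us * (rr o ε s - r) / 2 ≤
        u * u * (1 / n * (s * (1 + 2 * η) * S2 o ε)) / 2 := by gcongr
      _ = _ := by ring
  have b2 : u ^ 2 / 2 * (1 / n * (s * (1 - η) * S2 o ε)) ≤ um - u := by
    have e1 : um - u = um * u * (r - rr o ε (-s)) / 2 := by
      rw [hu]; exact ueff_sub hU.le hrm0 hr0
    have e3 : 0 ≤ r - rr o ε (-s) := by
      rw [hr']; linarith [rr_mono' (o := o) hg hε hs0.le]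
    rw [e1]
    calc u ^ 2 / 2 * (1 / n * (s * (1 - η) * S2 o ε)) ≤
        u ^ 2 / 2 * (r - rr o ε (-s)) := by gcongr
      _ = u * u * (r - rr o ε (-s)) / 2 := by ring
      _ ≤ um * u * (r - rr o ε (-s)) / 2 := by gcongr
  set e₀ := u / (2 * n) * (N * (N - 1)) with he₀
  have coef : ∀ y : ℝ, 0 ≤ y → y ≤ U → ∀ a : ℝ, g / 2 ≤ a →
      y * N / n + (y * N / n) ^ 2 / (4 * a) ≤ 2 * X := by
    intro y hy hyU a ha
    have e1 : y * N / n ≤ X := by
      refine le_trans ?_ hUN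
      rw [mul_div_assoc]; gcongr
    have e0 : 0 ≤ y * N / n := by positivity
    have ha0 : 0 < a := by linarith
    have e2 : (y * N / n) ^ 2 / (4 * a) ≤ X ^ 2 / (4 * (g / 2)) := by gcongr
    have e3 : X ^ 2 / (4 * (g / 2)) ≤ X := by
      rw [div_le_iff₀ (by positivity)]
      nlinarith
    linarith
  -- μ = s
  have l1 : (s - 2 * X) * P ≤ s * (m * (1 + 2 * η)) + 12 * X * m + δ * n := by
    have a1 := lowμ s hsg'
    rw [← hus] at a1
    have a2 := coef us hus0 husU (g - s) (by linarith)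
    have a3 : (s - 2 * X) * P ≤
        (s - us * N / n - (us * N / n) ^ 2 / (4 * (g - s))) * P :=
      mul_le_mul_of_nonneg_right (by linarith) hP0
    have a4 : u / (2 * n) * (N * (N - 1)) - us / (2 * n) * (N * (N - 1)) ≤
        s * (m * (1 + 2 * η)) := by
      calc u / (2 * n) * (N * (N - 1)) - us / (2 * n) * (N * (N - 1)) =
          (N * (N - 1)) / (2 * n) * (u - us) := by ring
        _ ≤ (N * (N - 1)) / (2 * n) *
            (u ^ 2 / 2 * (1 / n * (s * (1 + 2 * η) * S2 o ε))) := by gcongr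
        _ = _ := by rw [hm]; field_simp; ring
    linarith
  -- μ = -s
  have l2 : s * (m * (1 - η)) ≤ (s + 2 * X) * P + 12 * X * m + δ * n := by
    have a1 := lowμ (-s) (by linarith)
    rw [← hum] at a1
    have a2 := coef um hum0 humU (g - -s) (by linarith)
    have a3 : (-s - 2 * X) * P ≤
        (-s - um * N / n - (um * N / n) ^ 2 / (4 * (g - -s))) * P :=
      mul_le_mul_of_nonneg_right (by linarith) hP0
    have a4 : s * (m * (1 - η)) ≤
        um / (2 * n) * (N * (N - 1)) - u / (2 * n) * (N * (N - 1)) := by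
      calc s * (m * (1 - η)) =
          (N * (N - 1)) / (2 * n) * (u ^ 2 / 2 * (1 / n * (s * (1 - η) * S2 o ε))) := by
            rw [hm]; field_simp; ring
        _ ≤ (N * (N - 1)) / (2 * n) * (um - u) := by gcongr
        _ = _ := by ring
    linarith
  -- μ = 0
  have l3 : e₀ - 2 * X * P ≤ EE := by
    have a1 := lowμ 0 hg
    rw [← hr', ← hu, sub_zero] at a1
    have a2 := coef u hu0 huU g (by linarith)
    have a3 : (0 - 2 * X) * P ≤ (0 - u * N / n - (u * N / n) ^ 2 / (4 * g)) * P :=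
      mul_le_mul_of_nonneg_right (by linarith) hP0
    linarith
  have l4 : EE ≤ e₀ + 12 * X * m + δ * n := by linarith
  exact numeric2 hg hn0 hη hη8 hX0 hX hm0 hP0 hδ l1 l2 l3 l4

end Run7.h259.LHY
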