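import Mathlib

/-!
# Bosonic modes on a real inner product space
-/

set_option autoImplicit false
set_option linter.unusedSectionVars false

noncomputable section

namespace Run7.h259.LHY

open Finset

variable {V : Type*} [Fintype V] [DecidableEq V]
variable {E : Type*} [NormedAddCommGroup E] [InnerProductSpace ℝ E]

/-- the canonical commutation relations -/
structure CCR (c d : V → E →ₗ[ℝ] E) : Prop where
  adj : ∀ x φ χ, inner ℝ (d x φ) χ = inner ℝ φ (c x χ)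
  comm : ∀ x y φ, c x (d y φ) = d y (c x φ) + if x = y then φ else 0
  cc : ∀ x y φ, c x (c y φ) = c y (c x φ)

/-- the sector of `N` particles -/
def Sec (c d : V → E →ₗ[ℝ] E) (N : ℝ) (φ : E) : Prop := ∑ x, d x (c x φ) = N • φ

/-- `∑ f_k c_k` -/
def M (c : V → E →ₗ[ℝ] E) (f : V → ℝ) : E →ₗ[ℝ] E := ∑ k, f k • c k

lemma M_apply (c : V → E →ₗ[ℝ] E) (f : V → ℝ) (φ : E) : M c f φ = ∑ k, f k • c k φ := by
  simp [M, LinearMap.sum_apply]

namespace CCR

variable {c d : V → E →ₗ[ℝ] E} (h : CCR c d)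

include h

lemma adj' (x : V) (φ χ : E) : inner ℝ (c x φ) χ = inner ℝ φ (d x χ) := by
  rw [real_inner_comm, ← h.adj, real_inner_comm]

lemma dd (x y : V) (φ : E) : d x (d y φ) = d y (d x φ) := by
  refine ext_inner_right ℝ fun χ => ?_
  rw [h.adj, h.adj, h.adj, h.adj, h.cc]

lemma comm_ne {x y : V} (hxy : x ≠ y) (φ : E) : c x (d y φ) = d y (c x φ) := by
  rw [h.comm, if_neg hxy, add_zero]

lemma comm_self (x : V) (φ : E) : c x (d x φ) = d x (c x φ) + φ := by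
  rw [h.comm, if_pos rfl]

lemma norm_d (x : V) (φ : E) : ‖d x φ‖ ^ 2 = ‖φ‖ ^ 2 + ‖c x φ‖ ^ 2 := by
  rw [← real_inner_self_eq_norm_sq, h.adj, h.comm_self, inner_add_right, real_inner_self_eq_norm_sq,
    ← h.adj', real_inner_self_eq_norm_sq]
  ring

lemma sec_c {N : ℝ} {φ : E} (hφ : Sec c d N φ) (y : V) : Sec c d (N - 1) (c y φ) := by
  unfold Sec at hφ ⊢
  have e := congrArg (c y) hφ
  rw [map_sum, map_smul] at e
  simp only [h.comm] at e
  rw [sum_add_distrib, sum_ite_eq, if_pos (mem_univ _)] at e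
  rw [sub_smul, one_smul, ← e, add_sub_cancel_right]
  exact sum_congr rfl fun x _ => by rw [h.cc]

lemma sec_d {N : ℝ} {φ : E} (hφ : Sec c d N φ) (y : V) : Sec c d (N + 1) (d y φ) := by
  unfold Sec at hφ ⊢
  have e := congrArg (d y) hφ
  rw [map_sum, map_smul] at e
  simp only [h.comm, map_add]
  rw [sum_add_distrib, add_smul, one_smul, ← e]
  congr 1
  · exact sum_congr rfl fun x _ => by rw [h.dd]
  · rw [Finset.sum_eq_single y]
    · rw [if_pos rfl]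
    · intro b _ hb; rw [if_neg hb, map_zero]
    · intro hy; exact absurd (mem_univ _) hy

lemma sec_sum {N : ℝ} {φ : E} (hφ : Sec c d N φ) : ∑ x, ‖c x φ‖ ^ 2 = N * ‖φ‖ ^ 2 := by
  unfold Sec at hφ
  have e := congrArg (fun χ => inner ℝ χ φ) hφ
  simp only [sum_inner, h.adj, inner_smul_left, real_inner_self_eq_norm_sq] at e
  simpa using e

lemma sec_le {N : ℝ} {φ : E} (hφ : Sec c d N φ) (x : V) : ‖c x φ‖ ^ 2 ≤ N * ‖φ‖ ^ 2 := by
  rw [← h.sec_sum hφ]
  exact single_le_sum (f := fun x => ‖c x φ‖ ^ 2) (fun _ _ => by positivity) (mem_univ x)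

/-- two annihilations -/
lemma sec_le2 {N K : ℝ} {φ : E} (hφ : Sec c d N φ) (hN : N ≤ K) (hK : 1 ≤ K) (x y : V) :
    ‖c x (c y φ)‖ ^ 2 ≤ K * (K - 1) * ‖φ‖ ^ 2 := by
  have h1 := h.sec_le hφ y
  have h2 := h.sec_le (h.sec_c hφ y) x
  have h3 : 0 ≤ ‖c y φ‖ ^ 2 := by positivity
  have h4 : 0 ≤ ‖φ‖ ^ 2 := by positivity
  calc ‖c x (c y φ)‖ ^ 2 ≤ (N - 1) * ‖c y φ‖ ^ 2 := h2
    _ ≤ (K - 1) * ‖c y φ‖ ^ 2 := by gcongr
    _ ≤ (K - 1) * (N * ‖φ‖ ^ 2) := by
        have : 0 ≤ K - 1 := by linarith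
        gcongr
    _ ≤ (K - 1) * (K * ‖φ‖ ^ 2) := by
        have : 0 ≤ K - 1 := by linarith
        gcongr
    _ = _ := by ring

lemma M_cc (f : V → ℝ) (x : V) (φ : E) : c x (M c f φ) = M c f (c x φ) := by
  rw [M_apply, M_apply, map_sum]
  exact sum_congr rfl fun k _ => by rw [map_smul, h.cc]

lemma M_MM (f g : V → ℝ) (φ : E) : M c f (M c g φ) = M c g (M c f φ) := by
  rw [M_apply c f, M_apply c f, map_sum]
  exact sum_congr rfl fun k _ => by rw [map_smul, h.M_cc]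

lemma M_adj (f : V → ℝ) (φ χ : E) : inner ℝ (M d f φ) χ = inner ℝ φ (M c f χ) := by
  rw [M_apply, M_apply, sum_inner, inner_sum]
  refine sum_congr rfl fun k _ => ?_
  rw [inner_smul_left, inner_smul_right, h.adj]; rfl

lemma M_adj' (f : V → ℝ) (φ χ : E) : inner ℝ (M c f φ) χ = inner ℝ φ (M d f χ) := by
  rw [real_inner_comm, ← h.M_adj, real_inner_comm]

lemma M_comm (f g : V → ℝ) (φ : E) :
    M c f (M d g φ) = M d g (M c f φ) + (∑ k, f k * g k) • φ := by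
  have e1 : ∀ k, c k (M d g φ) = M d g (c k φ) + g k • φ := by
    intro k
    rw [M_apply, M_apply, map_sum]
    simp only [map_smul, h.comm, smul_add, sum_add_distrib]
    congr 1
    rw [Finset.sum_eq_single k]
    · rw [if_pos rfl]
    · intro b _ hb; rw [if_neg (Ne.symm hb), smul_zero]
    · intro hy; exact absurd (mem_univ _) hy
  rw [M_apply c f (M d g φ), M_apply c f φ, map_sum, sum_smul, ← sum_add_distrib]
  refine sum_congr rfl fun k _ => ?_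
  rw [e1, smul_add, map_smul, smul_smul]

lemma norm_Md (f : V → ℝ) (φ : E) : ‖M d f φ‖ ^ 2 = (∑ k, f k ^ 2) * ‖φ‖ ^ 2 + ‖M c f φ‖ ^ 2 := by
  rw [← real_inner_self_eq_norm_sq, h.M_adj, h.M_comm, inner_add_right, ← h.M_adj',
    real_inner_self_eq_norm_sq, inner_smul_right, real_inner_self_eq_norm_sq]
  simp only [sq]
  ring

lemma norm_M_le {N : ℝ} {φ : E} (hφ : Sec c d N φ) (f : V → ℝ) :
    ‖M c f φ‖ ^ 2 ≤ (∑ k, f k ^ 2) * (N * ‖φ‖ ^ 2) := by
  rw [← h.sec_sum hφ, M_apply]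
  have h1 : ‖∑ k, f k • c k φ‖ ≤ ∑ k, |f k| * ‖c k φ‖ := by
    refine (norm_sum_le _ _).trans (le_of_eq (sum_congr rfl fun k _ => ?_))
    rw [norm_smul, Real.norm_eq_abs]
  calc ‖∑ k, f k • c k φ‖ ^ 2 ≤ (∑ k, |f k| * ‖c k φ‖) ^ 2 := by gcongr
    _ ≤ (∑ k, |f k| ^ 2) * ∑ k, ‖c k φ‖ ^ 2 := sum_mul_sq_le_sq_mul_sq _ _ _
    _ = _ := by simp only [sq_abs]

lemma sec_M {N : ℝ} {φ : E} (hφ : Sec c d N φ) (f : V → ℝ) : Sec c d (N - 1) (M c f φ) := by
  unfold Sec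
  rw [M_apply]
  simp only [map_sum, map_smul]
  rw [sum_comm, smul_sum]
  refine sum_congr rfl fun k _ => ?_
  have e := h.sec_c hφ k
  unfold Sec at e
  rw [← smul_sum, e, smul_comm]

end CCR

lemma Sec.smul {c d : V → E →ₗ[ℝ] E} {N : ℝ} {φ : E} (hφ : Sec c d N φ) (r : ℝ) :
    Sec c d N (r • φ) := by
  unfold Sec at hφ ⊢
  simp only [map_smul]
  rw [← smul_sum, hφ, smul_comm]

lemma Sec.sum {ι : Type*} {c d : V → E →ₗ[ℝ] E} {N : ℝ} {s : Finset ι} {φ : ι → E}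
    (hφ : ∀ i ∈ s, Sec c d N (φ i)) : Sec c d N (∑ i ∈ s, φ i) := by
  unfold Sec at hφ ⊢
  simp only [map_sum]
  rw [sum_comm, smul_sum]
  exact sum_congr rfl fun i hi => hφ i hi

end Run7.h259.LHY
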