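import Mathlib

/-!
# Bosons on a finite set of sites: the model

`V` is a finite set of sites. A configuration is a map `V → ℕ` (the occupation numbers) and an
`N`-particle wave function is a complex function on the configurations; only its values on the
configurations with `N` particles matter.
-/

set_option autoImplicit false

noncomputable section

namespace Run7.h259.LHY

open Finset

variable {V : Type*} [Fintype V] [DecidableEq V]

/-- the configurations of `N` particles -/
def conf (V : Type*) [Fintype V] [DecidableEq V] (N : ℕ) : Finset (V → ℕ) := univ.piAntidiag N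

/-- normalised `N`-particle wave functions -/
def IsState (N : ℕ) (ψ : (V → ℕ) → ℂ) : Prop := ∑ m ∈ conf V N, ‖ψ m‖ ^ 2 = 1

/-- the annihilation operator: `(a_x ψ)(m) = √(m_x + 1) ψ(m + e_x)` -/
def ann (x : V) (ψ : (V → ℕ) → ℂ) (m : V → ℕ) : ℂ :=
  (√((m x : ℝ) + 1) : ℂ) * ψ (m + Pi.single x 1)

/-- the one-particle density matrix `⟨ψ, a_x^* a_y ψ⟩` of an `N`-particle state, `N ≥ 1` -/
def gam (N : ℕ) (ψ : (V → ℕ) → ℂ) (x y : V) : ℂ :=
  ∑ m ∈ conf V (N - 1), (starRingEnd ℂ) (ann x ψ m) * ann y ψ m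

/-- the energy `∑ T_xy ⟨a_x^* a_y⟩ + (U/2) ∑ ⟨n_x (n_x - 1)⟩` -/
def energy (T : V → V → ℝ) (U : ℝ) (N : ℕ) (ψ : (V → ℕ) → ℂ) : ℝ :=
  ∑ x, ∑ y, T x y * (gam N ψ x y).re +
    U / 2 * ∑ m ∈ conf V N, (∑ x, (m x : ℝ) * ((m x : ℝ) - 1)) * ‖ψ m‖ ^ 2

/-- the number of particles in the constant mode `|V|^{-1/2}` -/
def condensate (N : ℕ) (ψ : (V → ℕ) → ℂ) : ℝ :=
  1 / (Fintype.card V : ℝ) * ∑ x, ∑ y, (gam N ψ x y).re

/-- the hopping matrix is real, symmetric, kills the constants and has the gap `g` -/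
structure IsHopping (g : ℝ) (T : V → V → ℝ) : Prop where
  symm : ∀ x y, T x y = T y x
  const : ∀ x, ∑ y, T x y = 0
  gap : ∀ f : V → ℝ, ∑ x, f x = 0 → g * ∑ x, f x ^ 2 ≤ ∑ x, ∑ y, T x y * (f x * f y)

/-- `R` is the Green matrix of `T`: the inverse of `T` on the functions of mean zero -/
structure IsGreen (T R : V → V → ℝ) : Prop where
  inv : ∀ x z, ∑ y, T x y * R y z = (if x = z then 1 else 0) - 1 / (Fintype.card V : ℝ)
  mean : ∀ z, ∑ y, R y z = 0

/-- the mean of the diagonal of the Green matrix -/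
def diagMean (R : V → V → ℝ) : ℝ := 1 / (Fintype.card V : ℝ) * ∑ x, R x x

/-- the variance of the diagonal of the Green matrix (zero if all sites are equivalent) -/
def diagVar (R : V → V → ℝ) : ℝ :=
  1 / (Fintype.card V : ℝ) * ∑ x, (R x x - diagMean R) ^ 2

/-- the effective coupling (scattering length) `U / (1 + U R̄ / 2)` -/
def coupling (U : ℝ) (R : V → V → ℝ) : ℝ := U / (1 + U * diagMean R / 2)

end Run7.h259.LHY
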