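import Pool.Agent.Run7.h259.LHY.Alg

/-!
# The concrete Fock space
-/

set_option autoImplicit false
set_option linter.unusedSectionVars false
set_option linter.unusedVariables false

noncomputable section

namespace Run7.h259.LHY

open Finset

variable {V : Type*} [Fintype V] [DecidableEq V]

/-- real functions of finite support on the configurations -/
def Fk (V : Type*) : Type _ := (V → ℕ) →₀ ℝ

instance : AddCommGroup (Fk V) := inferInstanceAs (AddCommGroup ((V → ℕ) →₀ ℝ))
instance : Module ℝ (Fk V) := inferInstanceAs (Module ℝ ((V → ℕ) →₀ ℝ))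

/-- the value of a function -/
def val (φ : Fk V) (m : V → ℕ) : ℝ := (show (V → ℕ) →₀ ℝ from φ) m

/-- a point mass -/
def pt (m : V → ℕ) (r : ℝ) : Fk V := Finsupp.single m r

lemma val_add (φ χ : Fk V) (m : V → ℕ) : val (φ + χ) m = val φ m + val χ m :=
  Finsupp.add_apply _ _ _

lemma val_smul (r : ℝ) (φ : Fk V) (m : V → ℕ) : val (r • φ) m = r * val φ m :=
  Finsupp.smul_apply _ _ _

lemma val_zero (m : V → ℕ) : val (0 : Fk V) m = 0 := rfl

lemma val_pt (m p : V → ℕ) (r : ℝ) : val (pt p r) m = if p = m then r else 0 :=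
  Finsupp.single_apply

lemma Fk_ext {φ χ : Fk V} (h : ∀ m, val φ m = val χ m) : φ = χ := Finsupp.ext h

lemma Fk_induction {p : Fk V → Prop} (φ : Fk V) (h0 : p 0)
    (ha : ∀ φ χ, p φ → p χ → p (φ + χ)) (hs : ∀ m r, p (pt m r)) : p φ :=
  Finsupp.induction_linear (motive := p) φ h0 ha hs

/-- the inner product -/
def ipF (φ χ : Fk V) : ℝ := Finsupp.sum (show (V → ℕ) →₀ ℝ from φ) fun m r => r * val χ m

lemma ipF_add (φ φ' χ : Fk V) : ipF (φ + φ') χ = ipF φ χ + ipF φ' χ := by
  unfold ipF
  exact Finsupp.sum_add_index' (by simp) (by intros; ring)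

lemma ipF_smul (r : ℝ) (φ χ : Fk V) : ipF (r • φ) χ = r * ipF φ χ := by
  unfold ipF
  rw [Finsupp.sum, Finsupp.sum, mul_sum]
  by_cases hr : r = 0
  · subst hr
    simp only [zero_mul, sum_const_zero]
    refine sum_eq_zero fun m _ => ?_
    have : (0 : ℝ) • φ = 0 := zero_smul _ _
    rw [this]
    exact zero_mul _
  · have h1 : Finsupp.support (show (V → ℕ) →₀ ℝ from r • φ) =
        Finsupp.support (show (V → ℕ) →₀ ℝ from φ) := Finsupp.support_smul_eq hr
    refine sum_congr h1 fun m _ => ?_
    have : (show (V → ℕ) →₀ ℝ from r • φ) m = r * (show (V → ℕ) →₀ ℝ from φ) m :=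
      Finsupp.smul_apply _ _ _
    rw [this, mul_assoc]

lemma ipF_pt (m : V → ℕ) (r : ℝ) (χ : Fk V) : ipF (pt m r) χ = r * val χ m := by
  unfold ipF pt
  exact Finsupp.sum_single_index (by simp)

lemma ipF_zero (χ : Fk V) : ipF 0 χ = 0 := by
  have := ipF_smul 0 (0 : Fk V) χ
  rwa [zero_smul, zero_mul] at this

/-- the inner product as a sum over any set which contains the support -/
lemma ipF_eq (φ χ : Fk V) (s : Finset (V → ℕ)) (h : ∀ m, m ∉ s → val φ m = 0) :
    ipF φ χ = ∑ m ∈ s, val φ m * val χ m := by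
  unfold ipF
  rw [Finsupp.sum]
  refine sum_subset (f := fun m => val φ m * val χ m) ?_ ?_
  · intro m hm
    by_contra h1
    exact (Finsupp.mem_support_iff.1 hm) (h m h1)
  · intro m _ hm
    have : val φ m = 0 := Finsupp.notMem_support_iff.1 hm
    rw [this, zero_mul]

lemma ipF_comm (φ χ : Fk V) : ipF φ χ = ipF χ φ := by
  classical
  have h1 := ipF_eq φ χ (Finsupp.support (show (V → ℕ) →₀ ℝ from φ) ∪
    Finsupp.support (show (V → ℕ) →₀ ℝ from χ)) (fun m hm => by
      rw [mem_union, not_or] at hm; exact Finsupp.notMem_support_iff.1 hm.1)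
  have h2 := ipF_eq χ φ (Finsupp.support (show (V → ℕ) →₀ ℝ from φ) ∪
    Finsupp.support (show (V → ℕ) →₀ ℝ from χ)) (fun m hm => by
      rw [mem_union, not_or] at hm; exact Finsupp.notMem_support_iff.1 hm.2)
  rw [h1, h2]
  exact sum_congr rfl fun m _ => mul_comm _ _

lemma ipF_self (φ : Fk V) : 0 ≤ ipF φ φ := by
  rw [ipF_eq φ φ (Finsupp.support (show (V → ℕ) →₀ ℝ from φ))
    (fun m hm => Finsupp.notMem_support_iff.1 hm)]
  exact sum_nonneg fun _ _ => mul_self_nonneg _

lemma ipF_def (φ : Fk V) (h : ipF φ φ = 0) : φ = 0 := by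
  rw [ipF_eq φ φ (Finsupp.support (show (V → ℕ) →₀ ℝ from φ))
    (fun m hm => Finsupp.notMem_support_iff.1 hm)] at h
  refine Fk_ext fun m => ?_
  by_cases hm : m ∈ Finsupp.support (show (V → ℕ) →₀ ℝ from φ)
  · have := (sum_eq_zero_iff_of_nonneg (fun _ _ => mul_self_nonneg _)).1 h m hm
    exact mul_self_eq_zero.1 this
  · exact Finsupp.notMem_support_iff.1 hm

/-- the inner product space -/
def coreF : InnerProductSpace.Core ℝ (Fk V) where
  inner φ χ := ipF φ χ
  conj_inner_symm φ χ := by simp [ipF_comm]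
  re_inner_nonneg φ := by simpa using ipF_self φ
  add_left φ φ' χ := ipF_add φ φ' χ
  smul_left φ χ r := by simp [ipF_smul]
  definite φ h := ipF_def φ h

instance : NormedAddCommGroup (Fk V) := (coreF (V := V)).toNormedAddCommGroup
instance : InnerProductSpace ℝ (Fk V) := InnerProductSpace.ofCore (coreF (V := V)).toCore

lemma inner_F (φ χ : Fk V) : inner ℝ φ χ = ipF φ χ := rfl

/-- one particle at `x` -/
abbrev ex (x : V) : V → ℕ := Pi.single x 1

lemma ex_le {m : V → ℕ} {x : V} (h : ¬m x = 0) : ex x ≤ m := by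
  intro y
  by_cases hy : y = x
  · subst hy
    have : (ex y) y = 1 := Pi.single_eq_same _ _
    exact this.le.trans (Nat.one_le_iff_ne_zero.2 h)
  · have : (ex x) y = 0 := Pi.single_eq_of_ne hy _
    exact this.le.trans (Nat.zero_le _)

/-- annihilation -/
def aF (x : V) : Fk V →ₗ[ℝ] Fk V :=
  Finsupp.linearCombination ℝ (fun m : V → ℕ => pt (m - ex x) (√(m x)))

/-- creation -/
def dF (x : V) : Fk V →ₗ[ℝ] Fk V :=
  Finsupp.linearCombination ℝ (fun m : V → ℕ => pt (m + ex x) (√((m x : ℝ) + 1)))

lemma smul_pt (m : V → ℕ) (r t : ℝ) : r • pt m t = pt m (r * t) := by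
  refine Fk_ext fun p => ?_
  rw [val_smul, val_pt, val_pt]; split_ifs <;> simp

lemma aF_pt (x : V) (m : V → ℕ) (r : ℝ) : aF x (pt m r) = pt (m - ex x) (r * √(m x)) := by
  unfold aF
  have : Finsupp.linearCombination ℝ (fun m : V → ℕ => pt (m - ex x) (√(m x)))
    (Finsupp.single m r) = r • pt (m - ex x) (√(m x)) := Finsupp.linearCombination_single _ _ _
  rw [← smul_pt]
  exact this

lemma dF_pt (x : V) (m : V → ℕ) (r : ℝ) :
    dF x (pt m r) = pt (m + ex x) (r * √((m x : ℝ) + 1)) := by
  unfold dF
  have : Finsupp.linearCombination ℝ (fun m : V → ℕ => pt (m + ex x) (√((m x : ℝ) + 1)))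
    (Finsupp.single m r) = r • pt (m + ex x) (√((m x : ℝ) + 1)) :=
    Finsupp.linearCombination_single _ _ _
  rw [← smul_pt]
  exact this

/-- the values of `a_x φ` -/
lemma val_aF (x : V) (φ : Fk V) (m : V → ℕ) :
    val (aF x φ) m = √((m x : ℝ) + 1) * val φ (m + ex x) := by
  refine Fk_induction (p := fun φ => val (aF x φ) m = √((m x : ℝ) + 1) * val φ (m + ex x)) φ
    ?_ ?_ ?_
  · rw [map_zero, val_zero, val_zero, mul_zero]
  · intro φ χ h1 h2
    rw [map_add, val_add, val_add, h1, h2]; ring
  · intro p r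
    rw [aF_pt, val_pt, val_pt]
    by_cases hp : p = m + ex x
    · subst hp
      rw [if_pos rfl, if_pos (add_tsub_cancel_right m (ex x))]
      simp only [Pi.add_apply, Pi.single_eq_same, Nat.cast_add, Nat.cast_one]
      ring
    · rw [if_neg hp, mul_zero]
      split_ifs with h
      · by_cases h0 : p x = 0
        · rw [h0]; simp
        · exfalso
          apply hp
          rw [← h]
          exact (tsub_add_cancel_of_le (ex_le h0)).symm
      · rfl

/-- the values of `a_x^* φ` -/
lemma val_dF (x : V) (φ : Fk V) (m : V → ℕ) :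
    val (dF x φ) m = √(m x) * val φ (m - ex x) := by
  refine Fk_induction (p := fun φ => val (dF x φ) m = √(m x) * val φ (m - ex x)) φ
    ?_ ?_ ?_
  · rw [map_zero, val_zero, val_zero, mul_zero]
  · intro φ χ h1 h2
    rw [map_add, val_add, val_add, h1, h2]; ring
  · intro p r
    rw [dF_pt, val_pt, val_pt]
    by_cases hp : p + ex x = m
    · subst hp
      rw [if_pos rfl, if_pos (add_tsub_cancel_right p (ex x)).symm]
      simp only [Pi.add_apply, Pi.single_eq_same, Nat.cast_add, Nat.cast_one]
      ring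
    · rw [if_neg hp]
      split_ifs with h
      · by_cases h0 : m x = 0
        · rw [h0]; simp
        · exfalso
          apply hp
          rw [h]
          exact tsub_add_cancel_of_le (ex_le h0)
      · rw [mul_zero]

theorem ccrF : CCR (aF (V := V)) dF := by
  refine ⟨?_, ?_, ?_⟩
  · intro x φ χ
    rw [inner_F, inner_F]
    refine Fk_induction (p := fun φ => ipF (dF x φ) χ = ipF φ (aF x χ)) φ ?_ ?_ ?_
    · rw [map_zero, ipF_zero, ipF_zero]
    · intro φ φ' h1 h2
      rw [map_add, ipF_add, ipF_add, h1, h2]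
    · intro p r
      rw [dF_pt, ipF_pt, ipF_pt, val_aF]; ring
  · intro x y φ
    refine Fk_ext fun m => ?_
    rw [val_add, val_aF, val_dF, val_dF, val_aF]
    by_cases hxy : x = y
    · subst hxy
      rw [if_pos rfl]
      simp only [Pi.add_apply, Pi.single_eq_same, Nat.cast_add, Nat.cast_one,
        add_tsub_cancel_right, Pi.sub_apply]
      have h1 : √((m x : ℝ) + 1) * √((m x : ℝ) + 1) = m x + 1 :=
        Real.mul_self_sqrt (by positivity)
      by_cases h0 : m x = 0
      · rw [h0]; simp
      · have h2 : m - ex x + ex x = m := tsub_add_cancel_of_le (ex_le h0)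
        rw [h2]
        have h3 : ((m x - 1 : ℕ) : ℝ) + 1 = m x := by
          have : 1 ≤ m x := by omega
          push_cast [this]; ring
        rw [h3]
        have h4 : √(m x : ℝ) * √(m x : ℝ) = m x := Real.mul_self_sqrt (by positivity)
        rw [← mul_assoc, h1, ← mul_assoc, h4]; ring
    · rw [if_neg hxy, val_zero, add_zero]
      have e1 : (m + ex x) y = m y := by
        simp only [Pi.add_apply, ex, Pi.single_eq_of_ne (Ne.symm hxy), add_zero]
      have e2 : (m - ex y) x = m x := by
        simp only [Pi.sub_apply, ex, Pi.single_eq_of_ne hxy, tsub_zero]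
      rw [e1, e2]
      by_cases h0 : m y = 0
      · rw [h0]; simp
      · have e3 : m + ex x - ex y = m - ex y + ex x := by
          funext z
          simp only [Pi.add_apply, Pi.sub_apply]
          by_cases hz : z = y
          · subst hz
            simp only [ex, Pi.single_eq_same, Pi.single_eq_of_ne (Ne.symm hxy)]; omega
          · simp only [ex, Pi.single_eq_of_ne hz]; omega
        rw [e3]; ring
  · intro x y φ
    refine Fk_ext fun m => ?_
    rw [val_aF, val_aF, val_aF, val_aF]
    have e3 : m + ex x + ex y = m + ex y + ex x := by rw [add_right_comm]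
    rw [e3]
    by_cases hxy : x = y
    · rw [hxy]
    · have e1 : (m + ex x) y = m y := by
        simp only [Pi.add_apply, ex, Pi.single_eq_of_ne (Ne.symm hxy), add_zero]
      have e2 : (m + ex y) x = m x := by
        simp only [Pi.add_apply, ex, Pi.single_eq_of_ne hxy, add_zero]
      rw [e1, e2]; ring

/-- the vacuum -/
def vacF : Fk V := pt 0 1

lemma vacF_ne : vacF (V := V) ≠ 0 := by
  intro h
  have := congrArg (fun φ => val φ (0 : V → ℕ)) h
  simp only [vacF, val_pt, if_true, val_zero] at this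
  exact one_ne_zero this

lemma aF_vac (x : V) : aF x vacF = 0 := by
  refine Fk_ext fun m => ?_
  rw [val_aF, vacF, val_pt, if_neg, mul_zero, val_zero]
  intro h
  have := congrFun h x
  simp at this

/-- the occupation numbers -/
lemma val_nF (x : V) (φ : Fk V) (m : V → ℕ) : val (dF x (aF x φ)) m = m x * val φ m := by
  rw [val_dF, val_aF]
  by_cases h0 : m x = 0
  · rw [h0]; simp
  · have h2 : m - ex x + ex x = m := tsub_add_cancel_of_le (ex_le h0)
    rw [h2]
    have h3 : (((m - ex x) x : ℕ) : ℝ) + 1 = m x := by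
      have : 1 ≤ m x := by omega
      simp only [Pi.sub_apply, Pi.single_eq_same]
      push_cast [this]; ring
    rw [h3, ← mul_assoc, Real.mul_self_sqrt (by positivity)]

lemma val_sum {ι : Type*} (s : Finset ι) (φ : ι → Fk V) (m : V → ℕ) :
    val (∑ i ∈ s, φ i) m = ∑ i ∈ s, val (φ i) m :=
  Finsupp.finsetSum_apply _ _ _

/-- the sector in terms of the support -/
lemma sec_iff (N : ℕ) (φ : Fk V) :
    Sec aF dF N φ ↔ ∀ m : V → ℕ, ∑ x, m x ≠ N → val φ m = 0 := by
  unfold Sec
  constructor
  · intro h m hm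
    have e := congrArg (fun χ => val χ m) h
    simp only [val_sum, val_nF, val_smul, ← sum_mul] at e
    have h1 : ((∑ x, (m x : ℝ)) - N) * val φ m = 0 := by linarith
    rcases mul_eq_zero.1 h1 with h2 | h2
    · exfalso
      apply hm
      have : (∑ x, (m x : ℝ)) = N := by linarith
      exact_mod_cast this
    · exact h2
  · intro h
    refine Fk_ext fun m => ?_
    rw [val_sum, val_smul]
    simp only [val_nF, ← sum_mul]
    by_cases hm : ∑ x, m x = N
    · have : (∑ x, (m x : ℝ)) = N := by exact_mod_cast hm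
      rw [this]
    · rw [h m hm, mul_zero, mul_zero]

end Run7.h259.LHY
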