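import Pool.Agent.Run7.h259.LHY.Abs
import Pool.Agent.Run7.h259.LHY.Model
import Pool.Agent.Run7.h259.LHY.Defs
import Pool.Agent.Run7.h259.BEC.Low3

/-!
# From the model to the abstract theorem
-/

set_option autoImplicit false
set_option linter.unusedSectionVars false
set_option linter.unusedVariables false

noncomputable section

namespace Run7.h259.LHY

open Finset

variable {V : Type*} [Fintype V] [DecidableEq V]

/-- a basis of eigenvectors with a constant ground state -/
theorem exists_basis [Nonempty V] {g : ℝ} (hg : 0 < g) {T : V → V → ℝ} (hT : IsHopping g T) :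
    ∃ (o : V) (v : V → V → ℝ) (ε : V → ℝ), Basis o v ∧ ε o = 0 ∧ (∀ k, k ≠ o → g ≤ ε k) ∧
      (∀ j x, ∑ y, T x y * v j y = ε j * v j x) := by
  obtain ⟨v, ε, h1, h2, h3⟩ := Run7.h259.BEC.exists_eigen (Matrix.of T) hT.symm
  simp only [Matrix.of_apply] at h3
  have hz : ∀ j, ε j * ∑ x, v j x = 0 := by
    intro j
    calc ε j * ∑ x, v j x = ∑ x, ∑ y, T x y * v j y := by
          rw [mul_sum]; exact sum_congr rfl fun x _ => (h3 j x).symm
      _ = ∑ y, (∑ x, T y x) * v j y := by
          rw [sum_comm]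
          refine sum_congr rfl fun y _ => ?_
          rw [sum_mul]
          exact sum_congr rfl fun x _ => by rw [hT.symm]
      _ = 0 := by simp [hT.const]
  have ho : ∃ o, ∑ x, v o x ≠ 0 := by
    by_contra hcon
    push Not at hcon
    obtain ⟨x₀⟩ := ‹Nonempty V›
    have e1 : ∀ y, ∑ x, ∑ j, v j x * v j y = 0 := by
      intro y
      rw [sum_comm]
      refine sum_eq_zero fun j _ => ?_
      rw [← sum_mul, hcon, zero_mul]
    have e2 := e1 x₀
    simp only [h2, sum_ite_eq', mem_univ, if_true] at e2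
    exact one_ne_zero e2
  obtain ⟨o, ho⟩ := ho
  have hε0 : ε o = 0 := (mul_eq_zero.1 (hz o)).resolve_right ho
  have hn0 : (0 : ℝ) < Fintype.card V := by exact_mod_cast Fintype.card_pos
  -- the ground state is constant
  set a := 1 / (Fintype.card V : ℝ) * ∑ x, v o x with ha
  have hc : ∀ x, v o x = a := by
    have e1 : ∑ x, (v o x - a) = 0 := by
      rw [sum_sub_distrib, sum_const, card_univ, nsmul_eq_mul, ha]
      field_simp
      ring
    have e2 := hT.gap (fun x => v o x - a) e1
    have e3 : ∑ x, ∑ y, T x y * ((v o x - a) * (v o y - a)) = 0 := by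
      refine sum_eq_zero fun x _ => ?_
      calc ∑ y, T x y * ((v o x - a) * (v o y - a)) =
          (v o x - a) * (∑ y, T x y * v o y - a * ∑ y, T x y) := by
            rw [mul_sub, mul_sum, mul_sum, mul_sum, ← sum_sub_distrib]
            exact sum_congr rfl fun y _ => by ring
        _ = 0 := by rw [h3, hε0, hT.const]; ring
    rw [e3] at e2
    have e4 : ∑ x, (v o x - a) ^ 2 ≤ 0 := by
      by_contra hcon
      push Not at hcon
      nlinarith [mul_pos hg hcon]
    intro x
    have e5 := (sum_eq_zero_iff_of_nonneg (s := univ) (f := fun x => (v o x - a) ^ 2)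
      (fun _ _ => by positivity)).1 (le_antisymm e4 (sum_nonneg fun _ _ => by positivity)) x
      (mem_univ x)
    have := pow_eq_zero_iff (two_ne_zero) |>.1 e5
    linarith
  have hb : Basis o v := ⟨h1, h2, fun x y => by rw [hc x, hc y]⟩
  refine ⟨o, v, ε, hb, hε0, ?_, h3⟩
  intro k hk
  have e1 : ∑ x, v k x = 0 := by
    have := h1 k o
    rw [if_neg hk] at this
    have e2 : ∀ x, v k x * v o x = a * v k x := fun x => by rw [hc x]; ring
    simp only [e2, ← mul_sum] at this
    rcases mul_eq_zero.1 this with h4 | h4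
    · exfalso
      apply ho
      have : ∀ x, v o x = 0 := fun x => by rw [hc x, h4]
      simp [this]
    · exact h4
  have e2 := hT.gap (v k) e1
  have e3 : ∑ x, v k x ^ 2 = 1 := by
    have := h1 k k
    rw [if_pos rfl] at this
    rw [← this]; exact sum_congr rfl fun x _ => sq _
  have e4 : ∑ x, ∑ y, T x y * (v k x * v k y) = ε k := by
    calc ∑ x, ∑ y, T x y * (v k x * v k y) = ∑ x, v k x * ∑ y, T x y * v k y := by
          refine sum_congr rfl fun x _ => ?_
          rw [mul_sum]; exact sum_congr rfl fun y _ => by ring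
      _ = ε k * ∑ x, v k x ^ 2 := by
          rw [mul_sum]
          exact sum_congr rfl fun x _ => by rw [h3]; ring
      _ = ε k := by rw [e3, mul_one]
  rw [e3, e4, mul_one] at e2
  exact e2

section green

variable {o : V} {v : V → V → ℝ} {ε : V → ℝ} {g : ℝ} {T R : V → V → ℝ}

lemma green_coef (hg : 0 < g) (hT : IsHopping g T) (hR : IsGreen T R) (b : Basis o v)
    (hε0 : ε o = 0) (hε : ∀ k, k ≠ o → g ≤ ε k) (h3 : ∀ j x, ∑ y, T x y * v j y = ε j * v j x)
    (k z : V) : ∑ x, v k x * R x z = if k = o then 0 else v k z / ε k := by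
  have hn0 : (0 : ℝ) < Fintype.card V := by exact_mod_cast Fintype.card_pos_iff.2 ⟨o⟩
  by_cases hk : k = o
  · subst hk
    rw [if_pos rfl]
    have : ∀ x, v k x * R x z = v k k * R x z := fun x => by rw [b.const x k]
    simp only [this, ← mul_sum, hR.mean, mul_zero]
  · rw [if_neg hk]
    have hεk : 0 < ε k := lt_of_lt_of_le hg (hε k hk)
    have e1 : ε k * ∑ x, v k x * R x z = v k z := by
      calc ε k * ∑ x, v k x * R x z = ∑ x, (∑ y, T x y * v k y) * R x z := by
            rw [mul_sum]; exact sum_congr rfl fun x _ => by rw [h3]; ring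
        _ = ∑ y, v k y * ∑ x, T y x * R x z := by
            simp_rw [sum_mul]
            rw [sum_comm]
            refine sum_congr rfl fun y _ => ?_
            rw [mul_sum]
            exact sum_congr rfl fun x _ => by rw [hT.symm x y]; ring
        _ = ∑ y, v k y * ((if y = z then 1 else 0) - 1 / (Fintype.card V : ℝ)) := by
            simp_rw [hR.inv]
        _ = v k z - (∑ y, v k y) * (1 / (Fintype.card V : ℝ)) := by
            simp_rw [mul_sub]
            rw [sum_sub_distrib, ← sum_mul]
            simp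
        _ = v k z := by
            have e2 : ∑ y, v k y = 0 := by
              have := fx_sum b k
              simpa only [fx, if_neg hk] using this
            rw [e2, zero_mul, sub_zero]
    field_simp
    linarith

lemma green_entry (hg : 0 < g) (hT : IsHopping g T) (hR : IsGreen T R) (b : Basis o v)
    (hε0 : ε o = 0) (hε : ∀ k, k ≠ o → g ≤ ε k) (h3 : ∀ j x, ∑ y, T x y * v j y = ε j * v j x)
    (x : V) : R x x = ∑ k ∈ univ.erase o, v k x ^ 2 / ε k := by
  calc R x x = ∑ y, (if x = y then 1 else 0) * R y x := by simp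
    _ = ∑ y, (∑ k, v k x * v k y) * R y x := by simp_rw [b.compl]
    _ = ∑ k, v k x * ∑ y, v k y * R y x := by
        simp_rw [sum_mul]
        rw [sum_comm]
        refine sum_congr rfl fun k _ => ?_
        rw [mul_sum]
        exact sum_congr rfl fun y _ => by ring
    _ = ∑ k, v k x * (if k = o then 0 else v k x / ε k) := by
        simp_rw [green_coef hg hT hR b hε0 hε h3]
    _ = _ := by
        rw [← add_sum_erase univ _ (mem_univ o), if_pos rfl, mul_zero, zero_add]
        refine sum_congr rfl fun k hk => ?_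
        rw [if_neg (ne_of_mem_erase hk)]
        ring

lemma green_sq (hg : 0 < g) (hT : IsHopping g T) (hR : IsGreen T R) (b : Basis o v)
    (hε0 : ε o = 0) (hε : ∀ k, k ≠ o → g ≤ ε k) (h3 : ∀ j x, ∑ y, T x y * v j y = ε j * v j x) :
    ∑ x, ∑ y, R x y ^ 2 = S2 o ε := by
  rw [sum_comm]
  have e1 : ∀ y, ∑ x, R x y ^ 2 = ∑ k ∈ univ.erase o, v k y ^ 2 / ε k ^ 2 := by
    intro y
    rw [← Run7.h259.BEC.pars v b.compl (fun x => R x y)]
    simp_rw [green_coef hg hT hR b hε0 hε h3]
    rw [← add_sum_erase univ _ (mem_univ o), if_pos rfl, zero_pow two_ne_zero, zero_add]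
    refine sum_congr rfl fun k hk => ?_
    rw [if_neg (ne_of_mem_erase hk), div_pow]
  simp_rw [e1]
  rw [sum_comm]
  unfold S2
  refine sum_congr rfl fun k _ => ?_
  rw [← sum_div]
  congr 1
  have := b.orth k k
  rw [if_pos rfl] at this
  rw [← this]
  exact sum_congr rfl fun x _ => sq _

lemma green_trace (hg : 0 < g) (hT : IsHopping g T) (hR : IsGreen T R) (b : Basis o v)
    (hε0 : ε o = 0) (hε : ∀ k, k ≠ o → g ≤ ε k) (h3 : ∀ j x, ∑ y, T x y * v j y = ε j * v j x) :
    diagMean R = 1 / (Fintype.card V : ℝ) * ∑ k ∈ univ.erase o, 1 / ε k := by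
  unfold diagMean
  congr 1
  simp_rw [green_entry hg hT hR b hε0 hε h3]
  rw [sum_comm]
  refine sum_congr rfl fun k _ => ?_
  rw [← sum_div]
  congr 1
  have := b.orth k k
  rw [if_pos rfl] at this
  rw [← this]
  exact sum_congr rfl fun x _ => sq _

end green

section modes

variable {E : Type*} [NormedAddCommGroup E] [InnerProductSpace ℝ E]
variable {a d : V → E →ₗ[ℝ] E} {o : V} {v : V → V → ℝ}

/-- the modes -/
lemma ccr_modes (h : CCR a d) (b : Basis o v) :
    CCR (fun k => M a (v k)) (fun k => M d (v k)) := by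
  refine ⟨fun x φ χ => h.M_adj _ _ _, ?_, fun x y φ => h.M_MM _ _ _⟩
  intro x y φ
  rw [h.M_comm, b.orth]
  congr 1
  split_ifs <;> simp

lemma A_modes (b : Basis o v) (x : V) (φ : E) : A (fun k => M a (v k)) v x φ = a x φ := by
  unfold A
  rw [M_apply]
  simp only [M_apply, smul_sum, smul_smul]
  rw [sum_comm]
  simp_rw [← sum_smul, b.compl]
  simp [ite_smul]

lemma sec_modes (b : Basis o v) (φ : E) :
    ∑ k, M d (v k) (M a (v k) φ) = ∑ x, d x (a x φ) := by
  simp only [M_apply, map_sum, map_smul, smul_sum, smul_smul]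
  calc ∑ k, ∑ x, ∑ y, (v k x * v k y) • d y (a x φ)
      = ∑ x, ∑ y, (∑ k, v k x * v k y) • d y (a x φ) := by
        rw [sum_comm]
        refine sum_congr rfl fun x _ => ?_
        rw [sum_comm]
        exact sum_congr rfl fun y _ => by rw [sum_smul]
    _ = ∑ x, d x (a x φ) := by
        simp_rw [b.compl]
        simp [ite_smul]

lemma kin_modes {T : V → V → ℝ} {ε : V → ℝ} (b : Basis o v)
    (h3 : ∀ j x, ∑ y, T x y * v j y = ε j * v j x) (φ : E) :
    ∑ k, ε k * ‖M a (v k) φ‖ ^ 2 = ∑ x, ∑ y, T x y * inner ℝ (a x φ) (a y φ) := by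
  have e1 : ∀ k, ‖M a (v k) φ‖ ^ 2 = ∑ x, ∑ y, v k x * v k y * inner ℝ (a x φ) (a y φ) := by
    intro k
    rw [← real_inner_self_eq_norm_sq, M_apply, sum_inner]
    refine sum_congr rfl fun x _ => ?_
    rw [inner_sum]
    refine sum_congr rfl fun y _ => ?_
    rw [inner_smul_left, inner_smul_right]
    simp only [conj_trivial]; ring
  have e2 := fun x y => Run7.h259.BEC.entries_eq v b.compl (Matrix.of T) ε (fun j x => h3 j x) x y
  simp only [Matrix.of_apply] at e2
  simp_rw [e1, mul_sum]
  rw [sum_comm]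
  refine sum_congr rfl fun x _ => ?_
  rw [sum_comm]
  refine sum_congr rfl fun y _ => ?_
  rw [e2, sum_mul]
  exact sum_congr rfl fun k _ => by ring

lemma cond_modes (b : Basis o v) (φ : E) :
    ‖M a (v o) φ‖ ^ 2 = 1 / (Fintype.card V : ℝ) * ∑ x, ∑ y, inner ℝ (a x φ) (a y φ) := by
  rw [← real_inner_self_eq_norm_sq, M_apply, sum_inner, mul_sum]
  refine sum_congr rfl fun x _ => ?_
  rw [inner_sum, mul_sum]
  refine sum_congr rfl fun y _ => ?_
  rw [inner_smul_left, inner_smul_right]
  simp only [conj_trivial]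
  rw [← mul_assoc, b.const y x, ← sq, b.sq]

end modes

end Run7.h259.LHY
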