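import Pool.Agent.Run7.h259.LHY.Conv

/-!
# The depletion formula for wave functions
-/

set_option autoImplicit false
set_option linter.unusedSectionVars false
set_option linter.unusedVariables false

noncomputable section

namespace Run7.h259.LHY

open Finset

variable {V : Type*} [Fintype V] [DecidableEq V]

lemma mem_conf {N : ℕ} {m : V → ℕ} : m ∈ conf V N ↔ ∑ x, m x = N := by
  unfold conf
  rw [mem_piAntidiag]
  constructor
  · exact fun h => h.1
  · exact fun h => ⟨h, fun _ _ => mem_univ _⟩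

lemma mem_conf_ex {N : ℕ} (hN : 1 ≤ N) {m : V → ℕ} (x : V) :
    m + ex x ∈ conf V N ↔ m ∈ conf V (N - 1) := by
  rw [mem_conf, mem_conf]
  have : ∑ y, (m + ex x) y = ∑ y, m y + 1 := by
    simp only [Pi.add_apply, sum_add_distrib]
    congr 1
    simp [ex]
  rw [this]
  omega

/-- a real function of the wave function -/
def toF (N : ℕ) (f : (V → ℕ) → ℝ) : Fk V := ∑ m ∈ conf V N, pt m (f m)

lemma val_toF (N : ℕ) (f : (V → ℕ) → ℝ) (m : V → ℕ) :
    val (toF N f) m = if m ∈ conf V N then f m else 0 := by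
  unfold toF
  rw [val_sum]
  simp only [val_pt]
  rw [sum_ite_eq']

lemma sec_toF (N : ℕ) (f : (V → ℕ) → ℝ) : Sec aF dF N (toF N f) := by
  rw [sec_iff]
  intro m hm
  rw [val_toF, if_neg]
  rw [mem_conf]; exact hm

lemma norm_toF (N : ℕ) (f : (V → ℕ) → ℝ) : ‖toF N f‖ ^ 2 = ∑ m ∈ conf V N, f m ^ 2 := by
  rw [← real_inner_self_eq_norm_sq, inner_F, ipF_eq _ _ (conf V N)
    (fun m hm => by rw [val_toF, if_neg hm])]
  refine sum_congr rfl fun m hm => ?_
  rw [val_toF, if_pos hm]; ring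

lemma inner_toF {N : ℕ} (hN : 1 ≤ N) (f : (V → ℕ) → ℝ) (x y : V) :
    inner ℝ (aF x (toF N f)) (aF y (toF N f)) = ∑ m ∈ conf V (N - 1),
      (√((m x : ℝ) + 1) * f (m + ex x)) * (√((m y : ℝ) + 1) * f (m + ex y)) := by
  rw [inner_F, ipF_eq _ _ (conf V (N - 1))
    (fun m hm => by
      rw [val_aF, val_toF, if_neg, mul_zero]
      rwa [mem_conf_ex hN])]
  refine sum_congr rfl fun m hm => ?_
  rw [val_aF, val_aF, val_toF, val_toF, if_pos ((mem_conf_ex hN x).2 hm),
    if_pos ((mem_conf_ex hN y).2 hm)]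

lemma aa_toF (φ : Fk V) (x : V) (N : ℕ) (hφ : Sec aF dF N φ) :
    ‖aF x (aF x φ)‖ ^ 2 = ∑ m ∈ conf V N, (m x : ℝ) * ((m x : ℝ) - 1) * val φ m ^ 2 := by
  have e1 : aF x (dF x (aF x φ)) = dF x (aF x (aF x φ)) + aF x φ := ccrF.comm_self x _
  have e2 : dF x (aF x (aF x φ)) = aF x (dF x (aF x φ)) - aF x φ := by
    rw [e1, add_sub_cancel_right]
  rw [← real_inner_self_eq_norm_sq, ccrF.adj', ccrF.adj', e2, map_sub, inner_F,
    ipF_eq _ _ (conf V N) (fun m hm => (sec_iff N φ).1 hφ m (by rwa [mem_conf] at hm))]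
  refine sum_congr rfl fun m _ => ?_
  have e3 : ∀ χ χ' : Fk V, val (χ - χ') m = val χ m - val χ' m := by
    intro χ χ'
    rw [sub_eq_add_neg, val_add, ← neg_one_smul ℝ, val_smul]; ring
  rw [e3, val_nF, val_nF]
  ring

lemma ann_re (x : V) (ψ : (V → ℕ) → ℂ) (m : V → ℕ) :
    (ann x ψ m).re = √((m x : ℝ) + 1) * (ψ (m + ex x)).re := by
  unfold ann; rw [Complex.re_ofReal_mul]

lemma ann_im (x : V) (ψ : (V → ℕ) → ℂ) (m : V → ℕ) :
    (ann x ψ m).im = √((m x : ℝ) + 1) * (ψ (m + ex x)).im := by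
  unfold ann; rw [Complex.im_ofReal_mul]

lemma gam_re {N : ℕ} (hN : 1 ≤ N) (ψ : (V → ℕ) → ℂ) (x y : V) :
    (gam N ψ x y).re = inner ℝ (aF x (toF N fun m => (ψ m).re)) (aF y (toF N fun m => (ψ m).re)) +
      inner ℝ (aF x (toF N fun m => (ψ m).im)) (aF y (toF N fun m => (ψ m).im)) := by
  rw [inner_toF hN, inner_toF hN, ← sum_add_distrib, gam, Complex.re_sum]
  refine sum_congr rfl fun m _ => ?_
  rw [Complex.mul_re, Complex.conj_re, Complex.conj_im, ann_re, ann_re, ann_im, ann_im]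
  ring

lemma isState_iff (N : ℕ) (ψ : (V → ℕ) → ℂ) :
    IsState N ψ ↔ ‖toF N fun m => (ψ m).re‖ ^ 2 + ‖toF N fun m => (ψ m).im‖ ^ 2 = 1 := by
  unfold IsState
  rw [norm_toF, norm_toF, ← sum_add_distrib]
  have : ∀ m, ‖ψ m‖ ^ 2 = (ψ m).re ^ 2 + (ψ m).im ^ 2 := by
    intro m
    rw [← Complex.normSq_eq_norm_sq, Complex.normSq_apply]; ring
  simp_rw [this]

section

variable {o : V} {v : V → V → ℝ} {ε : V → ℝ} {T : V → V → ℝ} (b : Basis o v)
  (h3 : ∀ j x, ∑ y, T x y * v j y = ε j * v j x)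

include b h3

/-- the abstract energy of a real vector -/
lemma En_eq (U : ℝ) {N : ℕ} (φ : Fk V) (hφ : Sec aF dF N φ) :
    En (fun k => M aF (v k)) v ε U φ = ∑ x, ∑ y, T x y * inner ℝ (aF x φ) (aF y φ) +
      U / 2 * ∑ m ∈ conf V N, (∑ x, (m x : ℝ) * ((m x : ℝ) - 1)) * val φ m ^ 2 := by
  unfold En
  rw [kin_modes b h3]
  congr 2
  simp_rw [A_modes b, aa_toF φ _ N hφ]
  rw [sum_comm]
  exact sum_congr rfl fun m _ => by rw [sum_mul]

lemma energy_eq (U : ℝ) {N : ℕ} (hN : 1 ≤ N) (ψ : (V → ℕ) → ℂ) :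
    energy T U N ψ = En (fun k => M aF (v k)) v ε U (toF N fun m => (ψ m).re) +
      En (fun k => M aF (v k)) v ε U (toF N fun m => (ψ m).im) := by
  rw [En_eq b h3 U _ (sec_toF N _), En_eq b h3 U _ (sec_toF N _)]
  unfold energy
  simp_rw [gam_re hN, mul_add, sum_add_distrib]
  have : ∀ m ∈ conf V N, (∑ x, (m x : ℝ) * ((m x : ℝ) - 1)) * ‖ψ m‖ ^ 2 =
      (∑ x, (m x : ℝ) * ((m x : ℝ) - 1)) * val (toF N fun m => (ψ m).re) m ^ 2 +
      (∑ x, (m x : ℝ) * ((m x : ℝ) - 1)) * val (toF N fun m => (ψ m).im) m ^ 2 := by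
    intro m hm
    rw [val_toF, val_toF, if_pos hm, if_pos hm, ← Complex.normSq_eq_norm_sq, Complex.normSq_apply]
    ring
  rw [sum_congr rfl this, sum_add_distrib]
  ring

end

/-- the number of excited particles -/
lemma Np_eq {o : V} {v : V → V → ℝ} (b : Basis o v) {N : ℕ} (hN : 1 ≤ N) (ψ : (V → ℕ) → ℂ)
    (hψ : IsState N ψ) :
    Np (fun k => M aF (v k)) o (toF N fun m => (ψ m).re) +
      Np (fun k => M aF (v k)) o (toF N fun m => (ψ m).im) = N - condensate N ψ := by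
  have h := ccr_modes (ccrF (V := V)) b
  have e1 : ∀ f : (V → ℕ) → ℝ, Np (fun k => M aF (v k)) o (toF N f) =
      N * ‖toF N f‖ ^ 2 - 1 / (Fintype.card V : ℝ) *
        ∑ x, ∑ y, inner ℝ (aF x (toF N f)) (aF y (toF N f)) := by
    intro f
    have hs : Sec (fun k => M aF (v k)) (fun k => M dF (v k)) N (toF N f) := by
      unfold Sec
      rw [sec_modes b]
      exact sec_toF N f
    have e2 := h.sec_sum hs
    rw [← add_sum_erase univ _ (mem_univ o), cond_modes b] at e2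
    unfold Np
    linarith
  rw [e1, e1]
  have e3 := (isState_iff N ψ).1 hψ
  unfold condensate
  simp_rw [gam_re hN, sum_add_distrib]
  have e4 : ‖toF N fun m => (ψ m).re‖ ^ 2 = 1 - ‖toF N fun m => (ψ m).im‖ ^ 2 := by linarith
  rw [e4]; ring

/-- **the depletion formula** -/
theorem depletion (g : ℝ) (hg : 0 < g) : ∃ C s₀ : ℝ, 0 < C ∧ 0 < s₀ ∧
    ∀ (V : Type) [Fintype V] [DecidableEq V] [Nonempty V] (T R : V → V → ℝ),
    IsHopping g T → IsGreen T R →
    ∀ (U s δ : ℝ) (N : ℕ), 0 < U → 0 < s → s ≤ s₀ → 0 ≤ δ → 1 ≤ N →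
    U * ((N : ℝ) / (Fintype.card V : ℝ) + diagVar R +
      (coupling U R * N / (Fintype.card V : ℝ)) ^ 2) ≤ s ^ 2 →
    ∀ ψ : (V → ℕ) → ℂ, IsState N ψ →
    (∀ χ : (V → ℕ) → ℂ, IsState N χ →
      energy T U N ψ ≤ energy T U N χ + δ * (Fintype.card V : ℝ)) →
    |((N : ℝ) - condensate N ψ) - coupling U R ^ 2 * (N * (N - 1)) /
        (4 * (Fintype.card V : ℝ) ^ 2) * ∑ x, ∑ y, R x y ^ 2| ≤
      C * ((coupling U R * N / (Fintype.card V : ℝ)) ^ 2 * s + δ / s) * (Fintype.card V : ℝ) ∧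
    |energy T U N ψ - coupling U R / (2 * (Fintype.card V : ℝ)) * (N * (N - 1))| ≤
      C * ((coupling U R * N / (Fintype.card V : ℝ)) ^ 2 * s ^ 2 + δ) *
        (Fintype.card V : ℝ) := by
  refine ⟨C3 g, min (1 / 4) (g / 2), ?_, by positivity, ?_⟩
  · unfold C3 C1; positivity
  intro V _ _ _ T R hT hR U s δ N hU hs hs0 hδ hN hsm ψ hψ hmin
  obtain ⟨o, v, ε, b, hε0, hε, h3⟩ := exists_basis hg hT
  have hsec : ∀ φ : Fk V, Sec (fun k => M aF (v k)) (fun k => M dF (v k)) N φ ↔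
      Sec aF dF N φ := by
    intro φ
    unfold Sec
    rw [sec_modes b]
  have hω : ∀ x, M aF (v x) (vacF (V := V)) = 0 := by
    intro x; rw [M_apply]; simp [aF_vac]
  have key := main (ccr_modes (ccrF (V := V)) b) b vacF_ne hω ε g U (diagMean R) (coupling U R) s δ
    (fun x => R x x) hg hε0 hε hU (fun x => green_entry hg hT hR b hε0 hε h3 x)
    (green_trace hg hT hR b hε0 hε h3) rfl N hN hs (hs0.trans (min_le_left _ _))
    (hs0.trans (min_le_right _ _)) hsm hδ (toF N fun m => (ψ m).re) (toF N fun m => (ψ m).im)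
    ((hsec _).2 (sec_toF N _)) ((hsec _).2 (sec_toF N _)) ((isState_iff N ψ).1 hψ) (by
      intro Ψ hΨ1 hΨ2
      rw [hsec] at hΨ2
      set χ : (V → ℕ) → ℂ := fun m => (val Ψ m : ℂ) with hχ
      have e1 : (toF N fun m => (χ m).re) = Ψ := by
        refine Fk_ext fun m => ?_
        rw [val_toF]
        split_ifs with hm
        · simp [hχ]
        · exact ((sec_iff N Ψ).1 hΨ2 m (by rwa [mem_conf] at hm)).symm
      have e2 : (toF N fun m => (χ m).im) = (0 : Fk V) := by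
        refine Fk_ext fun m => ?_
        rw [val_toF]
        split_ifs with hm
        · simp [hχ, val_zero]
        · simp [val_zero]
      have e3 : IsState N χ := by
        rw [isState_iff, e1, e2, hΨ1, norm_zero]; norm_num
      have e4 := hmin χ e3
      rw [energy_eq b h3 U hN, energy_eq b h3 U hN, e1, e2] at e4
      have e5 : En (fun k => M aF (v k)) v ε U (0 : Fk V) = 0 := by
        have := En_smul (c := fun k => M aF (v k)) v ε U 0 (0 : Fk V)
        rw [zero_smul] at this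
        rw [this]; ring
      rw [e5, add_zero] at e4
      exact e4)
  rw [← energy_eq b h3 U hN, Np_eq b hN ψ hψ, ← green_sq hg hT hR b hε0 hε h3] at key
  exact key

end Run7.h259.LHY
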