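import Pool.Agent.Run7.h259.LHY.Abs2
import Pool.Agent.Run7.h259.LHY.Final

/-!
# The depletion formula for wave functions, sharp form
-/

set_option autoImplicit false
set_option linter.unusedSectionVars false
set_option linter.unusedVariables false

noncomputable section

namespace Run7.h259.LHY

open Finset

variable {V : Type*} [Fintype V] [DecidableEq V]

/-- the predicted number of excited particles `u² N (N - 1) / (4 n²) ∑ R(x, y)²` -/
def predicted (U : ℝ) (R : V → V → ℝ) (N : ℕ) : ℝ :=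
  coupling U R ^ 2 * ((N : ℝ) * (N - 1)) / (4 * (Fintype.card V : ℝ) ^ 2) *
    ∑ x, ∑ y, R x y ^ 2

lemma green_col {o : V} {v : V → V → ℝ} {ε : V → ℝ} {g : ℝ} {T R : V → V → ℝ}
    (hg : 0 < g) (hT : IsHopping g T) (hR : IsGreen T R) (b : Basis o v)
    (hε0 : ε o = 0) (hε : ∀ k, k ≠ o → g ≤ ε k) (h3 : ∀ j x, ∑ y, T x y * v j y = ε j * v j x)
    (y : V) : ∑ x, R x y ^ 2 = ∑ k ∈ univ.erase o, v k y ^ 2 / ε k ^ 2 := by
  rw [← Run7.h259.BEC.pars v b.compl (fun x => R x y)]
  simp_rw [green_coef hg hT hR b hε0 hε h3]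
  rw [← add_sum_erase univ _ (mem_univ o), if_pos rfl, zero_pow two_ne_zero, zero_add]
  refine sum_congr rfl fun k hk => ?_
  rw [if_neg (ne_of_mem_erase hk), div_pow]

/-- **the depletion formula** -/
theorem depletion2 [Nonempty V] (g : ℝ) (hg : 0 < g) (T R : V → V → ℝ)
    (hT : IsHopping g T) (hR : IsGreen T R) (U η δ p w : ℝ) (N : ℕ) (hU : 0 < U) (hN : 1 ≤ N)
    (hη : 0 < η) (hη8 : η ≤ 1 / 8) (hδ : 0 ≤ δ) (hw : 0 ≤ w)
    (hp : ∀ x, (coupling U R * N / (Fintype.card V : ℝ)) ^ 2 / 4 * ∑ y, R y x ^ 2 ≤ p)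
    (hvar : ∑ x, (R x x - diagMean R) ^ 2 ≤ w * ∑ x, ∑ y, R x y ^ 2)
    (hsmall : U * ((N : ℝ) / (Fintype.card V : ℝ) + p + w) ≤ η ^ 2 * g)
    (ψ : (V → ℕ) → ℂ) (hψ : IsState N ψ)
    (hmin : ∀ χ : (V → ℕ) → ℂ, IsState N χ →
      energy T U N ψ ≤ energy T U N χ + δ * (Fintype.card V : ℝ)) :
    |((N : ℝ) - condensate N ψ) - predicted U R N| ≤
      25 * η * predicted U R N + 2 * δ / (η * g) * (Fintype.card V : ℝ) ∧
    |energy T U N ψ - coupling U R / (2 * (Fintype.card V : ℝ)) * (N * (N - 1))| ≤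
      12 * η ^ 2 * g * predicted U R N + δ * (Fintype.card V : ℝ) := by
  obtain ⟨o, v, ε, b, hε0, hε, h3⟩ := exists_basis hg hT
  have hsec : ∀ φ : Fk V, Sec (fun k => M aF (v k)) (fun k => M dF (v k)) N φ ↔
      Sec aF dF N φ := by
    intro φ
    unfold Sec
    rw [sec_modes b]
  have hω : ∀ x, M aF (v x) (vacF (V := V)) = 0 := by
    intro x; rw [M_apply]; simp [aF_vac]
  have hp0 : 0 ≤ p := by
    obtain ⟨x₀⟩ := ‹Nonempty V›
    refine le_trans ?_ (hp x₀)
    positivity
  have hp' : ∀ x, (coupling U R * N / (Fintype.card V : ℝ)) ^ 2 / 4 *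
      ∑ k ∈ univ.erase o, v k x ^ 2 / ε k ^ 2 ≤ p := by
    intro x
    rw [← green_col hg hT hR b hε0 hε h3 x]
    exact hp x
  have hvar' : ∑ x, (R x x - diagMean R) ^ 2 ≤ w * S2 o ε := by
    rw [← green_sq hg hT hR b hε0 hε h3]
    exact hvar
  have hm : predicted U R N = coupling U R ^ 2 * (N * (N - 1)) / (4 * (Fintype.card V : ℝ) ^ 2) *
      S2 o ε := by
    rw [← green_sq hg hT hR b hε0 hε h3]; rfl
  have key := main2 (ccr_modes (ccrF (V := V)) b) b vacF_ne hω ε g U (diagMean R) (coupling U R) η δ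
    p w (predicted U R N) (fun x => R x x) hg hε0 hε hU hw hp0
    (fun x => green_entry hg hT hR b hε0 hε h3 x) (green_trace hg hT hR b hε0 hε h3) rfl N hN
    hp' hvar' hm hη hη8 hsmall hδ (toF N fun m => (ψ m).re) (toF N fun m => (ψ m).im)
    ((hsec _).2 (sec_toF N _)) ((hsec _).2 (sec_toF N _)) ((isState_iff N ψ).1 hψ) (by
      intro Ψ hΨ1 hΨ2
      rw [hsec] at hΨ2
      set χ : (V → ℕ) → ℂ := fun m => (val Ψ m : ℂ) with hχ
      have e1 : (toF N fun m => (χ m).re) = Ψ := by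
        refine Fk_ext fun m => ?_
        rw [val_toF]
        split_ifs with hm
        · simp [hχ]
        · exact ((sec_iff N Ψ).1 hΨ2 m (by rwa [mem_conf] at hm)).symm
      have e2 : (toF N fun m => (χ m).im) = (0 : Fk V) := by
        refine Fk_ext fun m => ?_
        rw [val_toF]
        split_ifs with hm
        · simp [hχ, val_zero]
        · simp [val_zero]
      have e3 : IsState N χ := by
        rw [isState_iff, e1, e2, hΨ1, norm_zero]; norm_num
      have e4 := hmin χ e3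
      rw [energy_eq b h3 U hN, energy_eq b h3 U hN, e1, e2] at e4
      have e5 : En (fun k => M aF (v k)) v ε U (0 : Fk V) = 0 := by
        have := En_smul (c := fun k => M aF (v k)) v ε U 0 (0 : Fk V)
        rw [zero_smul] at this
        rw [this]; ring
      rw [e5, add_zero] at e4
      exact e4)
  rw [← energy_eq b h3 U hN, Np_eq b hN ψ hψ] at key
  exact key

end Run7.h259.LHY
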