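import Pool.Agent.Run7.h259.LHY.Alg

/-!
# Hard-core operators and the pair state
-/

set_option autoImplicit false
set_option linter.unusedSectionVars false
set_option linter.unusedVariables false

noncomputable section

namespace Run7.h259.LHY

open Finset

variable {V : Type*} [Fintype V] [DecidableEq V]
variable {E : Type*} [NormedAddCommGroup E] [InnerProductSpace ℝ E]

/-- the hard-core relations -/
structure HCA (q p : V → E →ₗ[ℝ] E) : Prop where
  adj : ∀ x φ χ, inner ℝ (p x φ) χ = inner ℝ φ (q x χ)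
  ne : ∀ x y φ, x ≠ y → q x (p y φ) = p y (q x φ)
  anti : ∀ x φ, q x (p x φ) = φ - p x (q x φ)
  pp : ∀ x y φ, p x (p y φ) = p y (p x φ)
  p0 : ∀ x φ, p x (p x φ) = 0

namespace HCA

variable {q p : V → E →ₗ[ℝ] E} (h : HCA q p)

include h

lemma adj' (x : V) (φ χ : E) : inner ℝ (q x φ) χ = inner ℝ φ (p x χ) := by
  rw [real_inner_comm, ← h.adj, real_inner_comm]

lemma norm_p (x : V) (φ : E) : ‖p x φ‖ ^ 2 = ‖φ‖ ^ 2 - ‖q x φ‖ ^ 2 := by
  rw [← real_inner_self_eq_norm_sq, h.adj, h.anti, inner_sub_right, real_inner_self_eq_norm_sq,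
    ← h.adj', real_inner_self_eq_norm_sq]

lemma norm_p_le (x : V) (φ : E) : ‖p x φ‖ ≤ ‖φ‖ := by
  have h1 := h.norm_p x φ
  have h2 : 0 ≤ ‖q x φ‖ ^ 2 := by positivity
  exact abs_le_of_sq_le_sq' (by linarith) (norm_nonneg _) |>.2

lemma norm_M_le1 (f : V → ℝ) (φ : E) : ‖M p f φ‖ ≤ (∑ y, |f y|) * ‖φ‖ := by
  rw [M_apply, sum_mul]
  refine (norm_sum_le _ _).trans (sum_le_sum fun y _ => ?_)
  rw [norm_smul, Real.norm_eq_abs]
  have := h.norm_p_le y φ
  gcongr

lemma p_M (x : V) (f : V → ℝ) (φ : E) : p x (M p f φ) = M p f (p x φ) := by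
  rw [M_apply, M_apply, map_sum]
  exact sum_congr rfl fun y _ => by rw [map_smul, h.pp]

lemma M_M (f g : V → ℝ) (φ : E) : M p f (M p g φ) = M p g (M p f φ) := by
  rw [M_apply p f, M_apply p f, map_sum]
  exact sum_congr rfl fun y _ => by rw [map_smul, h.p_M]

lemma q_M (x : V) (f : V → ℝ) (hf : f x = 0) (φ : E) : q x (M p f φ) = M p f (q x φ) := by
  rw [M_apply, M_apply, map_sum]
  refine sum_congr rfl fun y _ => ?_
  by_cases hy : x = y
  · rw [← hy, hf, zero_smul, zero_smul, map_zero]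
  · rw [map_smul, h.ne x y _ hy]

end HCA

/-- the sum of all creations -/
def BB (p : V → E →ₗ[ℝ] E) : E →ₗ[ℝ] E := ∑ y, p y

lemma BB_apply (p : V → E →ₗ[ℝ] E) (φ : E) : BB p φ = ∑ y, p y φ := by
  simp [BB, LinearMap.sum_apply]

/-- the pair creations -/
def KP (p : V → E →ₗ[ℝ] E) (τ : V → V → ℝ) : E →ₗ[ℝ] E := ∑ y, (p y).comp (M p (τ y))

lemma KP_apply (p : V → E →ₗ[ℝ] E) (τ : V → V → ℝ) (φ : E) :
    KP p τ φ = ∑ y, p y (M p (τ y) φ) := by
  simp [KP, LinearMap.sum_apply]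

/-- the family of pair states; the index is the number of particles plus four -/
def Ph (p : V → E →ₗ[ℝ] E) (τ : V → V → ℝ) (ω : E) : ℕ → E
  | 0 => 0
  | 1 => 0
  | 2 => 0
  | 3 => 0
  | 4 => ω
  | k + 5 => (1 / ((k : ℝ) + 1)) •
      (BB p (Ph p τ ω (k + 4)) + KP p τ (Ph p τ ω (k + 3)))

lemma Ph_rec (p : V → E →ₗ[ℝ] E) (τ : V → V → ℝ) (ω : E) (k : ℕ) :
    BB p (Ph p τ ω (k + 1)) + KP p τ (Ph p τ ω k) = ((k : ℝ) - 2) • Ph p τ ω (k + 2) := by
  match k with
  | 0 => simp [Ph]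
  | 1 => simp [Ph]
  | 2 => simp [Ph]
  | k + 3 =>
    have e : Ph p τ ω (k + 3 + 2) = (1 / ((k : ℝ) + 1)) •
      (BB p (Ph p τ ω (k + 4)) + KP p τ (Ph p τ ω (k + 3))) := rfl
    rw [e, smul_smul]
    have e2 : (((k + 3 : ℕ) : ℝ) - 2) * (1 / ((k : ℝ) + 1)) = 1 := by
      have : (k : ℝ) + 1 ≠ 0 := by positivity
      push_cast
      field_simp
      ring
    rw [e2, one_smul]

section

variable {q p : V → E →ₗ[ℝ] E} (h : HCA q p) {τ : V → V → ℝ} (hτ : ∀ x, τ x x = 0)
  (hs : ∀ x y, τ x y = τ y x)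

include h

lemma q_BB (x : V) (φ : E) : q x (BB p φ) = BB p (q x φ) + φ - (2 : ℝ) • p x (q x φ) := by
  rw [BB_apply, BB_apply, map_sum, ← add_sum_erase univ _ (mem_univ x),
    ← add_sum_erase univ (fun y => p y (q x φ)) (mem_univ x), h.anti]
  have : ∑ y ∈ univ.erase x, q x (p y φ) = ∑ y ∈ univ.erase x, p y (q x φ) :=
    sum_congr rfl fun y hy => h.ne x y _ (Ne.symm (ne_of_mem_erase hy))
  rw [this, two_smul]
  abel

lemma n_BB (x : V) (φ : E) : p x (q x (BB p φ)) = BB p (p x (q x φ)) + p x φ := by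
  rw [q_BB h, map_sub, map_add, map_smul, h.p0, smul_zero, sub_zero]
  congr 1
  rw [BB_apply, BB_apply, map_sum]
  exact sum_congr rfl fun y _ => h.pp x y _

include hτ hs

lemma q_KP (x : V) (φ : E) : q x (KP p τ φ) = KP p τ (q x φ) + (2 : ℝ) • M p (τ x) φ -
    (4 : ℝ) • p x (q x (M p (τ x) φ)) := by
  have e1 : ∀ ξ, KP p τ ξ = (2 : ℝ) • p x (M p (τ x) ξ) +
      ∑ y ∈ univ.erase x, ∑ z ∈ univ.erase x, τ y z • p y (p z ξ) := by
    intro ξ
    rw [KP_apply, ← add_sum_erase univ _ (mem_univ x), two_smul, add_assoc]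
    congr 1
    have e2 : ∀ y ∈ univ.erase x, p y (M p (τ y) ξ) = τ x y • p x (p y ξ) +
        ∑ z ∈ univ.erase x, τ y z • p y (p z ξ) := by
      intro y _
      rw [M_apply, map_sum, ← add_sum_erase univ _ (mem_univ x), map_smul, h.pp y x, hs y x]
      congr 1
      exact sum_congr rfl fun z _ => by rw [map_smul]
    rw [sum_congr rfl e2, sum_add_distrib]
    congr 1
    rw [M_apply, map_sum, ← add_sum_erase univ (fun i => p x (τ x i • p i ξ)) (mem_univ x), hτ,
      zero_smul, map_zero, zero_add]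
    exact sum_congr rfl fun y _ => by rw [map_smul]
  rw [e1 φ, e1 (q x φ), map_add, map_smul, h.anti, h.q_M x _ (hτ x)]
  have e3 : q x (∑ y ∈ univ.erase x, ∑ z ∈ univ.erase x, τ y z • p y (p z φ)) =
      ∑ y ∈ univ.erase x, ∑ z ∈ univ.erase x, τ y z • p y (p z (q x φ)) := by
    rw [map_sum]
    refine sum_congr rfl fun y hy => ?_
    rw [map_sum]
    refine sum_congr rfl fun z hz => ?_
    rw [map_smul, h.ne x y _ (Ne.symm (ne_of_mem_erase hy)),
      h.ne x z _ (Ne.symm (ne_of_mem_erase hz))]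
  rw [e3]
  module

lemma n_KP (x : V) (φ : E) : p x (q x (KP p τ φ)) = KP p τ (p x (q x φ)) +
    (2 : ℝ) • p x (M p (τ x) φ) := by
  rw [q_KP h hτ hs, map_sub, map_add, map_smul, map_smul, h.p0, smul_zero, sub_zero]
  congr 1
  rw [KP_apply, KP_apply, map_sum]
  refine sum_congr rfl fun y _ => ?_
  rw [h.pp x y, h.p_M]

/-- **the annihilation of a particle of the pair state** -/
theorem q_Ph {ω : E} (hω : ∀ x, q x ω = 0) (x : V) (k : ℕ) :
    q x (Ph p τ ω (k + 2)) = (Ph p τ ω (k + 1) + M p (τ x) (Ph p τ ω k)) -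
      p x (q x (Ph p τ ω (k + 1) + M p (τ x) (Ph p τ ω k))) := by
  induction k using Nat.strong_induction_on with
  | _ k ih =>
    match k with
    | 0 => simp [Ph]
    | 1 => simp [Ph]
    | 2 => simp [Ph, hω]
    | k + 3 =>
      have ih1 := ih (k + 2) (by omega)
      have ih2 := ih (k + 1) (by omega)
      have r1 := Ph_rec p τ ω (k + 3)
      have r2 := Ph_rec p τ ω (k + 2)
      have r3 := Ph_rec p τ ω (k + 1)
      simp only [Nat.reduceAdd, add_assoc] at ih1 ih2 r1 r2 r3 ⊢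
      set φ0 := Ph p τ ω (k + 5)
      set φ1 := Ph p τ ω (k + 4)
      set φ2 := Ph p τ ω (k + 3)
      set φ3 := Ph p τ ω (k + 2)
      set φ4 := Ph p τ ω (k + 1)
      set P := M p (τ x) with hP
      set A1 := φ2 + P φ3 with hA1
      set A2 := φ3 + P φ4 with hA2
      have hPq : ∀ ξ, q x (P ξ) = P (q x ξ) := fun ξ => h.q_M x _ (hτ x) ξ
      have hPp : ∀ ξ, p x (P ξ) = P (p x ξ) := fun ξ => h.p_M x _ ξ
      have hPB : ∀ ξ, BB p (P ξ) = P (BB p ξ) := by
        intro ξ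
        rw [BB_apply, BB_apply, map_sum]
        exact sum_congr rfl fun y _ => h.p_M y _ _
      have hPK : ∀ ξ, KP p τ (P ξ) = P (KP p τ ξ) := by
        intro ξ
        rw [KP_apply, KP_apply, map_sum]
        refine sum_congr rfl fun y _ => ?_
        rw [hP, h.M_M, h.p_M]
      have c1 : p x (q x φ1) = p x A1 := by
        rw [ih1, map_sub, h.p0, sub_zero]
      have c2 : p x (q x (P φ2)) = p x (P A2) := by
        rw [hPq, ih2, hPp, hPp, map_sub, h.p0, sub_zero]
      have c3 : BB p (q x φ1) = BB p A1 - p x (q x (BB p A1)) + p x A1 := by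
        rw [ih1, map_sub, n_BB h]; abel
      have c4 : KP p τ (q x φ2) = KP p τ A2 - p x (q x (KP p τ A2)) + (2 : ℝ) • p x (P A2) := by
        rw [ih2, map_sub, n_KP h hτ hs]; abel
      have c5 : BB p A1 + KP p τ A2 = ((k : ℝ)) • φ1 + ((k : ℝ) - 1) • P φ2 := by
        rw [hA1, hA2, map_add, map_add, hPB, hPK]
        have e1 : BB p φ2 + KP p τ φ3 = (k : ℝ) • φ1 := by
          rw [r2]; congr 1; push_cast; ring
        have e2 : BB p φ3 + KP p τ φ4 = ((k : ℝ) - 1) • φ2 := by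
          rw [r3]; congr 1; push_cast; ring
        calc BB p φ2 + P (BB p φ3) + (KP p τ φ3 + P (KP p τ φ4)) =
            (BB p φ2 + KP p τ φ3) + P (BB p φ3 + KP p τ φ4) := by rw [map_add]; abel
          _ = _ := by rw [e1, e2, map_smul]
      have c6 : p x (q x (BB p A1)) + p x (q x (KP p τ A2)) =
          ((k : ℝ)) • p x (q x φ1) + ((k : ℝ) - 1) • p x (q x (P φ2)) := by
        rw [← map_add, ← map_add, c5, map_add, map_add, map_smul, map_smul, map_smul, map_smul]
      have c7 : ((k : ℝ) + 1) • q x φ0 = ((k : ℝ) + 1) • ((φ1 + P φ2) -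
          p x (q x (φ1 + P φ2))) := by
        have e1 : ((k : ℝ) + 1) • φ0 = BB p φ1 + KP p τ φ2 := by
          rw [r1]; congr 1; push_cast; ring
        have c8 : BB p A1 = ((k : ℝ)) • φ1 + ((k : ℝ) - 1) • P φ2 - KP p τ A2 := by
          rw [← c5]; abel
        have c9 : p x (q x (BB p A1)) = ((k : ℝ)) • p x (q x φ1) +
            ((k : ℝ) - 1) • p x (q x (P φ2)) - p x (q x (KP p τ A2)) := by
          rw [← c6]; abel
        have c10 : p x (q x (φ1 + P φ2)) = p x A1 + p x (P A2) := by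
          rw [map_add, map_add, c1, c2]
        have c11 : q x (BB p φ1) + q x (KP p τ φ2) = (BB p A1 - p x (q x (BB p A1)) + p x A1) +
            φ1 - (2 : ℝ) • p x (q x φ1) + ((KP p τ A2 - p x (q x (KP p τ A2)) +
            (2 : ℝ) • p x (P A2)) + (2 : ℝ) • P φ2 - (4 : ℝ) • p x (q x (P φ2))) := by
          rw [q_BB h, q_KP h hτ hs, c3, c4]
        rw [← map_smul, e1, LinearMap.map_add, c11, c10, c9, c8, c1, c2]
        module
      have hk : (k : ℝ) + 1 ≠ 0 := by positivity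
      exact smul_right_injective E hk c7

end

end Run7.h259.LHY
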