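import Pool.Agent.Run7.h259.LHY.HC1

/-!
# The norms of the pair states
-/

set_option autoImplicit false
set_option linter.unusedSectionVars false
set_option linter.unusedVariables false

noncomputable section

namespace Run7.h259.LHY

open Finset

variable {V : Type*} [Fintype V] [DecidableEq V]
variable {E : Type*} [NormedAddCommGroup E] [InnerProductSpace ℝ E]

section

variable {q p : V → E →ₗ[ℝ] E} (h : HCA q p)

include h

lemma hsec_p {N : ℝ} {φ : E} (hφ : Sec q p N φ) (x : V) : Sec q p (N + 1) (p x φ) := by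
  unfold Sec at hφ ⊢
  have e := congrArg (p x) hφ
  rw [map_sum, map_smul, ← add_sum_erase univ _ (mem_univ x), h.p0, zero_add] at e
  rw [← add_sum_erase univ _ (mem_univ x), h.anti, map_sub, h.p0, sub_zero, add_smul, one_smul,
    ← e, add_comm]
  congr 1
  refine sum_congr rfl fun y hy => ?_
  rw [h.ne y x _ (ne_of_mem_erase hy), h.pp]

lemma hsec_M {N : ℝ} {φ : E} (hφ : Sec q p N φ) (f : V → ℝ) : Sec q p (N + 1) (M p f φ) := by
  rw [M_apply]
  exact Sec.sum fun y _ => (hsec_p h hφ y).smul _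

lemma hsec_sum {N : ℝ} {φ : E} (hφ : Sec q p N φ) : ∑ x, ‖q x φ‖ ^ 2 = N * ‖φ‖ ^ 2 := by
  unfold Sec at hφ
  have e := congrArg (fun χ => inner ℝ χ φ) hφ
  simp only [sum_inner, h.adj, inner_smul_left, real_inner_self_eq_norm_sq] at e
  simpa using e

lemma sec_Ph {τ : V → V → ℝ} {ω : E} (hω : ∀ x, q x ω = 0) (k : ℕ) :
    Sec q p ((k : ℝ) - 4) (Ph p τ ω k) := by
  have h0 : ∀ N : ℝ, Sec q p N (0 : E) := by
    intro N; unfold Sec; simp
  induction k using Nat.strong_induction_on with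
  | _ k ih =>
    match k with
    | 0 => exact h0 _
    | 1 => exact h0 _
    | 2 => exact h0 _
    | 3 => exact h0 _
    | 4 =>
      unfold Sec
      simp [Ph, hω]
    | k + 5 =>
      have e : Ph p τ ω (k + 5) = (1 / ((k : ℝ) + 1)) •
        (BB p (Ph p τ ω (k + 4)) + KP p τ (Ph p τ ω (k + 3))) := rfl
      rw [e]
      have a1 := ih (k + 4) (by omega)
      have a2 := ih (k + 3) (by omega)
      have b1 : Sec q p (((k + 5 : ℕ) : ℝ) - 4) (BB p (Ph p τ ω (k + 4))) := by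
        rw [BB_apply]
        refine Sec.sum fun y _ => ?_
        have := hsec_p h a1 y
        have e2 : ((k + 4 : ℕ) : ℝ) - 4 + 1 = ((k + 5 : ℕ) : ℝ) - 4 := by push_cast; ring
        rwa [e2] at this
      have b2 : Sec q p (((k + 5 : ℕ) : ℝ) - 4) (KP p τ (Ph p τ ω (k + 3))) := by
        rw [KP_apply]
        refine Sec.sum fun y _ => ?_
        have := hsec_p h (hsec_M h a2 (τ y)) y
        have e2 : ((k + 3 : ℕ) : ℝ) - 4 + 1 + 1 = ((k + 5 : ℕ) : ℝ) - 4 := by push_cast; ring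
        rwa [e2] at this
      have b3 : Sec q p (((k + 5 : ℕ) : ℝ) - 4)
          (BB p (Ph p τ ω (k + 4)) + KP p τ (Ph p τ ω (k + 3))) := by
        unfold Sec at b1 b2 ⊢
        simp only [map_add]
        rw [sum_add_distrib, b1, b2, smul_add]
      exact b3.smul _

/-- the sum of all annihilations -/
lemma norm_Q {N : ℝ} {φ : E} (hφ : Sec q p N φ) :
    ‖∑ x, q x φ‖ ^ 2 ≤ (Fintype.card V : ℝ) * (N * ‖φ‖ ^ 2) := by
  rw [← hsec_sum h hφ]
  have h1 : ‖∑ x, q x φ‖ ≤ ∑ x, ‖q x φ‖ := norm_sum_le _ _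
  calc ‖∑ x, q x φ‖ ^ 2 ≤ (∑ x, ‖q x φ‖) ^ 2 := by gcongr
    _ ≤ _ := by
      have := sq_sum_le_card_mul_sum_sq (s := (univ : Finset V)) (f := fun x => ‖q x φ‖)
      simpa [card_univ] using this

lemma norm_BB {N : ℝ} {φ : E} (hφ : Sec q p N φ) :
    ‖BB p φ‖ ^ 2 ≤ (Fintype.card V : ℝ) * ((N + 1) * ‖φ‖ ^ 2) := by
  have e1 : ‖BB p φ‖ ^ 2 = ‖∑ x, q x φ‖ ^ 2 + (Fintype.card V : ℝ) * ‖φ‖ ^ 2 -
      2 * ∑ x, ‖q x φ‖ ^ 2 := by
    rw [← real_inner_self_eq_norm_sq, BB_apply, sum_inner]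
    have e2 : ∀ x, inner ℝ (p x φ) (∑ y, p y φ) =
        inner ℝ (∑ y, q y φ) (q x φ) + ‖φ‖ ^ 2 - 2 * ‖q x φ‖ ^ 2 := by
      intro x
      rw [← BB_apply, h.adj, q_BB h, inner_sub_right, inner_add_right, inner_smul_right,
        ← h.adj', real_inner_self_eq_norm_sq, real_inner_self_eq_norm_sq, BB_apply, inner_sum,
        sum_inner]
      congr 3
      funext y
      rw [h.adj']
    simp_rw [e2]
    rw [sum_sub_distrib, sum_add_distrib, ← inner_sum, real_inner_self_eq_norm_sq, sum_const,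
      card_univ, nsmul_eq_mul, ← mul_sum]
  have e3 := norm_Q h hφ
  have e4 : 0 ≤ ∑ x, ‖q x φ‖ ^ 2 := sum_nonneg fun _ _ => by positivity
  rw [e1]
  linarith

variable {τ : V → V → ℝ} (hτ : ∀ x, τ x x = 0) (hs : ∀ x y, τ x y = τ y x)
  (h1 : ∀ x, ∑ y, τ x y = 1) {b : ℝ} (hb : ∀ x, ∑ y, |τ x y| ≤ b) {ω : E}
  (hω : ∀ x, q x ω = 0)

include hτ hs hω

lemma pq_Ph (x : V) (k : ℕ) :
    p x (q x (Ph p τ ω (k + 2))) = p x (Ph p τ ω (k + 1)) + M p (τ x) (p x (Ph p τ ω k)) := by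
  rw [q_Ph h hτ hs hω x k, map_sub, h.p0, sub_zero, map_add, h.p_M]

include h1

/-- the sum over the sites -/
lemma Q_Ph (k : ℕ) : ∑ x, q x (Ph p τ ω (k + 4)) =
    ((Fintype.card V : ℝ) - ((k : ℝ) - 1)) • Ph p τ ω (k + 3) + BB p (Ph p τ ω (k + 2)) -
      ∑ x, M p (τ x) (p x (Ph p τ ω (k + 1)) + M p (τ x) (p x (Ph p τ ω k))) := by
  have e1 : ∀ x, q x (Ph p τ ω (k + 4)) = Ph p τ ω (k + 3) + M p (τ x) (Ph p τ ω (k + 2)) -
      p x (q x (Ph p τ ω (k + 3))) -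
      M p (τ x) (p x (Ph p τ ω (k + 1)) + M p (τ x) (p x (Ph p τ ω k))) := by
    intro x
    rw [q_Ph h hτ hs hω x (k + 2), map_add, map_add, h.q_M x _ (hτ x), h.p_M,
      pq_Ph h hτ hs hω x k]
    simp only [add_assoc, Nat.reduceAdd]
    abel
  simp_rw [e1]
  rw [sum_sub_distrib, sum_sub_distrib, sum_add_distrib, sum_const, card_univ,
    ← Nat.cast_smul_eq_nsmul ℝ]
  have e2 := sec_Ph h (τ := τ) hω (k + 3)
  unfold Sec at e2
  rw [e2]
  have e3 : ∑ x, M p (τ x) (Ph p τ ω (k + 2)) = BB p (Ph p τ ω (k + 2)) := by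
    simp_rw [M_apply]
    rw [sum_comm, BB_apply]
    refine sum_congr rfl fun y _ => ?_
    rw [← sum_smul]
    have : ∑ x, τ x y = 1 := by
      rw [← h1 y]; exact sum_congr rfl fun x _ => hs x y
    rw [this, one_smul]
  rw [e3]
  have e4 : (((k + 3 : ℕ) : ℝ) - 4) = (k : ℝ) - 1 := by push_cast; ring
  rw [e4]
  module

include hb

lemma b_nonneg (x : V) : 0 ≤ b := (sum_nonneg fun _ _ => abs_nonneg _).trans (hb x)

/-- the recursive inequality for the norms -/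
lemma nu_rec [Nonempty V] (k : ℕ) :
    ((Fintype.card V : ℝ) - k) * ‖Ph p τ ω (k + 3)‖ ≤
      √((Fintype.card V : ℝ) * k) * ‖Ph p τ ω (k + 4)‖ +
      √((Fintype.card V : ℝ) * k) * ‖Ph p τ ω (k + 2)‖ +
      (Fintype.card V : ℝ) * (b * (‖Ph p τ ω (k + 1)‖ + b * ‖Ph p τ ω k‖)) := by
  set n : ℝ := (Fintype.card V : ℝ) with hn
  have hn0 : 0 < n := by rw [hn]; exact_mod_cast Fintype.card_pos
  obtain ⟨x₀⟩ := ‹Nonempty V›
  have hb0 : 0 ≤ b := b_nonneg h hτ hs h1 hb hω x₀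
  have a1 : ‖∑ x, q x (Ph p τ ω (k + 4))‖ ≤ √(n * k) * ‖Ph p τ ω (k + 4)‖ := by
    have := norm_Q h (sec_Ph h (τ := τ) hω (k + 4))
    have e : ((k + 4 : ℕ) : ℝ) - 4 = k := by push_cast; ring
    rw [e, ← hn] at this
    refine abs_le_of_sq_le_sq' ?_ (by positivity) |>.2
    rw [mul_pow, Real.sq_sqrt (by positivity)]
    linarith
  have a2 : ‖BB p (Ph p τ ω (k + 2))‖ ≤ √(n * k) * ‖Ph p τ ω (k + 2)‖ := by
    have := norm_BB h (sec_Ph h (τ := τ) hω (k + 2))
    have e : ((k + 2 : ℕ) : ℝ) - 4 + 1 = (k : ℝ) - 1 := by push_cast; ring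
    rw [e, ← hn] at this
    refine abs_le_of_sq_le_sq' ?_ (by positivity) |>.2
    rw [mul_pow, Real.sq_sqrt (by positivity)]
    have : 0 ≤ n * ‖Ph p τ ω (k + 2)‖ ^ 2 := by positivity
    nlinarith
  have a3 : ‖∑ x, M p (τ x) (p x (Ph p τ ω (k + 1)) + M p (τ x) (p x (Ph p τ ω k)))‖ ≤
      n * (b * (‖Ph p τ ω (k + 1)‖ + b * ‖Ph p τ ω k‖)) := by
    refine (norm_sum_le _ _).trans ?_
    have : ∀ x ∈ (univ : Finset V),
        ‖M p (τ x) (p x (Ph p τ ω (k + 1)) + M p (τ x) (p x (Ph p τ ω k)))‖ ≤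
        b * (‖Ph p τ ω (k + 1)‖ + b * ‖Ph p τ ω k‖) := by
      intro x _
      refine (h.norm_M_le1 _ _).trans ?_
      have c1 := h.norm_p_le x (Ph p τ ω (k + 1))
      have c2 := h.norm_p_le x (Ph p τ ω k)
      have c3 : ‖M p (τ x) (p x (Ph p τ ω k))‖ ≤ b * ‖Ph p τ ω k‖ := by
        refine (h.norm_M_le1 _ _).trans ?_
        have := hb x
        gcongr
      have c4 := hb x
      refine mul_le_mul c4 ((norm_add_le _ _).trans (add_le_add c1 c3)) (norm_nonneg _) hb0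
    refine (sum_le_sum this).trans (le_of_eq ?_)
    rw [sum_const, card_univ, nsmul_eq_mul]
  have a4 := Q_Ph h hτ hs h1 hω k
  rw [← hn] at a4
  have a5 : (n - ((k : ℝ) - 1)) • Ph p τ ω (k + 3) = ∑ x, q x (Ph p τ ω (k + 4)) -
      BB p (Ph p τ ω (k + 2)) +
      ∑ x, M p (τ x) (p x (Ph p τ ω (k + 1)) + M p (τ x) (p x (Ph p τ ω k))) := by
    rw [a4]; abel
  have a6 : (n - ((k : ℝ) - 1)) * ‖Ph p τ ω (k + 3)‖ ≤ ‖(n - ((k : ℝ) - 1)) • Ph p τ ω (k + 3)‖ := by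
    rw [norm_smul]
    gcongr
    exact Real.le_norm_self _
  rw [a5] at a6
  have a7 := norm_add_le (∑ x, q x (Ph p τ ω (k + 4)) - BB p (Ph p τ ω (k + 2)))
    (∑ x, M p (τ x) (p x (Ph p τ ω (k + 1)) + M p (τ x) (p x (Ph p τ ω k))))
  have a8 := norm_sub_le (∑ x, q x (Ph p τ ω (k + 4))) (BB p (Ph p τ ω (k + 2)))
  have a9 : 0 ≤ ‖Ph p τ ω (k + 3)‖ := norm_nonneg _
  nlinarith

end

/-- the constant of the norm recursion -/
def cc (b : ℝ) : ℝ := 3 + 4 * b + 8 * b ^ 2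

/-- a recursion for real sequences -/
lemma seq_bound (ν : ℕ → ℝ) (n b : ℝ) (hn : 0 < n) (hb : 0 ≤ b) (hν : ∀ k, 0 ≤ ν k)
    (h3 : ∀ k, k ≤ 3 → ν k = 0) (N : ℕ) (hN : cc b * ((N : ℝ) / n) ≤ 1 / 2)
    (hrec : ∀ k : ℕ, (n - k) * ν (k + 3) ≤ √(n * k) * ν (k + 4) + √(n * k) * ν (k + 2) +
      n * (b * (ν (k + 1) + b * ν k))) :
    ∀ k, k ≤ N → ν (k + 3) ≤ 2 * √((k : ℝ) / n) * ν (k + 4) ∧
      (1 - cc b * ((N : ℝ) / n)) * ν (k + 3) ≤ √((k : ℝ) / n) * ν (k + 4) := by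
  intro k
  induction k using Nat.strong_induction_on with
  | _ k ih =>
    intro hk
    by_cases hk0 : k = 0
    · subst hk0
      rw [h3 3 le_rfl]; simp
    have hk1 : 1 ≤ k := Nat.one_le_iff_ne_zero.2 hk0
    have hkN : (k : ℝ) ≤ N := by exact_mod_cast hk
    set y := √((k : ℝ) / n) with hy
    have hy0 : 0 ≤ y := Real.sqrt_nonneg _
    have hy2 : y ^ 2 = (k : ℝ) / n := Real.sq_sqrt (by positivity)
    have hcc : 3 ≤ cc b := by unfold cc; nlinarith
    have hρ : (k : ℝ) / n ≤ 1 / 6 := by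
      have : (k : ℝ) / n ≤ (N : ℝ) / n := by gcongr
      have h0 : 0 ≤ (N : ℝ) / n := by positivity
      nlinarith
    have hy1 : y ≤ 1 := by
      nlinarith
    have hmono : ∀ j : ℕ, j ≤ k → √((j : ℝ) / n) ≤ y := by
      intro j hj
      rw [hy]
      apply Real.sqrt_le_sqrt
      have : (j : ℝ) ≤ k := by exact_mod_cast hj
      gcongr
    -- the three previous norms
    have b1 : ν (k + 2) ≤ 2 * y * ν (k + 3) := by
      obtain ⟨j, rfl⟩ : ∃ j, k = j + 1 := ⟨k - 1, by omega⟩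
      have := (ih j (by omega) (by omega)).1
      refine this.trans ?_
      have := hmono j (by omega)
      have := hν (j + 4)
      change 2 * √((j : ℝ) / n) * ν (j + 4) ≤ 2 * y * ν (j + 4)
      gcongr
    have b2 : ν (k + 1) ≤ 2 * y * ν (k + 2) := by
      by_cases hk2 : k ≤ 1
      · rw [h3 (k + 1) (by omega)]
        have := hν (k + 2)
        positivity
      · obtain ⟨j, rfl⟩ : ∃ j, k = j + 2 := ⟨k - 2, by omega⟩
        have := (ih j (by omega) (by omega)).1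
        refine this.trans ?_
        have := hmono j (by omega)
        have := hν (j + 4)
        change 2 * √((j : ℝ) / n) * ν (j + 4) ≤ 2 * y * ν (j + 4)
        gcongr
    have b3 : ν k ≤ 2 * y * ν (k + 1) := by
      by_cases hk2 : k ≤ 2
      · rw [h3 k (by omega)]
        have := hν (k + 1)
        positivity
      · obtain ⟨j, rfl⟩ : ∃ j, k = j + 3 := ⟨k - 3, by omega⟩
        have := (ih j (by omega) (by omega)).1
        refine this.trans ?_
        have := hmono j (by omega)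
        have := hν (j + 4)
        change 2 * √((j : ℝ) / n) * ν (j + 4) ≤ 2 * y * ν (j + 4)
        gcongr
    have n3 := hν (k + 3)
    have n2 := hν (k + 2)
    have n1 := hν (k + 1)
    have n0 := hν k
    have n4 := hν (k + 4)
    have c2 : ν (k + 1) ≤ 4 * y ^ 2 * ν (k + 3) := by
      calc ν (k + 1) ≤ 2 * y * ν (k + 2) := b2
        _ ≤ 2 * y * (2 * y * ν (k + 3)) := by gcongr
        _ = _ := by ring
    have c3 : ν k ≤ 8 * y ^ 2 * ν (k + 3) := by
      calc ν k ≤ 2 * y * ν (k + 1) := b3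
        _ ≤ 2 * 1 * (4 * y ^ 2 * ν (k + 3)) := by gcongr
        _ = _ := by ring
    have hsq : √(n * k) = n * y := by
      rw [hy, ← Real.sqrt_sq hn.le, ← Real.sqrt_mul (by positivity), Real.sqrt_sq hn.le]
      congr 1
      field_simp
    have r := hrec k
    rw [hsq] at r
    have d1 : n * y * ν (k + 2) ≤ 2 * n * y ^ 2 * ν (k + 3) := by
      calc n * y * ν (k + 2) ≤ n * y * (2 * y * ν (k + 3)) := by gcongr
        _ = _ := by ring
    have d2 : n * (b * (ν (k + 1) + b * ν k)) ≤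
        n * (b * (4 * y ^ 2 * ν (k + 3) + b * (8 * y ^ 2 * ν (k + 3)))) := by gcongr
    have hyk : n * y ^ 2 = k := by rw [hy2]; field_simp
    have e1 : (n - cc b * k) * ν (k + 3) ≤ n * (y * ν (k + 4)) := by
      have e2 : cc b * k * ν (k + 3) = k * ν (k + 3) + 2 * n * y ^ 2 * ν (k + 3) +
          n * (b * (4 * y ^ 2 * ν (k + 3) + b * (8 * y ^ 2 * ν (k + 3)))) := by
        have : (k : ℝ) = n * y ^ 2 := hyk.symm
        rw [this]; unfold cc; ring
      nlinarith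
    have e3 : (1 - cc b * ((k : ℝ) / n)) * ν (k + 3) ≤ y * ν (k + 4) := by
      have : n * ((1 - cc b * ((k : ℝ) / n)) * ν (k + 3)) ≤ n * (y * ν (k + 4)) := by
        refine le_trans (le_of_eq ?_) e1
        field_simp
      exact le_of_mul_le_mul_left this hn
    have e4 : cc b * ((k : ℝ) / n) ≤ cc b * ((N : ℝ) / n) := by
      have : 0 ≤ cc b := by linarith
      gcongr
    have e5 : (1 - cc b * ((N : ℝ) / n)) * ν (k + 3) ≤ y * ν (k + 4) := by
      refine le_trans ?_ e3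
      gcongr
    refine ⟨?_, e5⟩
    have e6 : 1 / 2 * ν (k + 3) ≤ (1 - cc b * ((N : ℝ) / n)) * ν (k + 3) := by
      gcongr; linarith
    linarith

end Run7.h259.LHY
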