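import Pool.Agent.Run7.h259.LHY.HC2
import Pool.Agent.Run7.h259.LHY.Conv

/-!
# The energy of the pair states
-/

set_option autoImplicit false
set_option linter.unusedSectionVars false
set_option linter.unusedVariables false

noncomputable section

namespace Run7.h259.LHY

open Finset

variable {V : Type*} [Fintype V] [DecidableEq V]
variable {E : Type*} [NormedAddCommGroup E] [InnerProductSpace ℝ E]

/-- Parseval for vectors -/
lemma pars_vec {o : V} {v : V → V → ℝ} (bs : Basis o v) (F : V → E) :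
    ∑ k, ‖∑ x, v k x • F x‖ ^ 2 = ∑ x, ‖F x‖ ^ 2 := by
  have e : ∀ k, ‖∑ x, v k x • F x‖ ^ 2 = ∑ x, ∑ y, (v k x * v k y) * inner ℝ (F x) (F y) := by
    intro k
    rw [← real_inner_self_eq_norm_sq, sum_inner]
    refine sum_congr rfl fun x _ => ?_
    rw [inner_sum]
    refine sum_congr rfl fun y _ => ?_
    rw [inner_smul_left, inner_smul_right]
    simp only [conj_trivial]; ring
  simp_rw [e]
  rw [sum_comm]
  refine sum_congr rfl fun x _ => ?_
  rw [sum_comm]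
  simp_rw [← sum_mul, bs.compl]
  simp [real_inner_self_eq_norm_sq]

/-- the data of the hard-core problem -/
structure HD (q p : V → E →ₗ[ℝ] E) (o : V) (v : V → V → ℝ) (ε : V → ℝ) (R : V → V → ℝ)
    (g t₀ r b : ℝ) (ω : E) : Prop where
  hca : HCA q p
  bs : Basis o v
  hg : 0 < g
  ε0 : ε o = 0
  εg : ∀ k, k ≠ o → g ≤ ε k
  εt : ∀ k, ε k ≤ t₀
  coef : ∀ k z, ∑ x, v k x * R x z = if k = o then 0 else v k z / ε k
  rpos : 0 < r
  diag : ∀ x, R x x = r
  l1 : ∀ x, ∑ y, |R x y| ≤ b * r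
  vac : ∀ x, q x ω = 0

/-- the pair function -/
def tau (R : V → V → ℝ) (r : ℝ) (x y : V) : ℝ := if x = y then 0 else -(R x y / r)

namespace HD

variable {q p : V → E →ₗ[ℝ] E} {o : V} {v : V → V → ℝ} {ε : V → ℝ} {R : V → V → ℝ}
  {g t₀ r b : ℝ} {ω : E} (H : HD q p o v ε R g t₀ r b ω)

include H

lemma entry (x z : V) : R x z = ∑ k ∈ univ.erase o, v k x * v k z / ε k := by
  calc R x z = ∑ y, (if x = y then 1 else 0) * R y z := by simp
    _ = ∑ y, (∑ k, v k x * v k y) * R y z := by simp_rw [H.bs.compl]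
    _ = ∑ k, v k x * ∑ y, v k y * R y z := by
        simp_rw [sum_mul]
        rw [sum_comm]
        refine sum_congr rfl fun k _ => ?_
        rw [mul_sum]
        exact sum_congr rfl fun y _ => by ring
    _ = ∑ k, v k x * (if k = o then 0 else v k z / ε k) := by simp_rw [H.coef]
    _ = _ := by
        rw [← add_sum_erase univ _ (mem_univ o), if_pos rfl, mul_zero, zero_add]
        refine sum_congr rfl fun k hk => ?_
        rw [if_neg (ne_of_mem_erase hk)]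
        ring

lemma symm (x y : V) : R x y = R y x := by
  rw [H.entry, H.entry]
  exact sum_congr rfl fun k _ => by ring

lemma mean_v {k : V} (hk : k ≠ o) : ∑ x, v k x = 0 := by
  have := fx_sum H.bs k
  simpa only [fx, if_neg hk] using this

lemma row (x : V) : ∑ y, R x y = 0 := by
  simp_rw [H.entry x]
  rw [sum_comm]
  refine sum_eq_zero fun k hk => ?_
  have h1 := H.mean_v (ne_of_mem_erase hk)
  have : ∀ y, v k x * v k y / ε k = v k x / ε k * v k y := fun y => by ring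
  simp only [this, ← mul_sum, h1, mul_zero]

lemma tau_symm (x y : V) : tau R r x y = tau R r y x := by
  unfold tau
  by_cases h : x = y
  · rw [if_pos h, if_pos h.symm]
  · rw [if_neg h, if_neg (Ne.symm h), H.symm]

lemma tau_diag (x : V) : tau R r x x = 0 := by simp [tau]

lemma tau_eq (x y : V) : tau R r x y = (if x = y then 1 else 0) - R x y / r := by
  have := H.rpos
  unfold tau
  by_cases h : x = y
  · subst h
    rw [if_pos rfl, if_pos rfl, H.diag]; field_simp; ring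
  · rw [if_neg h, if_neg h]; ring

lemma tau_row (x : V) : ∑ y, tau R r x y = 1 := by
  simp_rw [H.tau_eq]
  rw [sum_sub_distrib, ← sum_div, H.row]
  simp

lemma tau_l1 (x : V) : ∑ y, |tau R r x y| ≤ b := by
  have hr := H.rpos
  have h1 : ∀ y, |tau R r x y| ≤ |R x y| / r := by
    intro y
    unfold tau
    split_ifs
    · rw [abs_zero]; positivity
    · rw [abs_neg, abs_div, abs_of_pos hr]
  refine (sum_le_sum fun y _ => h1 y).trans ?_
  rw [← sum_div, div_le_iff₀ hr]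
  exact H.l1 x

lemma b_one : 1 ≤ b := by
  have hr := H.rpos
  have h1 : |R o o| ≤ ∑ y, |R o y| := single_le_sum (f := fun y => |R o y|)
    (fun _ _ => abs_nonneg _) (mem_univ o)
  rw [H.diag, abs_of_pos hr] at h1
  have := h1.trans (H.l1 o)
  by_contra hcon
  push Not at hcon
  nlinarith

lemma t_nonneg : 0 ≤ t₀ := by
  have := H.εt o
  rwa [H.ε0] at this

/-- the smooth part of the annihilation -/
def Fp (p : V → E →ₗ[ℝ] E) (R : V → V → ℝ) (r : ℝ) (ω : E) (N : ℕ) (x : V) : E :=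
  Ph p (tau R r) ω (N + 3) + M p (tau R r x) (Ph p (tau R r) ω (N + 2)) -
    p x (Ph p (tau R r) ω (N + 2))

/-- the rest -/
def Gp (p : V → E →ₗ[ℝ] E) (R : V → V → ℝ) (r : ℝ) (ω : E) (N : ℕ) (x : V) : E :=
  (2 : ℝ) • M p (tau R r x) (p x (Ph p (tau R r) ω (N + 1))) +
    M p (tau R r x) (M p (tau R r x) (p x (Ph p (tau R r) ω N)))

lemma q_split (N : ℕ) (x : V) :
    q x (Ph p (tau R r) ω (N + 4)) = Fp p R r ω N x - Gp p R r ω N x := by
  have e1 := q_Ph H.hca H.tau_diag H.tau_symm H.vac x (N + 2)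
  have e2 := pq_Ph H.hca H.tau_diag H.tau_symm H.vac x (N + 1)
  have e3 := pq_Ph H.hca H.tau_diag H.tau_symm H.vac x N
  simp only [add_assoc, Nat.reduceAdd] at e1 e2 e3
  rw [e1, map_add, map_add, e2, H.hca.q_M x _ (H.tau_diag x), H.hca.p_M, e3, map_add]
  unfold Fp Gp
  module

lemma F_hat (N : ℕ) {k : V} (hk : k ≠ o) :
    ∑ x, v k x • Fp p R r ω N x = (-(1 / (r * ε k))) • M p (v k) (Ph p (tau R r) ω (N + 2)) := by
  have hr := H.rpos
  have hεk : 0 < ε k := lt_of_lt_of_le H.hg (H.εg k hk)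
  set χ := Ph p (tau R r) ω (N + 2) with hχ
  have e1 : ∑ x, v k x • Fp p R r ω N x = (∑ x, v k x) • Ph p (tau R r) ω (N + 3) +
      ∑ y, (∑ x, v k x * tau R r x y) • p y χ - ∑ y, v k y • p y χ := by
    unfold Fp
    simp only [smul_sub, smul_add, sum_sub_distrib, sum_add_distrib]
    congr 2
    · rw [sum_smul]
    · simp_rw [M_apply, smul_sum, smul_smul]
      rw [sum_comm]
      exact sum_congr rfl fun y _ => by rw [sum_smul]
  rw [e1, H.mean_v hk, zero_smul, zero_add, ← sum_sub_distrib, M_apply, smul_sum]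
  refine sum_congr rfl fun y _ => ?_
  have e2 : ∑ x, v k x * tau R r x y = v k y - v k y / ε k / r := by
    simp_rw [H.tau_eq, mul_sub]
    rw [sum_sub_distrib]
    congr 1
    · simp
    · have := H.coef k y
      rw [if_neg hk] at this
      rw [← this, sum_div]
      exact sum_congr rfl fun x _ => by ring
  rw [e2, ← sub_smul, smul_smul]
  congr 1
  field_simp
  ring

lemma G_le [Nonempty V] (N : ℕ) (x : V) : ‖Gp p R r ω N x‖ ≤
    2 * b * ‖Ph p (tau R r) ω (N + 1)‖ + b ^ 2 * ‖Ph p (tau R r) ω N‖ := by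
  have hb : 0 ≤ b := by linarith [H.b_one]
  unfold Gp
  refine (norm_add_le _ _).trans (add_le_add ?_ ?_)
  · rw [norm_smul]
    have e1 := H.hca.norm_M_le1 (tau R r x) (p x (Ph p (tau R r) ω (N + 1)))
    have e2 := H.hca.norm_p_le x (Ph p (tau R r) ω (N + 1))
    have e3 := H.tau_l1 x
    have e4 : (∑ y, |tau R r x y|) * ‖p x (Ph p (tau R r) ω (N + 1))‖ ≤
      b * ‖Ph p (tau R r) ω (N + 1)‖ := by gcongr
    have e5 : ‖(2 : ℝ)‖ = 2 := by norm_num
    rw [e5]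
    nlinarith
  · have e1 := H.hca.norm_M_le1 (tau R r x) (M p (tau R r x) (p x (Ph p (tau R r) ω N)))
    have e2 := H.hca.norm_M_le1 (tau R r x) (p x (Ph p (tau R r) ω N))
    have e3 := H.hca.norm_p_le x (Ph p (tau R r) ω N)
    have e4 := H.tau_l1 x
    calc _ ≤ _ := e1
      _ ≤ b * (b * ‖Ph p (tau R r) ω N‖) := by
          refine mul_le_mul e4 (e2.trans ?_) (norm_nonneg _) hb
          gcongr
      _ = _ := by ring

/-- the quadratic form of the Green matrix -/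
lemma R_form {M₀ : ℝ} {χ : E} (hχ : Sec q p M₀ χ) :
    ∑ x, ∑ y, R x y * inner ℝ (p x χ) (p y χ) ≤
      (r * (Fintype.card V : ℝ) + b * r * M₀) * ‖χ‖ ^ 2 := by
  have h1 : ∀ x y, R x y * inner ℝ (p x χ) (p y χ) ≤
      (if x = y then r * ‖χ‖ ^ 2 else 0) + |R x y| * ((‖q x χ‖ ^ 2 + ‖q y χ‖ ^ 2) / 2) := by
    intro x y
    by_cases hxy : x = y
    · subst hxy
      rw [if_pos rfl, H.diag, real_inner_self_eq_norm_sq]
      have e1 := H.hca.norm_p_le x χ
      have e2 : ‖p x χ‖ ^ 2 ≤ ‖χ‖ ^ 2 := by gcongr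
      have e3 := H.rpos
      have e4 : r * ‖p x χ‖ ^ 2 ≤ r * ‖χ‖ ^ 2 := by gcongr
      have e5 : 0 ≤ |r| * ((‖q x χ‖ ^ 2 + ‖q x χ‖ ^ 2) / 2) := by positivity
      linarith
    · rw [if_neg hxy, zero_add, H.hca.adj, H.hca.ne x y _ hxy, ← H.hca.adj']
      have e1 : |inner ℝ (q y χ) (q x χ)| ≤ (‖q x χ‖ ^ 2 + ‖q y χ‖ ^ 2) / 2 := by
        refine (abs_real_inner_le_norm _ _).trans ?_
        nlinarith [sq_nonneg (‖q x χ‖ - ‖q y χ‖)]
      calc R x y * inner ℝ (q y χ) (q x χ) ≤ |R x y * inner ℝ (q y χ) (q x χ)| := le_abs_self _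
        _ = |R x y| * |inner ℝ (q y χ) (q x χ)| := abs_mul _ _
        _ ≤ _ := by gcongr
  have h2 : ∑ x, ∑ y, R x y * inner ℝ (p x χ) (p y χ) ≤
      ∑ x, ∑ y, ((if x = y then r * ‖χ‖ ^ 2 else 0) +
        |R x y| * ((‖q x χ‖ ^ 2 + ‖q y χ‖ ^ 2) / 2)) :=
    sum_le_sum fun x _ => sum_le_sum fun y _ => h1 x y
  refine h2.trans ?_
  simp_rw [sum_add_distrib]
  have h3 : ∑ x : V, ∑ y : V, (if x = y then r * ‖χ‖ ^ 2 else 0) =
      r * (Fintype.card V : ℝ) * ‖χ‖ ^ 2 := by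
    simp only [sum_ite_eq, mem_univ, if_true, sum_const, card_univ, nsmul_eq_mul]
    ring
  have h4 : ∑ x, ∑ y, |R x y| * ((‖q x χ‖ ^ 2 + ‖q y χ‖ ^ 2) / 2) =
      ∑ x, (∑ y, |R x y|) * ‖q x χ‖ ^ 2 := by
    have e1 : ∑ x, ∑ y, |R x y| * ((‖q x χ‖ ^ 2 + ‖q y χ‖ ^ 2) / 2) =
        1 / 2 * ∑ x, ∑ y, |R x y| * ‖q x χ‖ ^ 2 + 1 / 2 * ∑ x, ∑ y, |R x y| * ‖q y χ‖ ^ 2 := by
      rw [mul_sum, mul_sum, ← sum_add_distrib]
      refine sum_congr rfl fun x _ => ?_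
      rw [mul_sum, mul_sum, ← sum_add_distrib]
      exact sum_congr rfl fun y _ => by ring
    have e2 : ∑ x, ∑ y, |R x y| * ‖q y χ‖ ^ 2 = ∑ x, ∑ y, |R x y| * ‖q x χ‖ ^ 2 := by
      rw [sum_comm]
      refine sum_congr rfl fun x _ => sum_congr rfl fun y _ => ?_
      rw [H.symm]
    rw [e1, e2]
    simp_rw [← sum_mul]
    ring
  rw [h3, h4]
  have h5 : ∑ x, (∑ y, |R x y|) * ‖q x χ‖ ^ 2 ≤ b * r * (M₀ * ‖χ‖ ^ 2) := by
    rw [← hsec_sum H.hca hχ, mul_sum]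
    refine sum_le_sum fun x _ => ?_
    have := H.l1 x
    gcongr
  linarith

/-- the kinetic energy of the pair state -/
theorem kin_le [Nonempty V] (N : ℕ) (θ : ℝ) (hθ : 0 < θ) :
    ∑ k, ε k * ‖M q (v k) (Ph p (tau R r) ω (N + 4))‖ ^ 2 ≤
      (1 + θ) * (1 / r * ((Fintype.card V : ℝ) + b * ((N : ℝ) - 2))) *
        ‖Ph p (tau R r) ω (N + 2)‖ ^ 2 +
      (1 + 1 / θ) * (t₀ * (Fintype.card V : ℝ) *
        (2 * b * ‖Ph p (tau R r) ω (N + 1)‖ + b ^ 2 * ‖Ph p (tau R r) ω N‖) ^ 2) := by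
  have hr := H.rpos
  set χ := Ph p (tau R r) ω (N + 2) with hχ
  set G : V → E := Gp p R r ω N with hG
  set F : V → E := Fp p R r ω N with hF
  have hεp : ∀ k, k ≠ o → 0 < ε k := fun k hk => lt_of_lt_of_le H.hg (H.εg k hk)
  have e1 : ∀ k, M q (v k) (Ph p (tau R r) ω (N + 4)) = ∑ x, v k x • F x - ∑ x, v k x • G x := by
    intro k
    rw [M_apply, ← sum_sub_distrib]
    refine sum_congr rfl fun x _ => ?_
    rw [H.q_split, smul_sub]
  have e2 : ∀ k, ε k * ‖M q (v k) (Ph p (tau R r) ω (N + 4))‖ ^ 2 ≤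
      (1 + θ) * (if k = o then 0 else ε k * ‖∑ x, v k x • F x‖ ^ 2) +
      (1 + 1 / θ) * (t₀ * ‖∑ x, v k x • G x‖ ^ 2) := by
    intro k
    by_cases hk : k = o
    · rw [hk, H.ε0, if_pos rfl, zero_mul, mul_zero, zero_add]
      have := H.t_nonneg
      positivity
    · rw [if_neg hk, e1]
      have hε := hεp k hk
      set X := ∑ x, v k x • F x
      set Y := ∑ x, v k x • G x
      have a1 : ‖X - Y‖ ^ 2 ≤ (1 + θ) * ‖X‖ ^ 2 + (1 + 1 / θ) * ‖Y‖ ^ 2 := by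
        have a2 : ‖X - Y‖ ≤ ‖X‖ + ‖Y‖ := norm_sub_le _ _
        have a3 : ‖X - Y‖ ^ 2 ≤ (‖X‖ + ‖Y‖) ^ 2 := by gcongr
        have a4 : 0 ≤ (θ * ‖X‖ - ‖Y‖) ^ 2 / θ := by positivity
        have a5 : (θ * ‖X‖ - ‖Y‖) ^ 2 / θ = θ * ‖X‖ ^ 2 - 2 * ‖X‖ * ‖Y‖ + 1 / θ * ‖Y‖ ^ 2 := by
          field_simp
          ring
        nlinarith
      have a6 : ε k * ‖Y‖ ^ 2 ≤ t₀ * ‖Y‖ ^ 2 := by
        have := H.εt k
        gcongr
      calc ε k * ‖X - Y‖ ^ 2 ≤ ε k * ((1 + θ) * ‖X‖ ^ 2 + (1 + 1 / θ) * ‖Y‖ ^ 2) := by gcongr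
        _ = (1 + θ) * (ε k * ‖X‖ ^ 2) + (1 + 1 / θ) * (ε k * ‖Y‖ ^ 2) := by ring
        _ ≤ _ := by gcongr
  refine (sum_le_sum fun k _ => e2 k).trans ?_
  rw [sum_add_distrib, ← mul_sum, ← mul_sum, ← mul_sum, pars_vec H.bs]
  have e3 : ∑ k, (if k = o then 0 else ε k * ‖∑ x, v k x • F x‖ ^ 2) =
      1 / r ^ 2 * ∑ x, ∑ y, R x y * inner ℝ (p x χ) (p y χ) := by
    rw [← add_sum_erase univ _ (mem_univ o), if_pos rfl, zero_add]
    have a1 : ∀ k ∈ univ.erase o, (if k = o then 0 else ε k * ‖∑ x, v k x • F x‖ ^ 2) =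
        1 / r ^ 2 * ∑ x, ∑ y, (v k x * v k y / ε k) * inner ℝ (p x χ) (p y χ) := by
      intro k hk
      have hk' := ne_of_mem_erase hk
      have hε := hεp k hk'
      rw [if_neg hk', H.F_hat N hk', norm_smul, mul_pow, Real.norm_eq_abs, sq_abs]
      have a2 : ‖M p (v k) χ‖ ^ 2 = ∑ x, ∑ y, v k x * v k y * inner ℝ (p x χ) (p y χ) := by
        rw [← real_inner_self_eq_norm_sq, M_apply, sum_inner]
        refine sum_congr rfl fun x _ => ?_
        rw [inner_sum]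
        refine sum_congr rfl fun y _ => ?_
        rw [inner_smul_left, inner_smul_right]
        simp only [conj_trivial]; ring
      rw [a2]
      have a3 : ∑ x, ∑ y, (v k x * v k y / ε k) * inner ℝ (p x χ) (p y χ) =
          1 / ε k * ∑ x, ∑ y, v k x * v k y * inner ℝ (p x χ) (p y χ) := by
        rw [mul_sum]
        refine sum_congr rfl fun x _ => ?_
        rw [mul_sum]
        exact sum_congr rfl fun y _ => by ring
      rw [a3]
      field_simp
    rw [sum_congr rfl a1, ← mul_sum]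
    congr 1
    rw [sum_comm]
    refine sum_congr rfl fun x _ => ?_
    rw [sum_comm]
    refine sum_congr rfl fun y _ => ?_
    rw [H.entry, sum_mul]
  rw [e3]
  have hsec := sec_Ph H.hca (τ := tau R r) H.vac (N + 2)
  have e4 : (((N + 2 : ℕ) : ℝ) - 4) = (N : ℝ) - 2 := by push_cast; ring
  rw [e4] at hsec
  have e5 := H.R_form hsec
  rw [← hχ] at e5
  have e6 : ∑ x, ‖G x‖ ^ 2 ≤ (Fintype.card V : ℝ) *
      (2 * b * ‖Ph p (tau R r) ω (N + 1)‖ + b ^ 2 * ‖Ph p (tau R r) ω N‖) ^ 2 := by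
    have : ∀ x ∈ (univ : Finset V), ‖G x‖ ^ 2 ≤
        (2 * b * ‖Ph p (tau R r) ω (N + 1)‖ + b ^ 2 * ‖Ph p (tau R r) ω N‖) ^ 2 := by
      intro x _
      have := H.G_le N x
      have h0 : 0 ≤ ‖G x‖ := norm_nonneg _
      gcongr
    refine (sum_le_sum this).trans (le_of_eq ?_)
    rw [sum_const, card_univ, nsmul_eq_mul]
  have ht := H.t_nonneg
  calc (1 + θ) * (1 / r ^ 2 * ∑ x, ∑ y, R x y * inner ℝ (p x χ) (p y χ)) +
      (1 + 1 / θ) * (t₀ * ∑ x, ‖G x‖ ^ 2) ≤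
      (1 + θ) * (1 / r ^ 2 * ((r * (Fintype.card V : ℝ) + b * r * ((N : ℝ) - 2)) * ‖χ‖ ^ 2)) +
      (1 + 1 / θ) * (t₀ * ((Fintype.card V : ℝ) *
      (2 * b * ‖Ph p (tau R r) ω (N + 1)‖ + b ^ 2 * ‖Ph p (tau R r) ω N‖) ^ 2)) := by gcongr
    _ = _ := by
      have e7 : 1 / r ^ 2 * ((r * (Fintype.card V : ℝ) + b * r * ((N : ℝ) - 2)) * ‖χ‖ ^ 2) =
          1 / r * ((Fintype.card V : ℝ) + b * ((N : ℝ) - 2)) * ‖χ‖ ^ 2 := by field_simp
      rw [e7]
      ring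

end HD

end Run7.h259.LHY
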