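import Pool.Agent.Run7.h259.LHY.HC3

/-!
# The upper bound for hard-core bosons
-/

set_option autoImplicit false
set_option linter.unusedSectionVars false
set_option linter.unusedVariables false

noncomputable section

namespace Run7.h259.LHY

open Finset

variable {V : Type*} [Fintype V] [DecidableEq V]
variable {E : Type*} [NormedAddCommGroup E] [InnerProductSpace ℝ E]

/-- the constant of the hard-core upper bound -/
def CH (t₀ r b : ℝ) : ℝ := 14 * cc b + 1024 * t₀ * r * b ^ 2 * (1 + b) ^ 2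

lemma Ph_mem {p : V → E →ₗ[ℝ] E} {τ : V → V → ℝ} {ω : E} (S : Submodule ℝ E) (hω : ω ∈ S)
    (hp : ∀ x φ, φ ∈ S → p x φ ∈ S) (k : ℕ) : Ph p τ ω k ∈ S := by
  have hM : ∀ (f : V → ℝ) φ, φ ∈ S → M p f φ ∈ S := by
    intro f φ hφ
    rw [M_apply]
    exact S.sum_mem fun y _ => S.smul_mem _ (hp y φ hφ)
  induction k using Nat.strong_induction_on with
  | _ k ih =>
    match k with
    | 0 => exact S.zero_mem
    | 1 => exact S.zero_mem
    | 2 => exact S.zero_mem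
    | 3 => exact S.zero_mem
    | 4 => exact hω
    | k + 5 =>
      have e : Ph p τ ω (k + 5) = (1 / ((k : ℝ) + 1)) •
        (BB p (Ph p τ ω (k + 4)) + KP p τ (Ph p τ ω (k + 3))) := rfl
      rw [e]
      refine S.smul_mem _ (S.add_mem ?_ ?_)
      · rw [BB_apply]
        exact S.sum_mem fun y _ => hp y _ (ih (k + 4) (by omega))
      · rw [KP_apply]
        exact S.sum_mem fun y _ => hp y _ (hM _ _ (ih (k + 3) (by omega)))

namespace HD

variable {q p : V → E →ₗ[ℝ] E} {o : V} {v : V → V → ℝ} {ε : V → ℝ} {R : V → V → ℝ}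
  {g t₀ r b : ℝ} {ω : E} (H : HD q p o v ε R g t₀ r b ω)

include H

lemma seqs [Nonempty V] (N : ℕ) (hN : cc b * ((N : ℝ) / (Fintype.card V : ℝ)) ≤ 1 / 2) :
    ∀ k, k ≤ N → ‖Ph p (tau R r) ω (k + 3)‖ ≤
        2 * √((k : ℝ) / (Fintype.card V : ℝ)) * ‖Ph p (tau R r) ω (k + 4)‖ ∧
      (1 - cc b * ((N : ℝ) / (Fintype.card V : ℝ))) * ‖Ph p (tau R r) ω (k + 3)‖ ≤
        √((k : ℝ) / (Fintype.card V : ℝ)) * ‖Ph p (tau R r) ω (k + 4)‖ := by
  have hn0 : (0 : ℝ) < Fintype.card V := by exact_mod_cast Fintype.card_pos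
  refine seq_bound (fun k => ‖Ph p (tau R r) ω k‖) (Fintype.card V : ℝ) b hn0
    (by linarith [H.b_one]) (fun k => norm_nonneg _) ?_ N hN ?_
  · intro k hk
    have : k = 0 ∨ k = 1 ∨ k = 2 ∨ k = 3 := by omega
    rcases this with h | h | h | h <;> subst h <;> simp [Ph]
  · intro k
    exact nu_rec H.hca H.tau_diag H.tau_symm H.tau_row H.tau_l1 H.vac k

lemma Ph_ne [Nonempty V] (hω : ω ≠ 0) (N : ℕ)
    (hN : cc b * ((N : ℝ) / (Fintype.card V : ℝ)) ≤ 1 / 2) :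
    ∀ k, k ≤ N → Ph p (tau R r) ω (k + 4) ≠ 0 := by
  intro k
  induction k with
  | zero => intro _; exact hω
  | succ k ih =>
    intro hk h0
    have h1 := (H.seqs N hN (k + 1) hk).1
    have e : k + 1 + 3 = k + 4 := by omega
    rw [h0, norm_zero, mul_zero, e] at h1
    exact ih (by omega) (norm_eq_zero.1 (le_antisymm h1 (norm_nonneg _)))

/-- **the energy of the pair state** -/
theorem hc_energy [Nonempty V] (N : ℕ) (hN1 : 1 ≤ N)
    (hN : cc b * ((N : ℝ) / (Fintype.card V : ℝ)) ≤ 1 / 16) :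
    ∑ k, ε k * ‖M q (v k) (Ph p (tau R r) ω (N + 4))‖ ^ 2 ≤
      1 / (r * (Fintype.card V : ℝ)) * ((N : ℝ) * (N - 1)) *
        (1 + CH t₀ r b * √((N : ℝ) / (Fintype.card V : ℝ))) *
        ‖Ph p (tau R r) ω (N + 4)‖ ^ 2 := by
  set n : ℝ := (Fintype.card V : ℝ) with hn
  have hn0 : 0 < n := by rw [hn]; exact_mod_cast Fintype.card_pos
  have hr := H.rpos
  have hb := H.b_one
  have ht := H.t_nonneg
  have hN0 : (1 : ℝ) ≤ N := by exact_mod_cast hN1
  set ν : ℕ → ℝ := fun k => ‖Ph p (tau R r) ω k‖ with hν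
  have hν0 : ∀ k, 0 ≤ ν k := fun k => norm_nonneg _
  set y := √((N : ℝ) / n) with hy
  have hy0 : 0 < y := Real.sqrt_pos.2 (by positivity)
  have hy2 : y ^ 2 = (N : ℝ) / n := Real.sq_sqrt (by positivity)
  set x := cc b * ((N : ℝ) / n) with hx
  have hcc : 15 ≤ cc b := by unfold cc; nlinarith
  have hx0 : 0 ≤ x := by rw [hx]; positivity
  have hxy : x = cc b * y ^ 2 := by rw [hx, hy2]
  have hy1 : y ≤ 1 / 15 := by
    by_contra hcon
    push Not at hcon
    nlinarith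
  have key := H.kin_le N y hy0
  rw [← hn] at key
  change _ ≤ _ * ν (N + 2) ^ 2 + _ * (_ * (2 * b * ν (N + 1) + b ^ 2 * ν N) ^ 2) at key
  change _ ≤ _ * ν (N + 4) ^ 2
  have hseq := H.seqs N (by rw [← hn, ← hx]; linarith)
  rw [← hn, ← hx] at hseq
  have hmono : ∀ j : ℕ, j ≤ N → √((j : ℝ) / n) ≤ y := by
    intro j hj
    rw [hy]
    apply Real.sqrt_le_sqrt
    have : (j : ℝ) ≤ N := by exact_mod_cast hj
    gcongr
  have hCH : 0 ≤ CH t₀ r b := by unfold CH; positivity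
  by_cases hN2 : N = 1
  · subst hN2
    have z1 : ν (1 + 2) = 0 := by simp [hν, Ph]
    have z2 : ν (1 + 1) = 0 := by simp [hν, Ph]
    have z3 : ν 1 = 0 := by simp [hν, Ph]
    rw [z1, z2, z3] at key
    refine key.trans (le_of_eq ?_)
    push_cast
    ring
  have hN3 : 2 ≤ N := by omega
  have hN4 : (2 : ℝ) ≤ N := by exact_mod_cast hN3
  -- the norms
  have a3 : ν (N + 3) ≤ 2 * y * ν (N + 4) := (hseq N le_rfl).1
  have a2 : ν (N + 2) ≤ 2 * y * ν (N + 3) := by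
    obtain ⟨j, rfl⟩ : ∃ j, N = j + 1 := ⟨N - 1, by omega⟩
    have := (hseq j (by omega)).1
    have h1 := hmono j (by omega)
    have h2 := hν0 (j + 4)
    refine this.trans ?_
    change 2 * √((j : ℝ) / n) * ν (j + 4) ≤ 2 * y * ν (j + 4)
    gcongr
  have a1 : ν (N + 1) ≤ 2 * y * ν (N + 2) := by
    obtain ⟨j, rfl⟩ : ∃ j, N = j + 2 := ⟨N - 2, by omega⟩
    have := (hseq j (by omega)).1
    have h1 := hmono j (by omega)
    have h2 := hν0 (j + 4)
    refine this.trans ?_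
    change 2 * √((j : ℝ) / n) * ν (j + 4) ≤ 2 * y * ν (j + 4)
    gcongr
  have a0 : ν N ≤ 2 * y * ν (N + 1) := by
    by_cases h3 : N = 2
    · subst h3
      have : ν 2 = 0 := by simp [hν, Ph]
      rw [this]
      have := hν0 (2 + 1)
      positivity
    · obtain ⟨j, rfl⟩ : ∃ j, N = j + 3 := ⟨N - 3, by omega⟩
      have := (hseq j (by omega)).1
      have h1 := hmono j (by omega)
      have h2 := hν0 (j + 4)
      refine this.trans ?_
      change 2 * √((j : ℝ) / n) * ν (j + 4) ≤ 2 * y * ν (j + 4)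
      gcongr
  have n4 := hν0 (N + 4)
  have b2 : ν (N + 2) ≤ 4 * y ^ 2 * ν (N + 4) := by
    calc ν (N + 2) ≤ 2 * y * ν (N + 3) := a2
      _ ≤ 2 * y * (2 * y * ν (N + 4)) := by gcongr
      _ = _ := by ring
  have b1 : ν (N + 1) ≤ 8 * y ^ 3 * ν (N + 4) := by
    calc ν (N + 1) ≤ 2 * y * ν (N + 2) := a1
      _ ≤ 2 * y * (4 * y ^ 2 * ν (N + 4)) := by gcongr
      _ = _ := by ring
  have b0 : ν N ≤ 16 * y ^ 4 * ν (N + 4) := by
    calc ν N ≤ 2 * y * ν (N + 1) := a0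
      _ ≤ 2 * y * (8 * y ^ 3 * ν (N + 4)) := by gcongr
      _ = _ := by ring
  -- the sharp bound
  have c1 : (1 - x) ^ 2 * ν (N + 2) ≤ √(((N : ℝ) - 1) / n) * y * ν (N + 4) := by
    obtain ⟨j, rfl⟩ : ∃ j, N = j + 1 := ⟨N - 1, by omega⟩
    have d1 := (hseq j (by omega)).2
    have d2 := (hseq (j + 1) le_rfl).2
    have d3 : ((j + 1 : ℕ) : ℝ) - 1 = j := by push_cast; ring
    rw [d3]
    have d0 : 0 ≤ 1 - x := by linarith
    calc (1 - x) ^ 2 * ν (j + 1 + 2) = (1 - x) * ((1 - x) * ν (j + 3)) := by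
          rw [sq]; ring_nf
      _ ≤ (1 - x) * (√((j : ℝ) / n) * ν (j + 4)) := by gcongr
      _ = √((j : ℝ) / n) * ((1 - x) * ν (j + 1 + 3)) := by
          rw [show j + 1 + 3 = j + 4 by omega]; ring
      _ ≤ √((j : ℝ) / n) * (y * ν (j + 1 + 4)) := by gcongr
      _ = _ := by ring
  have c2 : (1 - x) ^ 4 * ν (N + 2) ^ 2 ≤ (N * (N - 1)) / n ^ 2 * ν (N + 4) ^ 2 := by
    have d0 : 0 ≤ (1 - x) ^ 2 * ν (N + 2) := by have := hν0 (N + 2); positivity
    have d1 : ((1 - x) ^ 2 * ν (N + 2)) ^ 2 ≤ (√(((N : ℝ) - 1) / n) * y * ν (N + 4)) ^ 2 := by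
      gcongr
    have d2 : (√(((N : ℝ) - 1) / n) * y * ν (N + 4)) ^ 2 =
        (N * (N - 1)) / n ^ 2 * ν (N + 4) ^ 2 := by
      rw [mul_pow, mul_pow, Real.sq_sqrt (by apply div_nonneg <;> linarith), hy2]
      field_simp
    rw [d2] at d1
    linarith
  have c3 : ν (N + 2) ^ 2 ≤ (1 + 8 * x) * ((N * (N - 1)) / n ^ 2 * ν (N + 4) ^ 2) := by
    have d1 : 1 ≤ (1 + 8 * x) * (1 - x) ^ 4 := by
      have d2 : 1 - 4 * x ≤ (1 - x) ^ 4 := by nlinarith [sq_nonneg x, sq_nonneg (x ^ 2 - 2 * x)]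
      have d3 : 1 ≤ (1 + 8 * x) * (1 - 4 * x) := by nlinarith
      calc (1 : ℝ) ≤ (1 + 8 * x) * (1 - 4 * x) := d3
        _ ≤ _ := by gcongr
    have d4 : 0 ≤ ν (N + 2) ^ 2 := by positivity
    calc ν (N + 2) ^ 2 = 1 * ν (N + 2) ^ 2 := by ring
      _ ≤ (1 + 8 * x) * (1 - x) ^ 4 * ν (N + 2) ^ 2 := by gcongr
      _ = (1 + 8 * x) * ((1 - x) ^ 4 * ν (N + 2) ^ 2) := by ring
      _ ≤ _ := by gcongr
  -- the main term
  set W := ν (N + 4) ^ 2 with hW
  have hW0 : 0 ≤ W := by positivity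
  set w := 1 / (r * n) * ((N : ℝ) * (N - 1)) with hw
  have hNN : 0 ≤ (N : ℝ) * (N - 1) := by nlinarith
  have hw0 : 0 ≤ w := by positivity
  have m1 : (1 + y) * (1 / r * (n + b * ((N : ℝ) - 2))) * ν (N + 2) ^ 2 ≤
      w * (1 + 14 * cc b * y) * W := by
    have d1 : n + b * ((N : ℝ) - 2) ≤ n * (1 + x) := by
      have : n * x = cc b * N := by rw [hx]; field_simp
      have e1 : b ≤ cc b := by unfold cc; nlinarith
      have e2 : b * ((N : ℝ) - 2) ≤ cc b * N := by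
        calc b * ((N : ℝ) - 2) ≤ b * N := by gcongr; linarith
          _ ≤ cc b * N := by gcongr
      linarith
    calc (1 + y) * (1 / r * (n + b * ((N : ℝ) - 2))) * ν (N + 2) ^ 2 ≤
        (1 + y) * (1 / r * (n * (1 + x))) * ((1 + 8 * x) * ((N * (N - 1)) / n ^ 2 * W)) := by
          gcongr
      _ = w * ((1 + y) * (1 + x) * (1 + 8 * x)) * W := by
          rw [hw]; field_simp
      _ ≤ _ := by
          have d2 : (1 + y) * (1 + x) * (1 + 8 * x) ≤ 1 + 14 * cc b * y := by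
            have f1 : x ≤ cc b * y * (1 / 15) := by rw [hxy]; nlinarith
            have f2 : (1 + x) * (1 + 8 * x) ≤ 1 + 10 * x := by nlinarith
            have f3 : (1 + y) * ((1 + x) * (1 + 8 * x)) ≤ (1 + y) * (1 + 10 * x) := by gcongr
            have f4 : y * x ≤ 1 / 15 * x := by gcongr
            have f5 : 15 * y ≤ cc b * y := by gcongr
            nlinarith
          gcongr
  -- the rest
  have m2 : (1 + 1 / y) * (t₀ * n * (2 * b * ν (N + 1) + b ^ 2 * ν N) ^ 2) ≤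
      w * (1024 * t₀ * r * b ^ 2 * (1 + b) ^ 2 * y) * W := by
    have d1 : 2 * b * ν (N + 1) + b ^ 2 * ν N ≤ 16 * b * (1 + b) * y ^ 3 * ν (N + 4) := by
      calc 2 * b * ν (N + 1) + b ^ 2 * ν N ≤
          2 * b * (8 * y ^ 3 * ν (N + 4)) + b ^ 2 * (16 * y ^ 4 * ν (N + 4)) := by gcongr
        _ = 16 * b * (1 + b * y) * y ^ 3 * ν (N + 4) := by ring
        _ ≤ 16 * b * (1 + b * 1) * y ^ 3 * ν (N + 4) := by
            gcongr; linarith
        _ = _ := by ring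
    have d0 : 0 ≤ 2 * b * ν (N + 1) + b ^ 2 * ν N := by
      have := hν0 (N + 1)
      have := hν0 N
      positivity
    have d2 : 1 + 1 / y ≤ 2 / y := by
      have e1 : 1 ≤ 1 / y := by rw [le_div_iff₀ hy0]; linarith
      have e2 : 2 / y = 1 / y + 1 / y := by ring
      rw [e2]; linarith
    have d3 : (N : ℝ) ^ 2 ≤ 2 * (N * (N - 1)) := by nlinarith
    calc (1 + 1 / y) * (t₀ * n * (2 * b * ν (N + 1) + b ^ 2 * ν N) ^ 2) ≤
        2 / y * (t₀ * n * (16 * b * (1 + b) * y ^ 3 * ν (N + 4)) ^ 2) := by gcongr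
      _ = 512 * t₀ * b ^ 2 * (1 + b) ^ 2 * y * n * (y ^ 2) ^ 2 * W := by
          rw [hW]; field_simp; ring
      _ = 512 * t₀ * b ^ 2 * (1 + b) ^ 2 * y / n * N ^ 2 * W := by
          rw [hy2]; field_simp
      _ ≤ 512 * t₀ * b ^ 2 * (1 + b) ^ 2 * y / n * (2 * (N * (N - 1))) * W := by gcongr
      _ = _ := by rw [hw]; field_simp; ring
  have m3 : w * (1 + CH t₀ r b * y) * W = w * (1 + 14 * cc b * y) * W +
      w * (1024 * t₀ * r * b ^ 2 * (1 + b) ^ 2 * y) * W := by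
    unfold CH; ring
  rw [m3]
  linarith

end HD

end Run7.h259.LHY
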