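import Pool.Agent.Run7.h259.LHY.Abs2

/-!
# The comparison with a general upper bound
-/

set_option autoImplicit false
set_option linter.unusedSectionVars false
set_option linter.unusedVariables false

noncomputable section

namespace Run7.h259.LHY

open Finset

variable {V : Type*} [Fintype V] [DecidableEq V]
variable {E : Type*} [NormedAddCommGroup E] [InnerProductSpace ℝ E]
variable {c d : V → E →ₗ[ℝ] E}

/-- the numbers -/
lemma numeric3 {g η P m E e₀ n X A δ : ℝ} (hg : 0 < g) (hn : 0 < n) (hη : 0 < η)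
    (hη8 : η ≤ 1 / 8) (hX0 : 0 ≤ X) (hX : X ≤ η ^ 2 * g) (hm0 : 0 ≤ m)
    (hA : A ≤ 12 * η ^ 2 * g * m)
    (hP : 0 ≤ P) (hδ : 0 ≤ δ)
    (h1 : (η * g - 2 * X) * P ≤ η * g * (m * (1 + 2 * η)) + A + δ * n)
    (h2 : η * g * (m * (1 - η)) ≤ (η * g + 2 * X) * P + A + δ * n)
    (h3 : e₀ - 2 * X * P ≤ E) (h4 : E ≤ e₀ + A + δ * n) :
    |P - m| ≤ 25 * η * m + 2 * δ / (η * g) * n ∧
    |E - e₀| ≤ 12 * η ^ 2 * g * m + δ * n := by
  set y := η * g with hy
  have hy0 : 0 < y := by positivity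
  have hXy : X ≤ η * y := by rw [hy]; linarith
  set D := δ * n with hD
  have hD0 : 0 ≤ D := by positivity
  have hym : 0 ≤ y * m := by positivity
  have hηym : 0 ≤ η * (y * m) := by positivity
  have a1 : A ≤ 12 * (η * (y * m)) := by
    calc A ≤ 12 * η ^ 2 * g * m := hA
      _ = _ := by rw [hy]; ring
  have a2 : X * P ≤ η * (y * P) := by
    calc X * P ≤ η * y * P := by gcongr
      _ = _ := by ring
  have hyP : 0 ≤ y * P := by positivity
  have a3 : η * (y * P) ≤ 1 / 8 * (y * P) := by gcongr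
  have a4 : η * (y * m) ≤ 1 / 8 * (y * m) := by gcongr
  have h1' : y * P - 2 * (X * P) ≤ y * m + 2 * (η * (y * m)) + A + D := by
    calc y * P - 2 * (X * P) = (y - 2 * X) * P := by ring
      _ ≤ _ := h1
      _ = _ := by ring
  have h2' : y * m - η * (y * m) ≤ y * P + 2 * (X * P) + A + D := by
    calc y * m - η * (y * m) = y * (m * (1 - η)) := by ring
      _ ≤ _ := h2
      _ = _ := by ring
  have a5 : y * P ≤ 11 / 3 * (y * m) + 4 / 3 * D := by linarith
  have a6 : η * (y * P) ≤ η * (11 / 3 * (y * m) + 4 / 3 * D) := by gcongr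
  have a7 : η * D ≤ 1 / 8 * D := by gcongr
  have a8 : η * (11 / 3 * (y * m) + 4 / 3 * D) = 11 / 3 * (η * (y * m)) + 4 / 3 * (η * D) := by ring
  refine ⟨?_, ?_⟩
  · have e1 : 25 * η * m + 2 * δ / (η * g) * n = (25 * (η * (y * m)) + 2 * D) / y := by
      rw [hD, ← hy]; field_simp
    rw [e1, abs_le]
    constructor
    · rw [neg_le, neg_sub, le_div_iff₀ hy0]
      have : (m - P) * y = y * m - y * P := by ring
      rw [this]
      linarith
    · rw [le_div_iff₀ hy0]
      have : (P - m) * y = y * P - y * m := by ring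
      rw [this]
      linarith
  · have e1 : 12 * η ^ 2 * g * m = 12 * (η * (y * m)) := by rw [hy]; ring
    rw [e1, abs_le]
    constructor
    · linarith
    · linarith

/-- **the depletion formula from an upper bound of the energy** -/
theorem main3 (h : CCR c d) {o : V} {v : V → V → ℝ} (b : Basis o v)
    (ε : V → ℝ) (g U r u η δ m X A : ℝ)
    (hg : 0 < g) (h0 : ε o = 0) (hε : ∀ k, k ≠ o → g ≤ ε k) (hU : 0 < U)
    (hr : r = 1 / (Fintype.card V : ℝ) * ∑ k ∈ univ.erase o, 1 / ε k) (hu : u = ueff U r)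
    (N : ℕ) (hN : 1 ≤ N) (hrpos : 0 < r)
    (hm : m = u ^ 2 * (N * (N - 1)) / (4 * (Fintype.card V : ℝ) ^ 2) * S2 o ε)
    (hη : 0 < η) (hη8 : η ≤ 1 / 8)
    (hXdef : X = 3 * N / (r * (Fintype.card V : ℝ))) (hX : X ≤ η ^ 2 * g)
    (hA : A ≤ 12 * η ^ 2 * g * m) (hδ : 0 ≤ δ)
    (φ₁ φ₂ : E) (hφ₁ : Sec c d N φ₁) (hφ₂ : Sec c d N φ₂) (hφ : ‖φ₁‖ ^ 2 + ‖φ₂‖ ^ 2 = 1)
    (hup : En c v ε U φ₁ + En c v ε U φ₂ ≤
      u / (2 * (Fintype.card V : ℝ)) * (N * (N - 1)) + A + δ * (Fintype.card V : ℝ)) :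
    |(Np c o φ₁ + Np c o φ₂) - m| ≤ 25 * η * m + 2 * δ / (η * g) * (Fintype.card V : ℝ) ∧
    |(En c v ε U φ₁ + En c v ε U φ₂) - u / (2 * (Fintype.card V : ℝ)) * (N * (N - 1))| ≤
      12 * η ^ 2 * g * m + δ * (Fintype.card V : ℝ) := by
  have lowμ : ∀ μ, μ < g → ueff U (rr o ε μ) / (2 * (Fintype.card V : ℝ)) * (N * (N - 1)) +
      (μ - ueff U (rr o ε μ) * N / (Fintype.card V : ℝ) -
        (ueff U (rr o ε μ) * N / (Fintype.card V : ℝ)) ^ 2 / (4 * (g - μ))) *
        (Np c o φ₁ + Np c o φ₂) ≤ En c v ε U φ₁ + En c v ε U φ₂ := by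
    intro μ hμ
    have hN1 : (1 : ℝ) ≤ N := by exact_mod_cast hN
    have a1 := lower h b hN1 hφ₁ ε g μ U _ _ hμ hU.le h0 hε (rfl : rr o ε μ = _) rfl
    have a2 := lower h b hN1 hφ₂ ε g μ U _ _ hμ hU.le h0 hε (rfl : rr o ε μ = _) rfl
    have a3 := add_le_add a1 a2
    refine le_trans (le_of_eq ?_) a3
    have : ‖φ₁‖ ^ 2 = 1 - ‖φ₂‖ ^ 2 := by linarith
    rw [this]; ring
  set n : ℝ := (Fintype.card V : ℝ) with hn
  have hn0 : 0 < n := by
    rw [hn]; exact_mod_cast Fintype.card_pos_iff.2 ⟨o⟩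
  have hr' : r = rr o ε 0 := by
    rw [hr]; unfold rr; simp only [sub_zero]; rw [← hn]
  have hr0 : 0 ≤ r := hrpos.le
  have hu0 : 0 ≤ u := by rw [hu]; exact ueff_nonneg hU.le hr0
  have hN0 : (1 : ℝ) ≤ N := by exact_mod_cast hN
  have hX0 : 0 ≤ X := by rw [hXdef]; positivity
  have hη2 : η ^ 2 ≤ 1 / 64 := by nlinarith
  have hη3 : η ^ 2 * g ≤ 1 / 64 * g := by gcongr
  have hXg8 : X ≤ g / 8 := by linarith
  set P := Np c o φ₁ + Np c o φ₂ with hP
  have hP0 : 0 ≤ P := add_nonneg (Np_nonneg _ _ _) (Np_nonneg _ _ _)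
  set EE := En c v ε U φ₁ + En c v ε U φ₂ with hEE
  have hS0 := S2_nonneg hg hε
  have hNN : 0 ≤ (N : ℝ) * (N - 1) := by nlinarith
  have hm0 : 0 ≤ m := by rw [hm]; positivity
  set s := η * g with hs
  have hs0 : 0 < s := by positivity
  have hsg : s ≤ g / 2 := by rw [hs]; nlinarith
  have hsg' : s < g := by linarith
  -- the effective couplings
  set us := ueff U (rr o ε s) with hus
  set um := ueff U (rr o ε (-s)) with hum
  have hrs0 : 0 ≤ rr o ε s := rr_nonneg hg hε hsg'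
  have hrm0 : 0 ≤ rr o ε (-s) := rr_nonneg hg hε (by linarith)
  have hus0 : 0 ≤ us := ueff_nonneg hU.le hrs0
  have hum0 : 0 ≤ um := ueff_nonneg hU.le hrm0
  have husu : us ≤ u := by
    rw [hu, hr']; exact ueff_anti hU.le (by rw [← hr']; exact hr0) (rr_mono hg hε hs0.le hsg')
  have humu : u ≤ um := by
    rw [hu, hr']; exact ueff_anti hU.le hrm0 (rr_mono' hg hε hs0.le)
  -- the resolvents
  have q1 : rr o ε s - r ≤ 1 / n * (s * (1 + 2 * η) * S2 o ε) := by
    rw [hr']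
    unfold rr S2
    have e9 : s * (1 + 2 * η) * ∑ k ∈ univ.erase o, 1 / ε k ^ 2 =
      ∑ k ∈ univ.erase o, s * (1 + 2 * η) * (1 / ε k ^ 2) := mul_sum _ _ _
    rw [← hn, ← mul_sub, ← sum_sub_distrib, e9]
    refine mul_le_mul_of_nonneg_left (sum_le_sum fun k hk => ?_) (by positivity)
    have h2 := hε k (ne_of_mem_erase hk)
    have h3' : 0 < ε k := by linarith
    have h5 : 0 < ε k - s := by linarith
    have e : 1 / (ε k - s) - 1 / (ε k - 0) = s * (ε k / (ε k - s)) * (1 / ε k ^ 2) := by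
      rw [sub_zero]; field_simp; ring
    rw [e]
    have h6 : ε k / (ε k - s) ≤ 1 + 2 * η := by
      rw [div_le_iff₀ h5]
      have : s ≤ η * ε k := by rw [hs]; gcongr
      nlinarith
    gcongr
  have q2 : 1 / n * (s * (1 - η) * S2 o ε) ≤ r - rr o ε (-s) := by
    rw [hr']
    unfold rr S2
    have e9 : s * (1 - η) * ∑ k ∈ univ.erase o, 1 / ε k ^ 2 =
      ∑ k ∈ univ.erase o, s * (1 - η) * (1 / ε k ^ 2) := mul_sum _ _ _
    rw [← hn, ← mul_sub, ← sum_sub_distrib, e9]
    refine mul_le_mul_of_nonneg_left (sum_le_sum fun k hk => ?_) (by positivity)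
    have h2 := hε k (ne_of_mem_erase hk)
    have h3' : 0 < ε k := by linarith
    have h5 : 0 < ε k + s := by linarith
    have e : 1 / (ε k - 0) - 1 / (ε k - -s) = s * (ε k / (ε k + s)) * (1 / ε k ^ 2) := by
      rw [sub_zero, sub_neg_eq_add]; field_simp; ring
    rw [e]
    have h6 : 1 - η ≤ ε k / (ε k + s) := by
      rw [le_div_iff₀ h5]
      have : s ≤ η * ε k := by rw [hs]; gcongr
      nlinarith
    gcongr
  -- a lower bound of the resolvent
  have q3 : 8 / 9 * r ≤ rr o ε (-s) := by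
    rw [hr']
    unfold rr
    rw [← hn, ← mul_assoc, mul_comm (8 / 9 : ℝ), mul_assoc, mul_sum]
    refine mul_le_mul_of_nonneg_left (sum_le_sum fun k hk => ?_) (by positivity)
    have h2 := hε k (ne_of_mem_erase hk)
    have h3' : 0 < ε k := by linarith
    rw [sub_zero, sub_neg_eq_add, mul_one_div, div_le_div_iff₀ h3' (by linarith)]
    have : s ≤ 1 / 8 * ε k := by
      calc s ≤ 1 / 8 * g := by rw [hs]; gcongr
        _ ≤ _ := by gcongr
    linarith
  have humr : um ≤ 3 / r := by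
    rw [hum, ueff, div_le_div_iff₀ (by positivity) hrpos]
    nlinarith [mul_pos hU hrpos]
  have b1 : u - us ≤ u ^ 2 / 2 * (1 / n * (s * (1 + 2 * η) * S2 o ε)) := by
    have e1 : u - us = u * us * (rr o ε s - r) / 2 := by
      rw [hu]; exact ueff_sub hU.le hr0 hrs0
    have e3 : 0 ≤ rr o ε s - r := by
      rw [hr']; linarith [rr_mono (o := o) hg hε hs0.le hsg']
    rw [e1]
    calc u * us * (rr o ε s - r) / 2 ≤
        u * u * (1 / n * (s * (1 + 2 * η) * S2 o ε)) / 2 := by gcongr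
      _ = _ := by ring
  have b2 : u ^ 2 / 2 * (1 / n * (s * (1 - η) * S2 o ε)) ≤ um - u := by
    have e1 : um - u = um * u * (r - rr o ε (-s)) / 2 := by
      rw [hu]; exact ueff_sub hU.le hrm0 hr0
    have e3 : 0 ≤ r - rr o ε (-s) := by
      rw [hr']; linarith [rr_mono' (o := o) hg hε hs0.le]
    rw [e1]
    calc u ^ 2 / 2 * (1 / n * (s * (1 - η) * S2 o ε)) ≤
        u ^ 2 / 2 * (r - rr o ε (-s)) := by gcongr
      _ = u * u * (r - rr o ε (-s)) / 2 := by ring
      _ ≤ um * u * (r - rr o ε (-s)) / 2 := by gcongr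
  set e₀ := u / (2 * n) * (N * (N - 1)) with he₀
  have coef : ∀ y : ℝ, 0 ≤ y → y ≤ um → ∀ a : ℝ, g / 2 ≤ a →
      y * N / n + (y * N / n) ^ 2 / (4 * a) ≤ 2 * X := by
    intro y hy hyU a ha
    have e1 : y * N / n ≤ X := by
      calc y * N / n ≤ 3 / r * N / n := by
            have := hyU.trans humr
            gcongr
        _ = X := by rw [hXdef]; field_simp
    have e0 : 0 ≤ y * N / n := by positivity
    have ha0 : 0 < a := by linarith
    have e2 : (y * N / n) ^ 2 / (4 * a) ≤ X ^ 2 / (4 * (g / 2)) := by gcongr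
    have e3 : X ^ 2 / (4 * (g / 2)) ≤ X := by
      rw [div_le_iff₀ (by positivity)]
      nlinarith
    linarith
  -- μ = s
  have l1 : (s - 2 * X) * P ≤ s * (m * (1 + 2 * η)) + A + δ * n := by
    have a1 := lowμ s hsg'
    rw [← hus] at a1
    have a2 := coef us hus0 (husu.trans humu) (g - s) (by linarith)
    have a3 : (s - 2 * X) * P ≤
        (s - us * N / n - (us * N / n) ^ 2 / (4 * (g - s))) * P :=
      mul_le_mul_of_nonneg_right (by linarith) hP0
    have a4 : u / (2 * n) * (N * (N - 1)) - us / (2 * n) * (N * (N - 1)) ≤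
        s * (m * (1 + 2 * η)) := by
      calc u / (2 * n) * (N * (N - 1)) - us / (2 * n) * (N * (N - 1)) =
          (N * (N - 1)) / (2 * n) * (u - us) := by ring
        _ ≤ (N * (N - 1)) / (2 * n) *
            (u ^ 2 / 2 * (1 / n * (s * (1 + 2 * η) * S2 o ε))) := by gcongr
        _ = _ := by rw [hm]; field_simp; ring
    linarith
  -- μ = -s
  have l2 : s * (m * (1 - η)) ≤ (s + 2 * X) * P + A + δ * n := by
    have a1 := lowμ (-s) (by linarith)
    rw [← hum] at a1
    have a2 := coef um hum0 le_rfl (g - -s) (by linarith)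
    have a3 : (-s - 2 * X) * P ≤
        (-s - um * N / n - (um * N / n) ^ 2 / (4 * (g - -s))) * P :=
      mul_le_mul_of_nonneg_right (by linarith) hP0
    have a4 : s * (m * (1 - η)) ≤
        um / (2 * n) * (N * (N - 1)) - u / (2 * n) * (N * (N - 1)) := by
      calc s * (m * (1 - η)) =
          (N * (N - 1)) / (2 * n) * (u ^ 2 / 2 * (1 / n * (s * (1 - η) * S2 o ε))) := by
            rw [hm]; field_simp; ring
        _ ≤ (N * (N - 1)) / (2 * n) * (um - u) := by gcongr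
        _ = _ := by ring
    linarith
  -- μ = 0
  have l3 : e₀ - 2 * X * P ≤ EE := by
    have a1 := lowμ 0 hg
    rw [← hr', ← hu, sub_zero] at a1
    have a2 := coef u hu0 humu g (by linarith)
    have a3 : (0 - 2 * X) * P ≤ (0 - u * N / n - (u * N / n) ^ 2 / (4 * g)) * P :=
      mul_le_mul_of_nonneg_right (by linarith) hP0
    linarith
  exact numeric3 hg hn0 hη hη8 hX0 hX hm0 hA hP0 hδ l1 l2 l3 hup

end Run7.h259.LHY
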