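import Pool.Agent.Run7.h259.LHY.Model
import Pool.Agent.Run7.h259.LHY.HC1

/-!
# The hard-core operators on the concrete Fock space

They act by the parity of the occupation number; on the configurations with at most one particle
at each site they are the creation and annihilation operators of hard-core bosons.
-/

set_option autoImplicit false
set_option linter.unusedSectionVars false
set_option linter.unusedVariables false

noncomputable section

namespace Run7.h259.LHY

open Finset

variable {V : Type*} [Fintype V] [DecidableEq V]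

/-- creation -/
def hP (x : V) : Fk V →ₗ[ℝ] Fk V :=
  Finsupp.linearCombination ℝ (fun m : V → ℕ => if Even (m x) then pt (m + ex x) 1 else 0)

/-- annihilation -/
def hQ (x : V) : Fk V →ₗ[ℝ] Fk V :=
  Finsupp.linearCombination ℝ (fun m : V → ℕ => if Even (m x) then 0 else pt (m - ex x) 1)

lemma hP_pt (x : V) (m : V → ℕ) (r : ℝ) :
    hP x (pt m r) = if Even (m x) then pt (m + ex x) r else 0 := by
  have : hP x (pt m r) = r • (if Even (m x) then pt (m + ex x) 1 else 0 : Fk V) :=
    Finsupp.linearCombination_single _ _ _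
  rw [this]
  split_ifs
  · rw [smul_pt, mul_one]
  · rw [smul_zero]

lemma hQ_pt (x : V) (m : V → ℕ) (r : ℝ) :
    hQ x (pt m r) = if Even (m x) then 0 else pt (m - ex x) r := by
  have : hQ x (pt m r) = r • (if Even (m x) then 0 else pt (m - ex x) 1 : Fk V) :=
    Finsupp.linearCombination_single _ _ _
  rw [this]
  split_ifs
  · rw [smul_zero]
  · rw [smul_pt, mul_one]

lemma add_ex_self (m : V → ℕ) (x : V) : (m + ex x) x = m x + 1 := by
  simp [ex]

lemma sub_ex_self (m : V → ℕ) (x : V) : (m - ex x) x = m x - 1 := by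
  simp [ex]

lemma add_ex_ne (m : V → ℕ) {x y : V} (h : x ≠ y) : (m + ex x) y = m y := by
  simp only [Pi.add_apply, ex, Pi.single_eq_of_ne (Ne.symm h), add_zero]

lemma sub_ex_ne (m : V → ℕ) {x y : V} (h : x ≠ y) : (m - ex x) y = m y := by
  simp only [Pi.sub_apply, ex, Pi.single_eq_of_ne (Ne.symm h), tsub_zero]

lemma val_hQ (x : V) (φ : Fk V) (m : V → ℕ) :
    val (hQ x φ) m = if Even (m x) then val φ (m + ex x) else 0 := by
  refine Fk_induction (p := fun φ => val (hQ x φ) m =
    if Even (m x) then val φ (m + ex x) else 0) φ ?_ ?_ ?_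
  · rw [map_zero, val_zero, val_zero]; simp
  · intro φ χ h1 h2
    rw [map_add, val_add, val_add, h1, h2]
    split_ifs <;> ring
  · intro q r
    rw [hQ_pt]
    by_cases hq : Even (q x)
    · rw [if_pos hq, val_zero, val_pt]
      split_ifs with h1 h2
      · exfalso
        rw [h2, add_ex_self] at hq
        exact (Nat.even_add_one.1 hq) h1
      · rfl
      · rfl
    · rw [if_neg hq, val_pt, val_pt]
      have hq0 : ¬ q x = 0 := fun h => hq (by rw [h]; exact Even.zero)
      by_cases h2 : q = m + ex x
      · have h3 : q - ex x = m := by rw [h2, add_tsub_cancel_right]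
        have h4 : Even (m x) := by
          rw [h2, add_ex_self, Nat.even_add_one, not_not] at hq
          exact hq
        rw [if_pos h3, if_pos h4, if_pos h2]
      · have h3 : ¬ q - ex x = m := by
          intro h3
          apply h2
          rw [← h3]
          exact (tsub_add_cancel_of_le (ex_le hq0)).symm
        rw [if_neg h3, if_neg h2]; simp

lemma val_hP (x : V) (φ : Fk V) (m : V → ℕ) :
    val (hP x φ) m = if Even (m x) then 0 else val φ (m - ex x) := by
  refine Fk_induction (p := fun φ => val (hP x φ) m =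
    if Even (m x) then 0 else val φ (m - ex x)) φ ?_ ?_ ?_
  · rw [map_zero, val_zero, val_zero]; simp
  · intro φ χ h1 h2
    rw [map_add, val_add, val_add, h1, h2]
    split_ifs <;> ring
  · intro q r
    rw [hP_pt]
    by_cases hq : Even (q x)
    · rw [if_pos hq, val_pt, val_pt]
      by_cases h2 : q + ex x = m
      · have h3 : q = m - ex x := by rw [← h2, add_tsub_cancel_right]
        have h4 : ¬ Even (m x) := by
          rw [← h2, add_ex_self, Nat.even_add_one, not_not]
          exact hq
        rw [if_pos h2, if_neg h4, if_pos h3]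
      · rw [if_neg h2]
        split_ifs with h4 h5
        · rfl
        · exfalso
          apply h2
          rw [h5]
          exact tsub_add_cancel_of_le (ex_le (fun h => h4 (by rw [h]; exact Even.zero)))
        · rfl
    · rw [if_neg hq, val_zero, val_pt]
      split_ifs with h1 h2
      · rfl
      · exfalso
        rw [h2, sub_ex_self] at hq
        have h3 : m x ≠ 0 := fun h => h1 (by rw [h]; exact Even.zero)
        obtain ⟨j, hj⟩ := Nat.exists_eq_succ_of_ne_zero h3
        rw [hj] at hq h1
        simp only [Nat.succ_eq_add_one, add_tsub_cancel_right] at hq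
        rw [Nat.succ_eq_add_one, Nat.even_add_one, not_not] at h1
        exact hq h1
      · rfl

theorem hcaF : HCA (hQ (V := V)) hP := by
  refine ⟨?_, ?_, ?_, ?_, ?_⟩
  · intro x φ χ
    rw [inner_F, inner_F]
    refine Fk_induction (p := fun φ => ipF (hP x φ) χ = ipF φ (hQ x χ)) φ ?_ ?_ ?_
    · rw [map_zero, ipF_zero, ipF_zero]
    · intro φ φ' h1 h2
      rw [map_add, ipF_add, ipF_add, h1, h2]
    · intro p r
      rw [hP_pt, ipF_pt, val_hQ]
      split_ifs
      · rw [ipF_pt]
      · rw [ipF_zero, mul_zero]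
  · intro x y φ hxy
    refine Fk_ext fun m => ?_
    rw [val_hQ, val_hP, val_hP, val_hQ, add_ex_ne m hxy, sub_ex_ne m (Ne.symm hxy)]
    by_cases h1 : Even (m x)
    · rw [if_pos h1]
      by_cases h2 : Even (m y)
      · rw [if_pos h2, if_pos h2]
      · rw [if_neg h2, if_neg h2, if_pos h1]
        congr 1
        funext z
        simp only [Pi.add_apply, Pi.sub_apply]
        have h0 : m y ≠ 0 := fun h => h2 (by rw [h]; exact Even.zero)
        by_cases hz : z = y
        · subst hz
          simp only [ex, Pi.single_eq_same, Pi.single_eq_of_ne (Ne.symm hxy)]; omega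
        · simp only [ex, Pi.single_eq_of_ne hz]; omega
    · rw [if_neg h1, if_neg h1]; simp
  · intro x φ
    refine Fk_ext fun m => ?_
    have e3 : ∀ χ χ' : Fk V, val (χ - χ') m = val χ m - val χ' m := by
      intro χ χ'
      rw [sub_eq_add_neg, val_add, ← neg_one_smul ℝ, val_smul]; ring
    rw [e3, val_hQ, val_hP, val_hP, val_hQ, add_ex_self, sub_ex_self]
    by_cases h1 : Even (m x)
    · rw [if_pos h1, if_neg (by rw [Nat.even_add_one, not_not]; exact h1), if_pos h1,
        add_tsub_cancel_right, sub_zero]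
    · have h0 : m x ≠ 0 := fun h => h1 (by rw [h]; exact Even.zero)
      have h2 : Even (m x - 1) := by
        obtain ⟨j, hj⟩ := Nat.exists_eq_succ_of_ne_zero h0
        rw [hj] at h1 ⊢
        rw [Nat.succ_eq_add_one, Nat.even_add_one, not_not] at h1
        simpa using h1
      rw [if_neg h1, if_neg h1, if_pos h2, tsub_add_cancel_of_le (ex_le h0)]
      ring
  · intro x y φ
    by_cases hxy : x = y
    · rw [hxy]
    refine Fk_ext fun m => ?_
    rw [val_hP, val_hP, val_hP, val_hP, sub_ex_ne m hxy, sub_ex_ne m (Ne.symm hxy)]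
    have : m - ex x - ex y = m - ex y - ex x := by
      funext z
      simp only [Pi.sub_apply]
      omega
    rw [this]
    split_ifs <;> rfl
  · intro x φ
    refine Fk_ext fun m => ?_
    rw [val_hP, val_hP, sub_ex_self, val_zero]
    by_cases h1 : Even (m x)
    · rw [if_pos h1]
    · have h0 : m x ≠ 0 := fun h => h1 (by rw [h]; exact Even.zero)
      have h2 : Even (m x - 1) := by
        obtain ⟨j, hj⟩ := Nat.exists_eq_succ_of_ne_zero h0
        rw [hj] at h1 ⊢
        rw [Nat.succ_eq_add_one, Nat.even_add_one, not_not] at h1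
        simpa using h1
      rw [if_neg h1, if_pos h2]

/-- the vectors on the configurations with at most one particle at each site -/
def HCS (V : Type*) [Fintype V] [DecidableEq V] : Submodule ℝ (Fk V) where
  carrier := {φ | ∀ m : V → ℕ, (∃ x, 1 < m x) → val φ m = 0}
  add_mem' := by
    intro φ χ h1 h2 m hm
    rw [val_add, h1 m hm, h2 m hm, add_zero]
  zero_mem' := fun m _ => val_zero m
  smul_mem' := by
    intro r φ h1 m hm
    rw [val_smul, h1 m hm, mul_zero]

lemma mem_HCS (φ : Fk V) : φ ∈ HCS V ↔ ∀ m : V → ℕ, (∃ x, 1 < m x) → val φ m = 0 := Iff.rfl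

lemma vac_HCS : vacF ∈ HCS V := by
  rw [mem_HCS]
  rintro m ⟨x, hx⟩
  rw [vacF, val_pt, if_neg]
  intro h
  have := congrFun h x
  simp only [Pi.zero_apply] at this
  omega

lemma hP_HCS (x : V) (φ : Fk V) (h : φ ∈ HCS V) : hP x φ ∈ HCS V := by
  rw [mem_HCS] at h ⊢
  rintro m ⟨y, hy⟩
  rw [val_hP]
  split_ifs with h1
  · rfl
  · by_cases hxy : x = y
    · subst hxy
      refine h _ ⟨x, ?_⟩
      rw [sub_ex_self]
      have h2 : m x ≠ 2 := fun h2 => h1 (by rw [h2]; exact even_two)
      omega
    · refine h _ ⟨y, ?_⟩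
      rw [sub_ex_ne m hxy]; exact hy

/-- on hard-core vectors `a_x` is the hard-core annihilation -/
lemma aF_eq_hQ (x : V) (φ : Fk V) (h : φ ∈ HCS V) : aF x φ = hQ x φ := by
  rw [mem_HCS] at h
  refine Fk_ext fun m => ?_
  rw [val_aF, val_hQ]
  by_cases h0 : m x = 0
  · rw [h0, if_pos Even.zero]; simp
  · have h2 : val φ (m + ex x) = 0 := h _ ⟨x, by rw [add_ex_self]; omega⟩
    rw [h2, mul_zero]; simp

/-- no double occupation -/
lemma aa_HCS (x : V) (φ : Fk V) (h : φ ∈ HCS V) : aF x (aF x φ) = 0 := by
  rw [mem_HCS] at h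
  refine Fk_ext fun m => ?_
  rw [val_aF, val_aF, val_zero, h _ ⟨x, ?_⟩, mul_zero, mul_zero]
  rw [add_ex_self, add_ex_self]; omega

lemma hQ_vac (x : V) : hQ x vacF = 0 := by
  rw [← aF_eq_hQ x _ vac_HCS, aF_vac]

/-- the sectors agree -/
lemma sec_hc {N : ℝ} {φ : Fk V} (h : φ ∈ HCS V) (hφ : Sec hQ hP N φ) : Sec aF dF N φ := by
  have e : ∀ x, dF x (aF x φ) = hP x (hQ x φ) := by
    intro x
    rw [mem_HCS] at h
    refine Fk_ext fun m => ?_
    rw [val_nF, val_hP]
    by_cases h0 : m x = 0
    · rw [h0, if_pos Even.zero]; simp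
    · by_cases h1 : m x = 1
      · rw [h1, if_neg (by decide), val_hQ, sub_ex_self, h1, if_pos (by decide),
          tsub_add_cancel_of_le (ex_le h0)]
        simp
      · have h2 : val φ m = 0 := h m ⟨x, by omega⟩
        rw [h2, mul_zero]
        split_ifs with h3
        · rfl
        · rw [val_hQ]
          split_ifs
          · rw [tsub_add_cancel_of_le (ex_le h0), h2]
          · rfl
  unfold Sec at hφ ⊢
  simp_rw [e]
  exact hφ

end Run7.h259.LHY
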