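import Pool.Agent.Run7.h259.LHY.HC4
import Pool.Agent.Run7.h259.LHY.HC5
import Pool.Agent.Run7.h259.LHY.HCF
import Pool.Agent.Run7.h259.LHY.Final2

/-!
# Strong repulsion and hard-core bosons
-/

set_option autoImplicit false
set_option linter.unusedSectionVars false
set_option linter.unusedVariables false

noncomputable section

namespace Run7.h259.LHY

open Finset Filter Topology

variable {V : Type*} [Fintype V] [DecidableEq V]

/-- hard-core wave functions: at most one particle at each site -/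
def IsHardCore (ψ : (V → ℕ) → ℂ) : Prop := ∀ m : V → ℕ, (∃ x, 1 < m x) → ψ m = 0

/-- the predicted number of excited hard-core particles -/
def predictedHC (R : V → V → ℝ) (N : ℕ) : ℝ :=
  (1 / diagMean R) ^ 2 * ((N : ℝ) * (N - 1)) / (Fintype.card V : ℝ) ^ 2 * ∑ x, ∑ y, R x y ^ 2

section

variable {o : V} {v : V → V → ℝ} {ε : V → ℝ} {g : ℝ} {T R : V → V → ℝ}

lemma diagMean_const [Nonempty V] {R : V → V → ℝ} {r : ℝ} (hr : ∀ x, R x x = r) :
    diagMean R = r := by
  have hn0 : (0 : ℝ) < Fintype.card V := by exact_mod_cast Fintype.card_pos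
  unfold diagMean
  simp only [hr, sum_const, card_univ, nsmul_eq_mul]
  field_simp

/-- a hard-core trial state -/
theorem hc_trial [Nonempty V] (hg : 0 < g) (hT : IsHopping g T) (hR : IsGreen T R)
    (b : Basis o v) (hε0 : ε o = 0) (hε : ∀ k, k ≠ o → g ≤ ε k)
    (h3 : ∀ j x, ∑ y, T x y * v j y = ε j * v j x) (t₀ r B : ℝ)
    (ht : ∀ f : V → ℝ, ∑ x, ∑ y, T x y * (f x * f y) ≤ t₀ * ∑ x, f x ^ 2)
    (hr0 : 0 < r) (hr : ∀ x, R x x = r) (hB : ∀ x, ∑ y, |R x y| ≤ B * r)
    (N : ℕ) (hN1 : 1 ≤ N) (hN : cc B * ((N : ℝ) / (Fintype.card V : ℝ)) ≤ 1 / 16) (U : ℝ) :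
    ∃ Ψ : Fk V, ‖Ψ‖ = 1 ∧ Sec aF dF N Ψ ∧ Ψ ∈ HCS V ∧
      En (fun k => M aF (v k)) v ε U Ψ ≤ 1 / (r * (Fintype.card V : ℝ)) * ((N : ℝ) * (N - 1)) *
        (1 + CH t₀ r B * √((N : ℝ) / (Fintype.card V : ℝ))) := by
  have H : HD (hQ (V := V)) hP o v ε R g t₀ r B vacF := by
    refine ⟨hcaF, b, hg, hε0, hε, ?_, ?_, hr0, hr, hB, hQ_vac⟩
    · intro k
      have e1 := ht (v k)
      have e3 : ∑ x, v k x ^ 2 = 1 := by
        have := b.orth k k
        rw [if_pos rfl] at this
        rw [← this]; exact sum_congr rfl fun x _ => sq _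
      have e4 : ∑ x, ∑ y, T x y * (v k x * v k y) = ε k := by
        calc ∑ x, ∑ y, T x y * (v k x * v k y) = ∑ x, v k x * ∑ y, T x y * v k y := by
              refine sum_congr rfl fun x _ => ?_
              rw [mul_sum]; exact sum_congr rfl fun y _ => by ring
          _ = ε k * ∑ x, v k x ^ 2 := by
              rw [mul_sum]
              exact sum_congr rfl fun x _ => by rw [h3]; ring
          _ = ε k := by rw [e3, mul_one]
      rw [e3, e4, mul_one] at e1
      exact e1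
    · intro k z
      exact green_coef hg hT hR b hε0 hε h3 k z
  set Φ := Ph hP (tau R r) vacF (N + 4) with hΦ
  have h1 : Φ ≠ 0 := H.Ph_ne vacF_ne N (by linarith) N le_rfl
  have h2 : Φ ∈ HCS V := Ph_mem (HCS V) vac_HCS hP_HCS _
  have h4 := H.hc_energy N hN1 hN
  rw [← hΦ] at h4
  have h5 : Sec aF dF N Φ := by
    refine sec_hc h2 ?_
    have := sec_Ph hcaF (τ := tau R r) hQ_vac (N + 4)
    have e : (((N + 4 : ℕ) : ℝ) - 4) = N := by push_cast; ring
    rwa [e] at this
  have h6 : En (fun k => M aF (v k)) v ε U Φ = ∑ k, ε k * ‖M hQ (v k) Φ‖ ^ 2 := by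
    unfold En
    have e1 : ∀ x, A (fun k => M aF (v k)) v x (A (fun k => M aF (v k)) v x Φ) = 0 := by
      intro x
      rw [A_modes b, A_modes b, aa_HCS x _ h2]
    simp only [e1, norm_zero]
    have e2 : ∀ k, M aF (v k) Φ = M hQ (v k) Φ := by
      intro k
      rw [M_apply, M_apply]
      exact sum_congr rfl fun x _ => by rw [aF_eq_hQ x _ h2]
    simp only [e2]
    simp
  have h7 : 0 < ‖Φ‖ := norm_pos_iff.2 h1
  refine ⟨(‖Φ‖)⁻¹ • Φ, ?_, h5.smul _, (HCS V).smul_mem _ h2, ?_⟩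
  · rw [norm_smul, norm_inv, norm_norm, inv_mul_cancel₀ h7.ne']
  · rw [En_smul, inv_pow, inv_mul_le_iff₀ (by positivity), mul_comm, h6]
    exact h4

end

/-- **strong repulsion** -/
theorem strong [Nonempty V] (g t₀ r B : ℝ) (hg : 0 < g) (T R : V → V → ℝ)
    (hT : IsHopping g T) (hR : IsGreen T R)
    (ht : ∀ f : V → ℝ, ∑ x, ∑ y, T x y * (f x * f y) ≤ t₀ * ∑ x, f x ^ 2)
    (hr0 : 0 < r) (hr : ∀ x, R x x = r) (hB : ∀ x, ∑ y, |R x y| ≤ B * r)
    (U η δ : ℝ) (N : ℕ) (hU : 0 < U) (hN : 1 ≤ N)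
    (hη : 0 < η) (hη8 : η ≤ 1 / 8) (hδ : 0 ≤ δ)
    (hsmall : CH t₀ r B * √((N : ℝ) / (Fintype.card V : ℝ)) + 1 / (1 + U * r / 2) ≤
      6 * η ^ 2 * (g * r))
    (ψ : (V → ℕ) → ℂ) (hψ : IsState N ψ)
    (hmin : ∀ χ : (V → ℕ) → ℂ, IsState N χ → IsHardCore χ →
      energy T U N ψ ≤ energy T U N χ + δ * (Fintype.card V : ℝ)) :
    |((N : ℝ) - condensate N ψ) - predicted U R N| ≤
      25 * η * predicted U R N + 2 * δ / (η * g) * (Fintype.card V : ℝ) ∧
    |energy T U N ψ - coupling U R / (2 * (Fintype.card V : ℝ)) * (N * (N - 1))| ≤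
      12 * η ^ 2 * g * predicted U R N + δ * (Fintype.card V : ℝ) := by
  obtain ⟨o, v, ε, b, hε0, hε, h3⟩ := exists_basis hg hT
  have hsec : ∀ φ : Fk V, Sec (fun k => M aF (v k)) (fun k => M dF (v k)) N φ ↔
      Sec aF dF N φ := by
    intro φ
    unfold Sec
    rw [sec_modes b]
  set n : ℝ := (Fintype.card V : ℝ) with hn
  have hn0 : 0 < n := by rw [hn]; exact_mod_cast Fintype.card_pos
  have hN0 : (1 : ℝ) ≤ N := by exact_mod_cast hN
  have hdm : diagMean R = r := diagMean_const hr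
  have hB1 : 1 ≤ B := by
    have h1 : |R o o| ≤ ∑ y, |R o y| := single_le_sum (f := fun y => |R o y|)
      (fun _ _ => abs_nonneg _) (mem_univ o)
    rw [hr, abs_of_pos hr0] at h1
    have := h1.trans (hB o)
    by_contra hcon
    push Not at hcon
    nlinarith
  have hcc : 15 ≤ cc B := by unfold cc; nlinarith
  have ht0 : 0 ≤ t₀ := by
    have := ht (v o)
    have e3 : ∑ x, v o x ^ 2 = 1 := by
      have := b.orth o o
      rw [if_pos rfl] at this
      rw [← this]; exact sum_congr rfl fun x _ => sq _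
    have e4 : ∑ x, ∑ y, T x y * (v o x * v o y) = 0 := by
      refine sum_eq_zero fun x _ => ?_
      have : ∀ y, T x y * (v o x * v o y) = v o x ^ 2 * T x y := fun y => by
        rw [b.const y x]; ring
      simp only [this, ← mul_sum, hT.const, mul_zero]
    rw [e3, e4, mul_one] at this
    exact this
  set y := √((N : ℝ) / n) with hy
  have hy0 : 0 < y := Real.sqrt_pos.2 (by positivity)
  have hy2 : y ^ 2 = (N : ℝ) / n := Real.sq_sqrt (by positivity)
  -- the trace
  have htr := green_trace hg hT hR b hε0 hε h3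
  rw [hdm] at htr
  have hgr : g * r ≤ 1 := by
    have hεp : ∀ k, k ≠ o → 0 < ε k := fun k hk => lt_of_lt_of_le hg (hε k hk)
    have h1 : ∑ k ∈ univ.erase o, 1 / ε k ≤ ∑ k ∈ univ.erase o, 1 / g :=
      sum_le_sum fun k hk => one_div_le_one_div_of_le hg (hε k (ne_of_mem_erase hk))
    rw [sum_const, nsmul_eq_mul, mul_one_div] at h1
    have h2 : ((univ.erase o : Finset V).card : ℝ) ≤ n := by
      rw [hn]
      exact_mod_cast (card_le_card (erase_subset _ _)).trans (le_of_eq card_univ)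
    rw [htr, ← hn]
    calc g * (1 / n * ∑ k ∈ univ.erase o, 1 / ε k) ≤ g * (1 / n * (n / g)) := by
          have : ((univ.erase o : Finset V).card : ℝ) / g ≤ n / g := by gcongr
          gcongr
          linarith
      _ = 1 := by field_simp
  have hgr0 : 0 < g * r := by positivity
  have hη2 : η ^ 2 ≤ 1 / 64 := by nlinarith
  set z := η ^ 2 * (g * r) with hz
  have hz0 : 0 < z := by positivity
  have hz1 : z ≤ 1 / 64 := by
    calc z ≤ 1 / 64 * 1 := by rw [hz]; gcongr
      _ = _ := by ring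
  set κ := 1 / (1 + U * r / 2) with hκ
  have hκ0 : 0 < κ := by rw [hκ]; positivity
  have hCH : 14 * cc B ≤ CH t₀ r B := by
    unfold CH
    have : 0 ≤ 1024 * t₀ * r * B ^ 2 * (1 + B) ^ 2 := by positivity
    linarith
  have hsm : CH t₀ r B * y + κ ≤ 6 * z := by
    calc _ ≤ _ := hsmall
      _ = _ := by rw [hz]; ring
  have hccy : 14 * cc B * y ≤ 6 * z := by
    have : 14 * cc B * y ≤ CH t₀ r B * y := by gcongr
    linarith
  have hy15 : 210 * y ≤ 6 * z := by
    have : 210 * y ≤ 14 * cc B * y := by gcongr; linarith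
    linarith
  have hcc16 : cc B * ((N : ℝ) / n) ≤ 1 / 16 := by
    rw [← hy2]
    have e1 : cc B * y ≤ 1 / 16 := by linarith
    have e2 : y ≤ 1 := by linarith
    calc cc B * y ^ 2 = (cc B * y) * y := by ring
      _ ≤ 1 / 16 * 1 := by gcongr
      _ = _ := by ring
  obtain ⟨Ψ, hΨ1, hΨ2, hΨ3, hΨ4⟩ := hc_trial hg hT hR b hε0 hε h3 t₀ r B ht hr0 hr hB N hN
    (by rw [← hn]; exact hcc16) U
  rw [← hn, ← hy] at hΨ4
  -- the energy of the trial state
  have hup : energy T U N ψ ≤ 1 / (r * n) * ((N : ℝ) * (N - 1)) * (1 + CH t₀ r B * y) + δ * n := by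
    set χ : (V → ℕ) → ℂ := fun m => (val Ψ m : ℂ) with hχ
    have e1 : (toF N fun m => (χ m).re) = Ψ := by
      refine Fk_ext fun m => ?_
      rw [val_toF]
      split_ifs with hm
      · simp [hχ]
      · exact ((sec_iff N Ψ).1 hΨ2 m (by rwa [mem_conf] at hm)).symm
    have e2 : (toF N fun m => (χ m).im) = (0 : Fk V) := by
      refine Fk_ext fun m => ?_
      rw [val_toF]
      split_ifs with hm
      · simp [hχ, val_zero]
      · simp [val_zero]
    have e3 : IsState N χ := by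
      rw [isState_iff, e1, e2, hΨ1, norm_zero]; norm_num
    have e4 : IsHardCore χ := by
      intro m hm
      simp only [hχ]
      rw [(mem_HCS Ψ).1 hΨ3 m hm]; simp
    have e5 := hmin χ e3 e4
    rw [energy_eq b h3 U hN χ, e1, e2] at e5
    have e6 : En (fun k => M aF (v k)) v ε U (0 : Fk V) = 0 := by
      have := En_smul (c := fun k => M aF (v k)) v ε U 0 (0 : Fk V)
      rw [zero_smul] at this
      rw [this]; ring
    rw [e6, add_zero] at e5
    linarith
  have hu : coupling U R = ueff U r := by unfold coupling ueff; rw [hdm]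
  have huκ : coupling U R = 2 / r * (1 - κ) := by
    rw [hu, ueff, hκ]; field_simp; ring
  have hm : predicted U R N = coupling U R ^ 2 * (N * (N - 1)) / (4 * n ^ 2) *
      S2 o ε := by
    rw [← green_sq hg hT hR b hε0 hε h3]; rfl
  have hNN : 0 ≤ (N : ℝ) * (N - 1) := by nlinarith
  -- the predicted number is not small
  have hmlow : (N : ℝ) * (N - 1) / (2 * n) ≤ predicted U R N := by
    have e1 : n * r ^ 2 ≤ S2 o ε := by
      rw [← green_sq hg hT hR b hε0 hε h3]
      have : ∑ x : V, r ^ 2 ≤ ∑ x, ∑ y, R x y ^ 2 := by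
        refine sum_le_sum fun x _ => ?_
        rw [← hr x]
        exact single_le_sum (f := fun y => R x y ^ 2) (fun _ _ => by positivity) (mem_univ x)
      rw [sum_const, card_univ, nsmul_eq_mul, ← hn] at this
      exact this
    have e2 : κ ≤ 1 / 4 := by
      have : 0 ≤ CH t₀ r B * y := by
        have : 0 ≤ CH t₀ r B := by linarith
        positivity
      linarith
    have e3 : 1 / 2 ≤ (1 - κ) ^ 2 := by nlinarith
    rw [hm, huκ]
    calc (N : ℝ) * (N - 1) / (2 * n) = (2 / r) ^ 2 * (1 / 2) * (N * (N - 1)) / (4 * n ^ 2) *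
          (n * r ^ 2) := by field_simp; ring
      _ ≤ (2 / r) ^ 2 * (1 - κ) ^ 2 * (N * (N - 1)) / (4 * n ^ 2) * S2 o ε := by gcongr
      _ = _ := by ring
  have key := main3 (ccr_modes (ccrF (V := V)) b) b ε g U r (coupling U R) η δ (predicted U R N)
    (3 * N / (r * n)) (1 / (r * n) * ((N : ℝ) * (N - 1)) * (CH t₀ r B * y + κ))
    hg hε0 hε hU htr hu N hN hr0 hm hη hη8 (by rw [← hn]) (by
      have e1 : 3 * (N : ℝ) / (r * n) = 3 * y ^ 2 / r := by rw [hy2]; field_simp
      rw [e1, div_le_iff₀ hr0]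
      have e2 : η ^ 2 * g * r = z := by rw [hz]; ring
      rw [e2]
      have e3 : y ≤ 1 := by linarith
      nlinarith) (by
      have e1 : (1 / (r * n) * ((N : ℝ) * (N - 1)) * (CH t₀ r B * y + κ)) ≤
          1 / (r * n) * ((N : ℝ) * (N - 1)) * (6 * z) := by gcongr
      refine e1.trans ?_
      have e2 : 1 / (r * n) * ((N : ℝ) * (N - 1)) * (6 * z) =
          12 * η ^ 2 * g * ((N : ℝ) * (N - 1) / (2 * n)) := by
        rw [hz]; field_simp; ring
      rw [e2]
      gcongr) hδ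
    (toF N fun m => (ψ m).re) (toF N fun m => (ψ m).im)
    ((hsec _).2 (sec_toF N _)) ((hsec _).2 (sec_toF N _)) ((isState_iff N ψ).1 hψ) (by
      rw [← energy_eq b h3 U hN, ← hn]
      refine hup.trans (le_of_eq ?_)
      rw [huκ]
      field_simp
      ring)
  rw [← energy_eq b h3 U hN, Np_eq b hN ψ hψ] at key
  exact key

end Run7.h259.LHY
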