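import Pool.Agent.Run7.h259.LHY.HC6

/-!
# All repulsions, including the hard core, in the dilute limit
-/

set_option autoImplicit false
set_option linter.unusedSectionVars false
set_option linter.unusedVariables false

noncomputable section

namespace Run7.h259.LHY

open Finset Filter Topology

variable {V : Type*} [Fintype V] [DecidableEq V]

lemma energy_hc (T : V → V → ℝ) (U : ℝ) (N : ℕ) (ψ : (V → ℕ) → ℂ) (h : IsHardCore ψ) :
    energy T U N ψ = energy T 0 N ψ := by
  unfold energy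
  rw [zero_div, zero_mul, add_zero]
  have : ∑ m ∈ conf V N, (∑ x, (m x : ℝ) * ((m x : ℝ) - 1)) * ‖ψ m‖ ^ 2 = 0 := by
    refine sum_eq_zero fun m _ => ?_
    by_cases hm : ∃ x, 1 < m x
    · rw [h m hm, norm_zero]; ring
    · push Not at hm
      have : ∑ x, (m x : ℝ) * ((m x : ℝ) - 1) = 0 := by
        refine sum_eq_zero fun x _ => ?_
        have h1 := hm x
        have h2 : m x = 0 ∨ m x = 1 := by omega
        rcases h2 with h2 | h2 <;> rw [h2] <;> simp
      rw [this, zero_mul]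
  rw [this, mul_zero, add_zero]

/-- **hard-core bosons** -/
theorem hardcore [Nonempty V] (g t₀ r B : ℝ) (hg : 0 < g) (T R : V → V → ℝ)
    (hT : IsHopping g T) (hR : IsGreen T R)
    (ht : ∀ f : V → ℝ, ∑ x, ∑ y, T x y * (f x * f y) ≤ t₀ * ∑ x, f x ^ 2)
    (hr0 : 0 < r) (hr : ∀ x, R x x = r) (hB : ∀ x, ∑ y, |R x y| ≤ B * r)
    (η δ : ℝ) (N : ℕ) (hN : 1 ≤ N)
    (hη : 0 < η) (hη8 : η ≤ 1 / 8) (hδ : 0 ≤ δ)
    (hsmall : CH t₀ r B * √((N : ℝ) / (Fintype.card V : ℝ)) < 6 * η ^ 2 * (g * r))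
    (ψ : (V → ℕ) → ℂ) (hψ : IsState N ψ) (hc : IsHardCore ψ)
    (hmin : ∀ χ : (V → ℕ) → ℂ, IsState N χ → IsHardCore χ →
      energy T 0 N ψ ≤ energy T 0 N χ + δ * (Fintype.card V : ℝ)) :
    |((N : ℝ) - condensate N ψ) - predictedHC R N| ≤
      25 * η * predictedHC R N + 2 * δ / (η * g) * (Fintype.card V : ℝ) ∧
    |energy T 0 N ψ - 1 / (diagMean R * (Fintype.card V : ℝ)) * (N * (N - 1))| ≤
      12 * η ^ 2 * g * predictedHC R N + δ * (Fintype.card V : ℝ) := by
  have hn0 : (0 : ℝ) < Fintype.card V := by exact_mod_cast Fintype.card_pos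
  set n : ℝ := (Fintype.card V : ℝ) with hn
  have hdm : diagMean R = r := diagMean_const hr
  -- limits
  have t1 : Tendsto (fun U : ℝ => 1 / (1 + U * r / 2)) atTop (𝓝 0) := by
    have a1 : Tendsto (fun U : ℝ => 1 + U * r / 2) atTop atTop := by
      refine tendsto_atTop_add_const_left _ _ ?_
      have : (fun U : ℝ => U * r / 2) = fun U => U * (r / 2) := by funext U; ring
      rw [this]
      exact tendsto_id.atTop_mul_const (by positivity)
    simp_rw [one_div]
    exact tendsto_inv_atTop_zero.comp a1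
  have t2 : Tendsto (fun U : ℝ => coupling U R) atTop (𝓝 (2 / r)) := by
    have a1 : Tendsto (fun U : ℝ => 2 / r * (1 - 1 / (1 + U * r / 2))) atTop
        (𝓝 (2 / r * (1 - 0))) := (tendsto_const_nhds.sub t1).const_mul _
    rw [sub_zero, mul_one] at a1
    refine a1.congr' ?_
    filter_upwards [eventually_gt_atTop 0] with U hU
    unfold coupling
    rw [hdm]
    have : 0 < 1 + U * r / 2 := by positivity
    field_simp
    ring
  have t3 : Tendsto (fun U : ℝ => predicted U R N) atTop (𝓝 (predictedHC R N)) := by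
    unfold predicted
    have a1 := ((t2.pow 2).mul_const ((N : ℝ) * (N - 1))).div_const (4 * n ^ 2)
    have a2 := a1.mul_const (∑ x, ∑ y, R x y ^ 2)
    have e : (2 / r) ^ 2 * ((N : ℝ) * (N - 1)) / (4 * n ^ 2) * ∑ x, ∑ y, R x y ^ 2 =
        predictedHC R N := by
      unfold predictedHC
      rw [hdm, ← hn]
      congr 1
      field_simp
      ring
    rw [e] at a2
    exact a2
  have ev : ∀ᶠ U : ℝ in atTop, 0 < U ∧
      CH t₀ r B * √((N : ℝ) / n) + 1 / (1 + U * r / 2) ≤ 6 * η ^ 2 * (g * r) := by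
    refine (eventually_gt_atTop 0).and ?_
    have a1 : Tendsto (fun U : ℝ => CH t₀ r B * √((N : ℝ) / n) + 1 / (1 + U * r / 2)) atTop
        (𝓝 (CH t₀ r B * √((N : ℝ) / n) + 0)) := tendsto_const_nhds.add t1
    rw [add_zero] at a1
    exact (a1.eventually (gt_mem_nhds hsmall)).mono fun U hU => le_of_lt hU
  have ev2 : ∀ᶠ U : ℝ in atTop,
      |((N : ℝ) - condensate N ψ) - predicted U R N| ≤
        25 * η * predicted U R N + 2 * δ / (η * g) * n ∧
      |energy T 0 N ψ - coupling U R / (2 * n) * (N * (N - 1))| ≤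
        12 * η ^ 2 * g * predicted U R N + δ * n := by
    filter_upwards [ev] with U hU
    have := strong g t₀ r B hg T R hT hR ht hr0 hr hB U η δ N hU.1 hN hη hη8 hδ hU.2 ψ hψ
      (by
        intro χ hχ1 hχ2
        rw [energy_hc T U N ψ hc, energy_hc T U N χ hχ2]
        exact hmin χ hχ1 hχ2)
    rw [energy_hc T U N ψ hc] at this
    exact this
  refine ⟨?_, ?_⟩
  · have l1 : Tendsto (fun U : ℝ => |((N : ℝ) - condensate N ψ) - predicted U R N|) atTop
        (𝓝 |((N : ℝ) - condensate N ψ) - predictedHC R N|) := (tendsto_const_nhds.sub t3).abs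
    have l2 : Tendsto (fun U : ℝ => 25 * η * predicted U R N + 2 * δ / (η * g) * n) atTop
        (𝓝 (25 * η * predictedHC R N + 2 * δ / (η * g) * n)) :=
      (t3.const_mul _).add tendsto_const_nhds
    exact le_of_tendsto_of_tendsto l1 l2 (ev2.mono fun U h => h.1)
  · have l0 : Tendsto (fun U : ℝ => coupling U R / (2 * n) * ((N : ℝ) * (N - 1))) atTop
        (𝓝 (2 / r / (2 * n) * ((N : ℝ) * (N - 1)))) := (t2.div_const _).mul_const _
    have e0 : 2 / r / (2 * n) * ((N : ℝ) * (N - 1)) =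
        1 / (diagMean R * n) * ((N : ℝ) * (N - 1)) := by rw [hdm]; field_simp
    rw [e0] at l0
    have l1 : Tendsto (fun U : ℝ => |energy T 0 N ψ - coupling U R / (2 * n) * (N * (N - 1))|)
        atTop (𝓝 |energy T 0 N ψ - 1 / (diagMean R * n) * (N * (N - 1))|) :=
      (tendsto_const_nhds.sub l0).abs
    have l2 : Tendsto (fun U : ℝ => 12 * η ^ 2 * g * predicted U R N + δ * n) atTop
        (𝓝 (12 * η ^ 2 * g * predictedHC R N + δ * n)) :=
      (t3.const_mul _).add tendsto_const_nhds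
    exact le_of_tendsto_of_tendsto l1 l2 (ev2.mono fun U h => h.2)

/-- a square root below a threshold -/
lemma exists_small (C z : ℝ) (hC : 0 ≤ C) (hz : 0 < z) :
    ∃ ρ₀ : ℝ, 0 < ρ₀ ∧ ∀ ρ : ℝ, 0 ≤ ρ → ρ ≤ ρ₀ → C * √ρ ≤ z := by
  refine ⟨(z / (C + 1)) ^ 2, by positivity, ?_⟩
  intro ρ h0 h1
  have h2 : √ρ ≤ z / (C + 1) := by
    rw [← Real.sqrt_sq (by positivity : 0 ≤ z / (C + 1))]
    exact Real.sqrt_le_sqrt h1
  calc C * √ρ ≤ C * (z / (C + 1)) := by gcongr
    _ ≤ (C + 1) * (z / (C + 1)) := by gcongr; linarith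
    _ = z := by field_simp

/-- **the depletion in the dilute limit, for all repulsions** -/
theorem dilute (g t₀ B η : ℝ) (hg : 0 < g) (hgt : g ≤ t₀) (hB0 : 0 < B) (hη : 0 < η)
    (hη8 : η ≤ 1 / 8) : ∃ ρ₀ : ℝ, 0 < ρ₀ ∧
    ∀ (V : Type) [Fintype V] [DecidableEq V] [Nonempty V] (T R : V → V → ℝ),
    IsHopping g T → IsGreen T R →
    (∀ f : V → ℝ, ∑ x, ∑ y, T x y * (f x * f y) ≤ t₀ * ∑ x, f x ^ 2) →
    (∀ x y, R x x = R y y) → (∀ x, ∑ y, |R x y| ≤ B) →
    ∀ (N : ℕ) (δ : ℝ), 1 ≤ N → (N : ℝ) ≤ ρ₀ * (Fintype.card V : ℝ) → 0 ≤ δ →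
    (∀ (U : ℝ) (ψ : (V → ℕ) → ℂ), 0 < U → IsState N ψ →
      (∀ χ : (V → ℕ) → ℂ, IsState N χ →
        energy T U N ψ ≤ energy T U N χ + δ * (Fintype.card V : ℝ)) →
      |((N : ℝ) - condensate N ψ) - predicted U R N| ≤
        25 * η * predicted U R N + 2 * δ / (η * g) * (Fintype.card V : ℝ) ∧
      |energy T U N ψ - coupling U R / (2 * (Fintype.card V : ℝ)) * (N * (N - 1))| ≤
        12 * η ^ 2 * g * predicted U R N + δ * (Fintype.card V : ℝ)) ∧
    (∀ ψ : (V → ℕ) → ℂ, IsState N ψ → IsHardCore ψ →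
      (∀ χ : (V → ℕ) → ℂ, IsState N χ → IsHardCore χ →
        energy T 0 N ψ ≤ energy T 0 N χ + δ * (Fintype.card V : ℝ)) →
      |((N : ℝ) - condensate N ψ) - predictedHC R N| ≤
        25 * η * predictedHC R N + 2 * δ / (η * g) * (Fintype.card V : ℝ) ∧
      |energy T 0 N ψ - 1 / (diagMean R * (Fintype.card V : ℝ)) * (N * (N - 1))| ≤
        12 * η ^ 2 * g * predictedHC R N + δ * (Fintype.card V : ℝ)) := by
  have ht0 : 0 < t₀ := lt_of_lt_of_le hg hgt
  set b := 2 * t₀ * B with hb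
  have hb0 : 0 < b := by positivity
  set C := CH t₀ (1 / g) b with hC
  have hC0 : 0 ≤ C := by rw [hC]; unfold CH cc; positivity
  set z := η ^ 2 * g / t₀ with hz
  have hz0 : 0 < z := by positivity
  obtain ⟨ρ₁, hρ₁, h1⟩ := exists_small C z hC0 hz0
  set ρ₂ := z * (η ^ 2 * g) / (8 * t₀) with hρ₂
  have hρ₂0 : 0 < ρ₂ := by positivity
  refine ⟨min (min ρ₁ ρ₂) (min (1 / 2) (g ^ 2 / (4 * t₀ ^ 2))), by positivity, ?_⟩
  intro V _ _ _ T R hT hR ht hconst hl1 N δ hN hNρ hδ
  have hn0 : (0 : ℝ) < Fintype.card V := by exact_mod_cast Fintype.card_pos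
  set n : ℝ := (Fintype.card V : ℝ) with hn
  set ρ := (N : ℝ) / n with hρ
  have hρle : ρ ≤ min (min ρ₁ ρ₂) (min (1 / 2) (g ^ 2 / (4 * t₀ ^ 2))) := by
    rw [hρ, div_le_iff₀ hn0]; exact hNρ
  have hρ0 : 0 ≤ ρ := by positivity
  have c1 : ρ ≤ ρ₁ := hρle.trans ((min_le_left _ _).trans (min_le_left _ _))
  have c2 : ρ ≤ ρ₂ := hρle.trans ((min_le_left _ _).trans (min_le_right _ _))
  have c3 : ρ ≤ 1 / 2 := hρle.trans ((min_le_right _ _).trans (min_le_left _ _))
  have c4 : ρ ≤ g ^ 2 / (4 * t₀ ^ 2) := hρle.trans ((min_le_right _ _).trans (min_le_right _ _))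
  have hn2 : 2 ≤ n := by
    have hN1 : (1 : ℝ) ≤ N := by exact_mod_cast hN
    have : (N : ℝ) ≤ 1 / 2 * n := by
      rw [hρ, div_le_iff₀ hn0] at c3; exact c3
    linarith
  obtain ⟨o, v, ε, bs, hε0, hε, h3⟩ := exists_basis hg hT
  set r := R o o with hr
  have hrr : ∀ x, R x x = r := fun x => hconst x o
  have hdm : diagMean R = r := diagMean_const hrr
  have htr := green_trace hg hT hR bs hε0 hε h3
  rw [hdm] at htr
  have hεp : ∀ k, k ≠ o → 0 < ε k := fun k hk => lt_of_lt_of_le hg (hε k hk)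
  have hεt : ∀ k, ε k ≤ t₀ := by
    intro k
    have e1 := ht (v k)
    have e3 : ∑ x, v k x ^ 2 = 1 := by
      have := bs.orth k k
      rw [if_pos rfl] at this
      rw [← this]; exact sum_congr rfl fun x _ => sq _
    have e4 : ∑ x, ∑ y, T x y * (v k x * v k y) = ε k := by
      calc ∑ x, ∑ y, T x y * (v k x * v k y) = ∑ x, v k x * ∑ y, T x y * v k y := by
            refine sum_congr rfl fun x _ => ?_
            rw [mul_sum]; exact sum_congr rfl fun y _ => by ring
        _ = ε k * ∑ x, v k x ^ 2 := by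
            rw [mul_sum]
            exact sum_congr rfl fun x _ => by rw [h3]; ring
        _ = ε k := by rw [e3, mul_one]
    rw [e3, e4, mul_one] at e1
    exact e1
  have hcard : ((univ.erase o : Finset V).card : ℝ) = n - 1 := by
    rw [card_erase_of_mem (mem_univ o), card_univ, hn]
    have : 1 ≤ Fintype.card V := Fintype.card_pos
    push_cast [this]; ring
  have hrlow : 1 / (2 * t₀) ≤ r := by
    have e1 : ∑ k ∈ univ.erase o, 1 / t₀ ≤ ∑ k ∈ univ.erase o, 1 / ε k :=
      sum_le_sum fun k hk => one_div_le_one_div_of_le (hεp k (ne_of_mem_erase hk)) (hεt k)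
    rw [sum_const, nsmul_eq_mul, hcard] at e1
    rw [htr, ← hn]
    calc 1 / (2 * t₀) = 1 / n * (n / 2 * (1 / t₀)) := by field_simp
      _ ≤ 1 / n * ((n - 1) * (1 / t₀)) := by gcongr; linarith
      _ ≤ _ := by gcongr
  have hrup : r ≤ 1 / g := by
    have e1 : ∑ k ∈ univ.erase o, 1 / ε k ≤ ∑ k ∈ univ.erase o, 1 / g :=
      sum_le_sum fun k hk => one_div_le_one_div_of_le hg (hε k (ne_of_mem_erase hk))
    rw [sum_const, nsmul_eq_mul, hcard] at e1
    rw [htr, ← hn]
    calc 1 / n * ∑ k ∈ univ.erase o, 1 / ε k ≤ 1 / n * ((n - 1) * (1 / g)) := by gcongr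
      _ ≤ 1 / n * (n * (1 / g)) := by gcongr; linarith
      _ = _ := by field_simp
  have hr0 : 0 < r := lt_of_lt_of_le (by positivity) hrlow
  have hBr : ∀ x, ∑ y, |R x y| ≤ b * r := by
    intro x
    refine (hl1 x).trans ?_
    calc B = b * (1 / (2 * t₀)) := by rw [hb]; field_simp
      _ ≤ b * r := by gcongr
  have hCH : CH t₀ r b ≤ C := by
    rw [hC]; unfold CH
    gcongr
  have hzr : 2 * z ≤ 4 * (η ^ 2 * (g * r)) := by
    calc 2 * z = 4 * (η ^ 2 * (g * (1 / (2 * t₀)))) := by rw [hz]; field_simp; ring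
      _ ≤ _ := by gcongr
  have hCz : CH t₀ r b * √ρ ≤ z := by
    calc CH t₀ r b * √ρ ≤ C * √ρ := by gcongr
      _ ≤ z := h1 ρ hρ0 c1
  refine ⟨?_, ?_⟩
  · intro U ψ hU hψ hmin
    by_cases hcase : U * (2 * ρ) ≤ η ^ 2 * g
    · -- weak
      have hu0 : 0 ≤ coupling U R := by unfold coupling; rw [hdm]; positivity
      have hu1 : coupling U R ≤ 4 * t₀ := by
        unfold coupling
        rw [hdm, div_le_iff₀ (by positivity)]
        have : U * (1 / (2 * t₀)) ≤ U * r := by gcongr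
        have e1 : U = 2 * t₀ * (U * (1 / (2 * t₀))) := by field_simp
        have e2 : 0 < t₀ := ht0
        nlinarith
      refine depletion2 g hg T R hT hR U η δ ρ 0 N hU hN hη hη8 hδ le_rfl ?_ ?_ ?_ ψ hψ hmin
      · intro x
        have e1 : ∑ y, R y x ^ 2 ≤ 1 / g ^ 2 := by
          rw [green_col hg hT hR bs hε0 hε h3]
          have e2 : ∑ k ∈ univ.erase o, v k x ^ 2 / ε k ^ 2 ≤
              ∑ k ∈ univ.erase o, v k x ^ 2 * (1 / g ^ 2) := by
            refine sum_le_sum fun k hk => ?_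
            rw [div_eq_mul_one_div]
            have := hε k (ne_of_mem_erase hk)
            gcongr
          refine e2.trans ?_
          rw [← sum_mul]
          have e3 : ∑ k ∈ univ.erase o, v k x ^ 2 ≤ 1 := by
            have := bs.compl x x
            rw [if_pos rfl] at this
            rw [← this]
            refine (sum_le_sum_of_subset_of_nonneg (erase_subset _ _)
              (fun _ _ _ => by positivity)).trans (le_of_eq (sum_congr rfl fun k _ => sq _))
          calc _ ≤ 1 * (1 / g ^ 2) := by gcongr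
            _ = _ := one_mul _
        have e4 : coupling U R * N / n = coupling U R * ρ := by rw [hρ]; ring
        rw [← hn, e4]
        calc (coupling U R * ρ) ^ 2 / 4 * ∑ y, R y x ^ 2 ≤
            (4 * t₀ * ρ) ^ 2 / 4 * (1 / g ^ 2) := by gcongr
          _ = (4 * t₀ ^ 2 / g ^ 2 * ρ) * ρ := by field_simp
          _ ≤ 1 * ρ := by
              gcongr
              calc 4 * t₀ ^ 2 / g ^ 2 * ρ ≤ 4 * t₀ ^ 2 / g ^ 2 * (g ^ 2 / (4 * t₀ ^ 2)) := by gcongr
                _ = 1 := by field_simp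
          _ = ρ := one_mul _
      · rw [hdm, zero_mul]
        refine le_of_eq (sum_eq_zero fun x _ => ?_)
        rw [hrr x]; ring
      · rw [← hn, ← hρ]
        calc U * (ρ + ρ + 0) = U * (2 * ρ) := by ring
          _ ≤ _ := hcase
    · -- strong
      push Not at hcase
      refine strong g t₀ r b hg T R hT hR ht hr0 hrr hBr U η δ N hU hN hη hη8 hδ ?_ ψ hψ
        (fun χ hχ _ => hmin χ hχ)
      rw [← hn, ← hρ]
      have e1 : 1 / (1 + U * r / 2) ≤ z := by
        rw [div_le_iff₀ (by positivity)]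
        have e2 : U * (1 / (2 * t₀)) ≤ U * r := by gcongr
        have e3 : η ^ 2 * g ≤ 2 * U * ρ₂ := by
          calc η ^ 2 * g ≤ U * (2 * ρ) := hcase.le
            _ ≤ U * (2 * ρ₂) := by gcongr
            _ = _ := by ring
        have e4 : 2 * U * ρ₂ = (η ^ 2 * g) * (z * (U / (4 * t₀))) := by
          rw [hρ₂]; field_simp; ring
        have e5 : 0 < η ^ 2 * g := by positivity
        have e6 : 1 ≤ z * (U / (4 * t₀)) := by
          rw [e4] at e3
          by_contra hcon
          push Not at hcon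
          nlinarith
        have e7 : z * (U / (4 * t₀)) ≤ z * (U * r / 2) := by
          have : U / (4 * t₀) ≤ U * r / 2 := by
            calc U / (4 * t₀) = U * (1 / (2 * t₀)) / 2 := by field_simp; ring
              _ ≤ U * r / 2 := by gcongr
          gcongr
        linarith
      calc CH t₀ r b * √ρ + 1 / (1 + U * r / 2) ≤ z + z := add_le_add hCz e1
        _ = 2 * z := by ring
        _ ≤ 4 * (η ^ 2 * (g * r)) := hzr
        _ ≤ 6 * η ^ 2 * (g * r) := by
            have : 0 ≤ η ^ 2 * (g * r) := by positivity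
            linarith
  · intro ψ hψ hc hmin
    refine hardcore g t₀ r b hg T R hT hR ht hr0 hrr hBr η δ N hN hη hη8 hδ ?_ ψ hψ hc hmin
    rw [← hn, ← hρ]
    calc CH t₀ r b * √ρ ≤ z := hCz
      _ < 6 * η ^ 2 * (g * r) := by
          have : 0 < η ^ 2 * (g * r) := by positivity
          linarith

end Run7.h259.LHY
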