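import Pool.Agent.Run7.h259.LHY.Alg

/-!
# The lower bound
-/

set_option autoImplicit false
set_option linter.unusedSectionVars false

noncomputable section

namespace Run7.h259.LHY

open Finset

variable {V : Type*} [Fintype V] [DecidableEq V]
variable {E : Type*} [NormedAddCommGroup E] [InnerProductSpace ℝ E]

/-- an orthonormal basis with one constant vector -/
structure Basis (o : V) (v : V → V → ℝ) : Prop where
  orth : ∀ j k, ∑ x, v j x * v k x = if j = k then 1 else 0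
  compl : ∀ x y, ∑ j, v j x * v j y = if x = y then 1 else 0
  const : ∀ x y, v o x = v o y

lemma Basis.sq {o : V} {v : V → V → ℝ} (b : Basis o v) (x : V) :
    v o x ^ 2 = 1 / (Fintype.card V : ℝ) := by
  have h1 := b.orth o o
  rw [if_pos rfl] at h1
  have h2 : ∀ y, v o y * v o y = v o x ^ 2 := fun y => by rw [b.const y x]; ring
  simp only [h2, sum_const, card_univ, nsmul_eq_mul] at h1
  have h3 : (Fintype.card V : ℝ) ≠ 0 := by
    intro h; rw [h, zero_mul] at h1; exact zero_ne_one h1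
  field_simp
  linarith

/-- the number of particles outside the mode `o` -/
def Np (c : V → E →ₗ[ℝ] E) (o : V) (φ : E) : ℝ := ∑ k ∈ univ.erase o, ‖c k φ‖ ^ 2

lemma Np_nonneg (c : V → E →ₗ[ℝ] E) (o : V) (φ : E) : 0 ≤ Np c o φ :=
  sum_nonneg fun _ _ => by positivity

/-- the site operator -/
def A (c : V → E →ₗ[ℝ] E) (v : V → V → ℝ) (x : V) : E →ₗ[ℝ] E := M c (fun j => v j x)

/-- the energy -/
def En (c : V → E →ₗ[ℝ] E) (v : V → V → ℝ) (ε : V → ℝ) (U : ℝ) (φ : E) : ℝ :=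
  ∑ k, ε k * ‖c k φ‖ ^ 2 + U / 2 * ∑ x, ‖A c v x (A c v x φ)‖ ^ 2

variable {c d : V → E →ₗ[ℝ] E}

/-- most pairs are condensed -/
lemma CCR.cond_ge (h : CCR c d) {N : ℝ} {φ : E} (hφ : Sec c d N φ) (o : V) :
    (N - 1) * (N * ‖φ‖ ^ 2 - 2 * Np c o φ) ≤ ‖c o (c o φ)‖ ^ 2 := by
  have h1 : ∑ j, ∑ k, ‖c j (c k φ)‖ ^ 2 = (N - 1) * (N * ‖φ‖ ^ 2) := by
    rw [sum_comm, ← h.sec_sum hφ, mul_sum]
    exact sum_congr rfl fun k _ => h.sec_sum (h.sec_c hφ k)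
  have h2 : ∀ k, ∑ j, ‖c j (c k φ)‖ ^ 2 = (N - 1) * ‖c k φ‖ ^ 2 :=
    fun k => h.sec_sum (h.sec_c hφ k)
  have h3 : ∑ j, ∑ k, ‖c j (c k φ)‖ ^ 2 =
      ‖c o (c o φ)‖ ^ 2 + ∑ k ∈ univ.erase o, ‖c o (c k φ)‖ ^ 2 +
      ∑ j ∈ univ.erase o, ∑ k, ‖c j (c k φ)‖ ^ 2 := by
    rw [← add_sum_erase univ _ (mem_univ o), ← add_sum_erase univ _ (mem_univ o)]
  have h4 : ∑ j ∈ univ.erase o, ∑ k, ‖c j (c k φ)‖ ^ 2 = (N - 1) * Np c o φ := by
    unfold Np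
    rw [mul_sum]
    refine sum_congr rfl fun j _ => ?_
    rw [← h2]
    exact sum_congr rfl fun k _ => by rw [h.cc]
  have h5 : ∑ k ∈ univ.erase o, ‖c o (c k φ)‖ ^ 2 ≤ (N - 1) * Np c o φ := by
    unfold Np
    rw [mul_sum]
    refine sum_le_sum fun k _ => ?_
    exact h.sec_le (h.sec_c hφ k) o
  nlinarith

lemma sum_AA (h : CCR c d) {o : V} {v : V → V → ℝ} (b : Basis o v) (φ : E) :
    ∑ x, A c v x (A c v x φ) = ∑ j, c j (c j φ) := by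
  have e : ∀ x, A c v x (A c v x φ) = ∑ j, ∑ k, (v j x * v k x) • c j (c k φ) := by
    intro x
    unfold A
    rw [M_apply, M_apply]
    refine sum_congr rfl fun j _ => ?_
    rw [map_sum, smul_sum]
    refine sum_congr rfl fun k _ => ?_
    rw [map_smul, smul_smul]
  simp_rw [e]
  rw [sum_comm]
  refine sum_congr rfl fun j _ => ?_
  rw [sum_comm]
  simp_rw [← sum_smul, b.orth]
  rw [Finset.sum_eq_single j]
  · rw [if_pos rfl, one_smul]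
  · intro k _ hk; rw [if_neg (Ne.symm hk), zero_smul]
  · intro hj; exact absurd (mem_univ _) hj

/-- the interaction energy -/
lemma int_ge (h : CCR c d) {o : V} {v : V → V → ℝ} (b : Basis o v) (φ : E) (θ : ℝ) :
    1 / (Fintype.card V : ℝ) * ((2 * θ - θ ^ 2) * ‖c o (c o φ)‖ ^ 2 +
      2 * θ * ∑ k ∈ univ.erase o, inner ℝ (c k φ) (d k (c o (c o φ)))) ≤
      ∑ x, ‖A c v x (A c v x φ)‖ ^ 2 := by
  set n : ℝ := (Fintype.card V : ℝ) with hn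
  have hn0 : 0 < n := by
    rw [hn]; exact_mod_cast Fintype.card_pos_iff.2 ⟨o⟩
  set Φ := c o (c o φ) with hΦ
  have h1 : ∀ x, 2 * θ / n * inner ℝ (A c v x (A c v x φ)) Φ - θ ^ 2 / n ^ 2 * ‖Φ‖ ^ 2 ≤
      ‖A c v x (A c v x φ)‖ ^ 2 := by
    intro x
    have e : 0 ≤ ‖A c v x (A c v x φ) - (θ / n) • Φ‖ ^ 2 := by positivity
    rw [norm_sub_sq_real, inner_smul_right, norm_smul, Real.norm_eq_abs, mul_pow, sq_abs] at e
    have e2 : (θ / n) ^ 2 = θ ^ 2 / n ^ 2 := by rw [div_pow]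
    rw [e2] at e
    have e3 : 2 * (θ / n * inner ℝ (A c v x (A c v x φ)) Φ) =
      2 * θ / n * inner ℝ (A c v x (A c v x φ)) Φ := by ring
    linarith
  have h2 : ∑ x, (2 * θ / n * inner ℝ (A c v x (A c v x φ)) Φ - θ ^ 2 / n ^ 2 * ‖Φ‖ ^ 2) =
      2 * θ / n * inner ℝ (∑ x, A c v x (A c v x φ)) Φ - θ ^ 2 / n * ‖Φ‖ ^ 2 := by
    rw [sum_sub_distrib, ← mul_sum, sum_inner, sum_const, card_univ, nsmul_eq_mul, ← hn]
    congr 1
    field_simp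
  have h3 : inner ℝ (∑ x, A c v x (A c v x φ)) Φ =
      ‖Φ‖ ^ 2 + ∑ k ∈ univ.erase o, inner ℝ (c k φ) (d k Φ) := by
    rw [sum_AA h b, sum_inner, ← add_sum_erase univ _ (mem_univ o)]
    congr 1
    · rw [← hΦ, real_inner_self_eq_norm_sq]
    · exact sum_congr rfl fun k _ => by rw [h.adj']
  refine le_trans (le_of_eq ?_) ((le_of_eq h2.symm).trans (sum_le_sum fun x _ => h1 x))
  rw [h3]
  ring

/-- the effective coupling -/
def ueff (U r : ℝ) : ℝ := U / (1 + U * r / 2)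

/-- **the lower bound** -/
theorem lower (h : CCR c d) {o : V} {v : V → V → ℝ} (b : Basis o v) {N : ℝ} (hN : 1 ≤ N) {φ : E}
    (hφ : Sec c d N φ) (ε : V → ℝ) (g μ U r u : ℝ) (hμ : μ < g) (hU : 0 ≤ U) (h0 : ε o = 0)
    (hg : ∀ k, k ≠ o → g ≤ ε k)
    (hr : r = 1 / (Fintype.card V : ℝ) * ∑ k ∈ univ.erase o, 1 / (ε k - μ))
    (hu : u = ueff U r) :
    u / (2 * (Fintype.card V : ℝ)) * (N * (N - 1)) * ‖φ‖ ^ 2 +
      (μ - u * N / (Fintype.card V : ℝ) -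
        (u * N / (Fintype.card V : ℝ)) ^ 2 / (4 * (g - μ))) * Np c o φ ≤ En c v ε U φ := by
  set n : ℝ := (Fintype.card V : ℝ) with hn
  have hn0 : 0 < n := by
    rw [hn]; exact_mod_cast Fintype.card_pos_iff.2 ⟨o⟩
  have hα : ∀ k ∈ univ.erase o, g - μ ≤ ε k - μ := by
    intro k hk
    have := hg k (ne_of_mem_erase hk)
    linarith
  have hgμ : 0 < g - μ := by linarith
  set S := ∑ k ∈ univ.erase o, 1 / (ε k - μ) with hS
  have hS0 : 0 ≤ S := sum_nonneg fun k hk => by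
    have := hα k hk
    have : 0 < ε k - μ := by linarith
    positivity
  have hr0 : 0 ≤ r := by rw [hr]; positivity
  have hden : 0 < 1 + U * r / 2 := by positivity
  set θ := 1 / (1 + U * r / 2) with hθ
  have hu1 : u = U * θ := by rw [hu, hθ, ueff]; ring
  have hθ1 : θ * (1 + U * r / 2) = 1 := by rw [hθ]; field_simp
  have hθ0 : 0 < θ := by rw [hθ]; positivity
  have hu0 : 0 ≤ u := by rw [hu1]; positivity
  set Φ := c o (c o φ) with hΦ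
  have hi := int_ge h b φ θ
  rw [← hn, ← hΦ] at hi
  -- one mode
  have h1 : ∀ k ∈ univ.erase o, -(u ^ 2 / (4 * n ^ 2)) * (1 / (ε k - μ)) * ‖Φ‖ ^ 2
      - u ^ 2 / (4 * n ^ 2) * (1 / (g - μ)) * (N * (N - 1)) * ‖c k φ‖ ^ 2 + μ * ‖c k φ‖ ^ 2 ≤
      ε k * ‖c k φ‖ ^ 2 + u / n * inner ℝ (c k φ) (d k Φ) := by
    intro k hk
    have ha := hα k hk
    set α := ε k - μ with hαd
    have ha0 : 0 < α := lt_of_lt_of_le hgμ ha
    have e1 : 0 ≤ ‖α • c k φ + (u / (2 * n)) • d k Φ‖ ^ 2 := by positivity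
    rw [norm_add_sq_real, norm_smul, norm_smul, inner_smul_left, inner_smul_right, mul_pow, mul_pow,
      Real.norm_eq_abs, Real.norm_eq_abs, sq_abs, sq_abs, h.norm_d] at e1
    have e2 : ‖c k Φ‖ ^ 2 ≤ N * (N - 1) * ‖c k φ‖ ^ 2 := by
      have e3 : c k Φ = c o (c o (c k φ)) := by rw [hΦ, h.cc, h.cc k o φ]
      rw [e3]
      exact h.sec_le2 (h.sec_c hφ k) (by linarith) hN o o
    have e4 : 0 ≤ α * ‖c k φ‖ ^ 2 + u / n * inner ℝ (c k φ) (d k Φ) +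
        u ^ 2 / (4 * n ^ 2) * (1 / α) * (‖Φ‖ ^ 2 + ‖c k Φ‖ ^ 2) := by
      have e5 : α * ‖c k φ‖ ^ 2 + u / n * inner ℝ (c k φ) (d k Φ) +
        u ^ 2 / (4 * n ^ 2) * (1 / α) * (‖Φ‖ ^ 2 + ‖c k Φ‖ ^ 2) = (1 / α) *
          (α ^ 2 * ‖c k φ‖ ^ 2 + 2 * (α * (u / (2 * n) * inner ℝ (c k φ) (d k Φ))) +
          (u / (2 * n)) ^ 2 * (‖Φ‖ ^ 2 + ‖c k Φ‖ ^ 2)) := by
        field_simp
        ring
      rw [e5]
      have : 0 ≤ 1 / α := by positivity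
      refine mul_nonneg this ?_
      simpa using e1
    have e6 : u ^ 2 / (4 * n ^ 2) * (1 / α) * ‖c k Φ‖ ^ 2 ≤
        u ^ 2 / (4 * n ^ 2) * (1 / (g - μ)) * (N * (N - 1)) * ‖c k φ‖ ^ 2 := by
      have e7 : 1 / α ≤ 1 / (g - μ) := one_div_le_one_div_of_le hgμ ha
      calc u ^ 2 / (4 * n ^ 2) * (1 / α) * ‖c k Φ‖ ^ 2
          ≤ u ^ 2 / (4 * n ^ 2) * (1 / (g - μ)) * ‖c k Φ‖ ^ 2 := by gcongr
        _ ≤ u ^ 2 / (4 * n ^ 2) * (1 / (g - μ)) * (N * (N - 1) * ‖c k φ‖ ^ 2) := by gcongr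
        _ = _ := by ring
    have e8 : ε k = α + μ := by rw [hαd]; ring
    rw [e8]
    nlinarith
  have h2 := sum_le_sum h1
  rw [sum_add_distrib, sum_sub_distrib, sum_add_distrib, ← mul_sum, ← mul_sum, ← mul_sum,
    ← sum_mul, ← mul_sum] at h2
  change _ - _ * Np c o φ + μ * Np c o φ ≤ _ at h2
  have h3 : ∑ k, ε k * ‖c k φ‖ ^ 2 = ∑ k ∈ univ.erase o, ε k * ‖c k φ‖ ^ 2 := by
    rw [← add_sum_erase univ _ (mem_univ o), h0]; ring
  have h5 := h.cond_ge hφ o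
  rw [← hΦ] at h5
  unfold En
  rw [h3]
  rw [← hS] at h2
  set I := ∑ k ∈ univ.erase o, inner ℝ (c k φ) (d k Φ) with hI
  set P := Np c o φ with hP
  have hP0 : 0 ≤ P := Np_nonneg c o φ
  set J := ∑ x, ‖A c v x (A c v x φ)‖ ^ 2 with hJ
  set K := ∑ k ∈ univ.erase o, ε k * ‖c k φ‖ ^ 2 with hK
  have h6 : U / 2 * (1 / n * ((2 * θ - θ ^ 2) * ‖Φ‖ ^ 2 + 2 * θ * I)) ≤ U / 2 * J := by gcongr
  have h7 : U / 2 * (1 / n * ((2 * θ - θ ^ 2) * ‖Φ‖ ^ 2 + 2 * θ * I)) =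
      u / n * (1 - θ / 2) * ‖Φ‖ ^ 2 + u / n * I := by
    rw [hu1]; ring
  have h15 : u ^ 2 / (4 * n ^ 2) * S * ‖Φ‖ ^ 2 = u / n * (u * r / 4) * ‖Φ‖ ^ 2 := by
    rw [hr]; field_simp
  have h16 : u / n * (1 - θ / 2) * ‖Φ‖ ^ 2 - u / n * (u * r / 4) * ‖Φ‖ ^ 2 =
      u / (2 * n) * ‖Φ‖ ^ 2 := by
    have e : 1 - θ / 2 - u * r / 4 = 1 / 2 := by rw [hu1]; linarith
    calc _ = u / n * (1 - θ / 2 - u * r / 4) * ‖Φ‖ ^ 2 := by ring
      _ = _ := by rw [e]; ring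
  have h8 : u / (2 * n) * ((N - 1) * (N * ‖φ‖ ^ 2 - 2 * P)) ≤ u / (2 * n) * ‖Φ‖ ^ 2 := by gcongr
  have h10 : u / (2 * n) * ((N - 1) * (N * ‖φ‖ ^ 2 - 2 * P)) =
      u / (2 * n) * (N * (N - 1)) * ‖φ‖ ^ 2 - u * (N - 1) / n * P := by
    field_simp
  have h12 : u * (N - 1) / n * P ≤ u * N / n * P := by
    gcongr; linarith
  have h13 : u ^ 2 / (4 * n ^ 2) * (1 / (g - μ)) * (N * (N - 1)) * P ≤
      (u * N / n) ^ 2 / (4 * (g - μ)) * P := by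
    have e : (u * N / n) ^ 2 / (4 * (g - μ)) = u ^ 2 / (4 * n ^ 2) * (1 / (g - μ)) * (N * N) := by
      field_simp
    rw [e]
    gcongr
    linarith
  have h14 : u / (2 * n) * (N * (N - 1)) * ‖φ‖ ^ 2 +
      (μ - u * N / n - (u * N / n) ^ 2 / (4 * (g - μ))) * P =
      u / (2 * n) * (N * (N - 1)) * ‖φ‖ ^ 2 + μ * P - u * N / n * P -
      (u * N / n) ^ 2 / (4 * (g - μ)) * P := by ring
  rw [h14]
  nlinarith

end Run7.h259.LHY
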