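import Pool.Agent.Run7.h259.LHY.Upper2

/-!
# Comparing the bounds
-/

set_option autoImplicit false
set_option linter.unusedSectionVars false
set_option linter.unusedVariables false

noncomputable section

namespace Run7.h259.LHY

open Finset

variable {V : Type*} [Fintype V] [DecidableEq V]

/-- the trace of the resolvent per site -/
def rr (o : V) (ε : V → ℝ) (μ : ℝ) : ℝ :=
  1 / (Fintype.card V : ℝ) * ∑ k ∈ univ.erase o, 1 / (ε k - μ)

/-- the trace of the square of the resolvent -/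
def S2 (o : V) (ε : V → ℝ) : ℝ := ∑ k ∈ univ.erase o, 1 / ε k ^ 2

section

variable {o : V} {ε : V → ℝ} {g : ℝ} (hg : 0 < g) (hε : ∀ k, k ≠ o → g ≤ ε k)

include hg hε

lemma card_erase_le' : ((univ.erase o : Finset V).card : ℝ) ≤ (Fintype.card V : ℝ) := by
  exact_mod_cast (card_le_card (erase_subset _ _)).trans (le_of_eq card_univ)

lemma S2_nonneg : 0 ≤ S2 o ε := sum_nonneg fun _ _ => by positivity

lemma S2_le : S2 o ε ≤ (Fintype.card V : ℝ) / g ^ 2 := by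
  have h1 : S2 o ε ≤ ∑ k ∈ univ.erase o, 1 / g ^ 2 :=
    sum_le_sum fun k hk => by
      have := hε k (ne_of_mem_erase hk)
      exact one_div_le_one_div_of_le (by positivity) (by gcongr)
  refine h1.trans ?_
  rw [sum_const, nsmul_eq_mul, mul_one_div]
  have := card_erase_le' hg hε
  gcongr

lemma rr_nonneg {μ : ℝ} (hμ : μ < g) : 0 ≤ rr o ε μ := by
  unfold rr
  refine mul_nonneg (by positivity) (sum_nonneg fun k hk => ?_)
  have := hε k (ne_of_mem_erase hk)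
  have : 0 < ε k - μ := by linarith
  positivity

/-- the resolvent above zero -/
lemma rr_up {s : ℝ} (hs : 0 ≤ s) (hs2 : s ≤ g / 2) :
    rr o ε s - rr o ε 0 ≤ 1 / (Fintype.card V : ℝ) * (s * S2 o ε) + 2 * s ^ 2 / g ^ 3 := by
  have hn0 : 0 < (Fintype.card V : ℝ) := by exact_mod_cast Fintype.card_pos_iff.2 ⟨o⟩
  set n : ℝ := (Fintype.card V : ℝ) with hn
  unfold rr S2
  rw [← hn, ← mul_sub, ← sum_sub_distrib]
  have h1 : ∀ k ∈ univ.erase o, 1 / (ε k - s) - 1 / (ε k - 0) ≤ s * (1 / ε k ^ 2) +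
      2 * s ^ 2 / g ^ 3 := by
    intro k hk
    have h2 := hε k (ne_of_mem_erase hk)
    have h3 : 0 < ε k := by linarith
    have h4 : g / 2 ≤ ε k - s := by linarith
    have h5 : 0 < ε k - s := by linarith
    have e : 1 / (ε k - s) - 1 / (ε k - 0) = s * (1 / ε k ^ 2) + s ^ 2 / (ε k ^ 2 * (ε k - s)) := by
      rw [sub_zero]; field_simp; ring
    rw [e]
    have h6 : s ^ 2 / (ε k ^ 2 * (ε k - s)) ≤ s ^ 2 / (g ^ 2 * (g / 2)) := by gcongr
    have h7 : s ^ 2 / (g ^ 2 * (g / 2)) = 2 * s ^ 2 / g ^ 3 := by field_simp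
    linarith
  have h2 := sum_le_sum h1
  rw [sum_add_distrib, ← mul_sum, sum_const, nsmul_eq_mul] at h2
  have h3 : ((univ.erase o : Finset V).card : ℝ) * (2 * s ^ 2 / g ^ 3) ≤ n * (2 * s ^ 2 / g ^ 3) := by
    have := card_erase_le' hg hε
    gcongr
  calc _ ≤ 1 / n * (s * ∑ k ∈ univ.erase o, 1 / ε k ^ 2 + n * (2 * s ^ 2 / g ^ 3)) := by
        gcongr; linarith
    _ = _ := by field_simp

/-- the resolvent below zero -/
lemma rr_down {s : ℝ} (hs : 0 ≤ s) :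
    1 / (Fintype.card V : ℝ) * (s * S2 o ε) - s ^ 2 / g ^ 3 ≤ rr o ε 0 - rr o ε (-s) := by
  have hn0 : 0 < (Fintype.card V : ℝ) := by exact_mod_cast Fintype.card_pos_iff.2 ⟨o⟩
  set n : ℝ := (Fintype.card V : ℝ) with hn
  unfold rr S2
  rw [← hn, ← mul_sub, ← sum_sub_distrib]
  have h1 : ∀ k ∈ univ.erase o, s * (1 / ε k ^ 2) - s ^ 2 / g ^ 3 ≤
      1 / (ε k - 0) - 1 / (ε k - -s) := by
    intro k hk
    have h2 := hε k (ne_of_mem_erase hk)
    have h3 : 0 < ε k := by linarith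
    have h5 : 0 < ε k + s := by linarith
    have e : 1 / (ε k - 0) - 1 / (ε k - -s) =
        s * (1 / ε k ^ 2) - s ^ 2 / (ε k ^ 2 * (ε k + s)) := by
      rw [sub_zero, sub_neg_eq_add]; field_simp; ring
    rw [e]
    have h6 : s ^ 2 / (ε k ^ 2 * (ε k + s)) ≤ s ^ 2 / (g ^ 2 * g) := by
      gcongr
      linarith
    have h7 : s ^ 2 / (g ^ 2 * g) = s ^ 2 / g ^ 3 := by ring
    linarith
  have h2 := sum_le_sum h1
  rw [sum_sub_distrib, ← mul_sum, sum_const, nsmul_eq_mul] at h2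
  have h3 : ((univ.erase o : Finset V).card : ℝ) * (s ^ 2 / g ^ 3) ≤ n * (s ^ 2 / g ^ 3) := by
    have := card_erase_le' hg hε
    gcongr
  calc _ = 1 / n * (s * ∑ k ∈ univ.erase o, 1 / ε k ^ 2 - n * (s ^ 2 / g ^ 3)) := by field_simp
    _ ≤ _ := by gcongr; linarith

lemma rr_mono {s : ℝ} (hs : 0 ≤ s) (hs2 : s < g) : rr o ε 0 ≤ rr o ε s := by
  unfold rr
  refine mul_le_mul_of_nonneg_left (sum_le_sum fun k hk => ?_) (by positivity)
  have := hε k (ne_of_mem_erase hk)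
  exact one_div_le_one_div_of_le (by linarith) (by linarith)

lemma rr_mono' {s : ℝ} (hs : 0 ≤ s) : rr o ε (-s) ≤ rr o ε 0 := by
  unfold rr
  refine mul_le_mul_of_nonneg_left (sum_le_sum fun k hk => ?_) (by positivity)
  have := hε k (ne_of_mem_erase hk)
  exact one_div_le_one_div_of_le (by linarith) (by linarith)

end

lemma ueff_nonneg {U r : ℝ} (hU : 0 ≤ U) (hr : 0 ≤ r) : 0 ≤ ueff U r := by
  unfold ueff; positivity

lemma ueff_le {U r : ℝ} (hU : 0 ≤ U) (hr : 0 ≤ r) : ueff U r ≤ U := by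
  unfold ueff
  rw [div_le_iff₀ (by positivity)]
  nlinarith [mul_nonneg hU (mul_nonneg hU hr)]

lemma ueff_sub {U r r' : ℝ} (hU : 0 ≤ U) (hr : 0 ≤ r) (hr' : 0 ≤ r') :
    ueff U r - ueff U r' = ueff U r * ueff U r' * (r' - r) / 2 := by
  unfold ueff
  have h1 : 1 + U * r / 2 ≠ 0 := by positivity
  have h2 : 1 + U * r' / 2 ≠ 0 := by positivity
  field_simp
  ring

lemma ueff_anti {U r r' : ℝ} (hU : 0 ≤ U) (hr : 0 ≤ r) (hrr : r ≤ r') : ueff U r' ≤ ueff U r := by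
  unfold ueff
  have h1 : 0 < 1 + U * r / 2 := by positivity
  gcongr

/-- the numbers -/
lemma numeric {g s P m E e₀ D n lam C₂ δ : ℝ} (hg : 0 < g) (hn : 0 < n) (hs : 0 < s)
    (hs4 : s ≤ 1 / 4) (hm0 : 0 ≤ m) (hm : m ≤ lam ^ 2 / 4 * (n / g ^ 2))
    (hP : 0 ≤ P) (hC₂ : 0 ≤ C₂) (hδ : 0 ≤ δ) (hD : D = C₂ * lam ^ 2 * s ^ 2 * n + δ * n)
    (h1 : (s - 2 * s ^ 2) * P ≤ s * m + D) (h2 : s * m ≤ (s + 2 * s ^ 2) * P + D)
    (hl : 0 ≤ lam) (hls : lam ≤ s ^ 2) (h3 : e₀ - 2 * lam * P ≤ E)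
    (h4 : E ≤ e₀ + D) :
    |P - m| ≤ (1 / g ^ 2 + 2 * C₂ + 2) * (lam ^ 2 * s + δ / s) * n ∧
    |E - e₀| ≤ (1 / g ^ 2 + 2 * C₂ + 2) * (lam ^ 2 * s ^ 2 + δ) * n := by
  have hG : 0 ≤ 1 / g ^ 2 := by positivity
  have hD0 : 0 ≤ D := by rw [hD]; positivity
  have e1 : s * (s * m) ≤ 1 / 4 * (s * m) := by gcongr
  have hmn : s * m ≤ s * (lam ^ 2 / 4 * (n / g ^ 2)) := by gcongr
  -- P ≤ 2 (m + D / s)
  have hP2 : s * P ≤ 2 * (s * m + D) := by
    have : s ^ 2 * P ≤ s * (1 / 4) * P := by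
      have : s ^ 2 ≤ s * (1 / 4) := by nlinarith
      gcongr
    nlinarith
  have hP3 : s ^ 2 * P ≤ s * (2 * (s * m + D)) := by
    have : s ^ 2 * P = s * (s * P) := by ring
    rw [this]; gcongr
  have key : 2 * s ^ 2 * P + D ≤ s * ((1 / g ^ 2 + 2 * C₂ + 2) * (lam ^ 2 * s + δ / s) * n) := by
    have a1 : 2 * s ^ 2 * P + D ≤ 4 * s * (s * m) + (4 * s + 1) * D := by nlinarith
    have a2 : (4 * s + 1) * D ≤ 2 * D := by gcongr; linarith
    have a3 : 4 * s * (s * m) ≤ 4 * s * (s * (lam ^ 2 / 4 * (n / g ^ 2))) := by gcongr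
    have a4 : s * ((1 / g ^ 2 + 2 * C₂ + 2) * (lam ^ 2 * s + δ / s) * n) =
        1 / g ^ 2 * (s ^ 2 * lam ^ 2 * n) + 2 * (C₂ * lam ^ 2 * s ^ 2 * n) +
        2 * (s ^ 2 * lam ^ 2 * n) + (1 / g ^ 2 + 2 * C₂) * (δ * n) + 2 * (δ * n) := by
      field_simp
      ring
    rw [a4]
    have a5 : 4 * s * (s * (lam ^ 2 / 4 * (n / g ^ 2))) = 1 / g ^ 2 * (s ^ 2 * lam ^ 2 * n) := by
      field_simp
    have a6 : 0 ≤ s ^ 2 * lam ^ 2 * n := by positivity
    have a7 : 0 ≤ (1 / g ^ 2 + 2 * C₂) * (δ * n) := by positivity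
    rw [hD] at a1 a2
    linarith
  refine ⟨?_, ?_⟩
  · rw [abs_le]
    constructor
    · have : s * (m - P) ≤ s * ((1 / g ^ 2 + 2 * C₂ + 2) * (lam ^ 2 * s + δ / s) * n) := by
        nlinarith
      have := le_of_mul_le_mul_left this hs
      linarith
    · have : s * (P - m) ≤ s * ((1 / g ^ 2 + 2 * C₂ + 2) * (lam ^ 2 * s + δ / s) * n) := by
        nlinarith
      exact le_of_mul_le_mul_left this hs
  · have b1 : 2 * lam * P ≤ 2 * s ^ 2 * P := by gcongr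
    have b2 : s * ((1 / g ^ 2 + 2 * C₂ + 2) * (lam ^ 2 * s + δ / s) * n) =
        (1 / g ^ 2 + 2 * C₂ + 2) * (lam ^ 2 * s ^ 2 + δ) * n := by
      field_simp
    rw [← b2, abs_le]
    have b3 : 0 ≤ 2 * s ^ 2 * P := by positivity
    constructor <;> nlinarith

end Run7.h259.LHY
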