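import Pool.Agent.Run7.h259.LHY.Lower

/-!
# The trial state
-/

set_option autoImplicit false
set_option linter.unusedSectionVars false

noncomputable section

namespace Run7.h259.LHY

open Finset

variable {V : Type*} [Fintype V] [DecidableEq V]
variable {E : Type*} [NormedAddCommGroup E] [InnerProductSpace ℝ E]

/-- a pair is moved from the mode `o` to the mode `l` -/
def PP (c d : V → E →ₗ[ℝ] E) (o l : V) (φ : E) : E := d l (d l (c o (c o φ)))

/-- the pair operator -/
def KK (c d : V → E →ₗ[ℝ] E) (o : V) (w : V → ℝ) (φ : E) : E := ∑ l, w l • PP c d o l φ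

/-- the terms of the exponential series -/
def ser (c d : V → E →ₗ[ℝ] E) (o : V) (w : V → ℝ) (ω : E) : ℕ → E
  | 0 => ω
  | j + 1 => (1 / ((j : ℝ) + 1)) • KK c d o w (ser c d o w ω j)

/-- the condensate -/
def cnd (d : V → E →ₗ[ℝ] E) (o : V) (ω : E) : ℕ → E
  | 0 => ω
  | j + 1 => d o (cnd d o ω j)

variable {c d : V → E →ₗ[ℝ] E}

lemma KK_smul (o : V) (w : V → ℝ) (r : ℝ) (φ : E) : KK c d o w (r • φ) = r • KK c d o w φ := by
  unfold KK PP
  rw [smul_sum]
  refine sum_congr rfl fun l _ => ?_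
  simp only [map_smul]
  rw [smul_comm]

lemma KK_zero (o : V) (w : V → ℝ) : KK c d o w 0 = 0 := by
  unfold KK PP; simp

lemma c_KK (h : CCR c d) {o : V} {w : V → ℝ} (hw : w o = 0) {k : V} (hk : k ≠ o) (φ : E) :
    c k (KK c d o w φ) = KK c d o w (c k φ) + (2 * w k) • d k (c o (c o φ)) := by
  unfold KK PP
  rw [map_sum]
  have e : ∀ l, c k (w l • d l (d l (c o (c o φ)))) =
      w l • d l (d l (c o (c o (c k φ)))) + if k = l then (2 * w l) • d l (c o (c o φ)) else 0 := by
    intro l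
    rw [map_smul, h.comm, h.comm, h.cc k o, h.cc k o]
    by_cases hkl : k = l
    · simp only [if_pos hkl, map_add, smul_add]
      rw [mul_smul, two_smul]
      abel_nf
    · simp only [if_neg hkl, add_zero]
  simp_rw [e]
  rw [sum_add_distrib, sum_ite_eq, if_pos (mem_univ _)]

lemma KK_D (h : CCR c d) {o : V} {w : V → ℝ} (hw : w o = 0) {k : V} (hk : k ≠ o) (φ : E) :
    KK c d o w (d k (c o (c o φ))) = d k (c o (c o (KK c d o w φ))) := by
  unfold KK PP
  simp only [map_sum, map_smul]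
  refine sum_congr rfl fun l _ => ?_
  by_cases hl : l = o
  · rw [hl, hw, zero_smul, zero_smul]
  · congr 1
    rw [h.comm_ne (Ne.symm hk), h.comm_ne (Ne.symm hk), h.comm_ne (Ne.symm hl),
      h.comm_ne (Ne.symm hl), h.comm_ne (Ne.symm hl), h.comm_ne (Ne.symm hl), h.dd k l, h.dd k l]

/-- the occupation of the mode `o` -/
lemma occ_KK (h : CCR c d) {o : V} {w : V → ℝ} (hw : w o = 0) {r : ℝ} {φ : E}
    (hφ : d o (c o φ) = r • φ) : d o (c o (KK c d o w φ)) = (r - 2) • KK c d o w φ := by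
  have e1 : d o (c o (c o φ)) = (r - 1) • c o φ := by
    have := congrArg (c o) hφ
    rw [h.comm_self, map_smul] at this
    rw [sub_smul, one_smul, ← this, add_sub_cancel_right]
  have e2 : d o (c o (c o (c o φ))) = (r - 2) • c o (c o φ) := by
    have := congrArg (c o) e1
    rw [h.comm_self, map_smul] at this
    have e3 : r - 2 = (r - 1) - 1 := by ring
    rw [e3, sub_smul _ (1 : ℝ), one_smul, ← this, add_sub_cancel_right]
  unfold KK PP
  simp only [map_sum, map_smul]
  rw [smul_sum]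
  refine sum_congr rfl fun l _ => ?_
  by_cases hl : l = o
  · rw [hl, hw, zero_smul, zero_smul, smul_zero]
  · rw [smul_comm (r - 2)]
    congr 1
    rw [h.comm_ne (Ne.symm hl), h.comm_ne (Ne.symm hl), h.dd o l, h.dd o l, e2, map_smul, map_smul]

lemma sec_KK (h : CCR c d) {o : V} {w : V → ℝ} {N : ℝ} {φ : E}
    (hφ : Sec c d N φ) : Sec c d N (KK c d o w φ) := by
  unfold KK PP
  refine Sec.sum fun l _ => ?_
  have e := h.sec_d (h.sec_d (h.sec_c (h.sec_c hφ o) o) l) l
  have e2 : N - 1 - 1 + 1 + 1 = N := by ring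
  rw [e2] at e
  exact e.smul _

lemma c_ser (h : CCR c d) {o : V} {w : V → ℝ} (hw : w o = 0) {k : V} (hk : k ≠ o) {ω : E}
    (hω : c k ω = 0) (j : ℕ) :
    c k (ser c d o w ω (j + 1)) = (2 * w k) • d k (c o (c o (ser c d o w ω j))) := by
  induction j with
  | zero =>
    simp only [ser]
    rw [map_smul, c_KK h hw hk, hω, KK_zero, zero_add]
    norm_num
  | succ j ih =>
    have e : ser c d o w ω (j + 1 + 1) =
      (1 / (((j + 1 : ℕ) : ℝ) + 1)) • KK c d o w (ser c d o w ω (j + 1)) := rfl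
    rw [e, map_smul, c_KK h hw hk, ih, KK_smul, KK_D h hw hk]
    have e1 : KK c d o w (ser c d o w ω j) = ((j : ℝ) + 1) • ser c d o w ω (j + 1) := by
      have e3 : ser c d o w ω (j + 1) = (1 / ((j : ℝ) + 1)) • KK c d o w (ser c d o w ω j) := rfl
      rw [e3, smul_smul]
      have : ((j : ℝ) + 1) * (1 / ((j : ℝ) + 1)) = 1 := by
        have : (j : ℝ) + 1 ≠ 0 := by positivity
        field_simp
      rw [this, one_smul]
    rw [e1]
    simp only [map_smul]
    rw [smul_comm (2 * w k) ((j : ℝ) + 1), show ∀ X : E, ((j : ℝ) + 1) • X + X = ((j : ℝ) + 1 + 1) • X from fun X => by rw [add_smul ((j : ℝ) + 1), one_smul], smul_smul]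
    push_cast
    have : 1 / ((j : ℝ) + 1 + 1) * ((j : ℝ) + 1 + 1) = 1 := by
      have : (j : ℝ) + 1 + 1 ≠ 0 := by positivity
      field_simp
    rw [this, one_smul]

end Run7.h259.LHY
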