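import Pool.Agent.Run7.h259.LHY.Trial

/-!
# The trial state, continued
-/

set_option autoImplicit false
set_option linter.unusedSectionVars false
set_option linter.unusedVariables false

noncomputable section

namespace Run7.h259.LHY

open Finset

variable {V : Type*} [Fintype V] [DecidableEq V]
variable {E : Type*} [NormedAddCommGroup E] [InnerProductSpace ℝ E]
variable {c d : V → E →ₗ[ℝ] E}

lemma cnd_ne (h : CCR c d) {o : V} {ω : E} (hω : ω ≠ 0) (N : ℕ) : cnd d o ω N ≠ 0 := by
  induction N with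
  | zero => exact hω
  | succ N ih =>
    intro h0
    have e := h.norm_d o (cnd d o ω N)
    change d o (cnd d o ω N) = 0 at h0
    rw [h0, norm_zero] at e
    have : 0 < ‖cnd d o ω N‖ ^ 2 := by
      have := norm_pos_iff.2 ih
      positivity
    have : 0 ≤ ‖c o (cnd d o ω N)‖ ^ 2 := by positivity
    nlinarith

lemma c_cnd (h : CCR c d) {o : V} {ω : E} (hω : ∀ x, c x ω = 0) {k : V} (hk : k ≠ o) (N : ℕ) :
    c k (cnd d o ω N) = 0 := by
  induction N with
  | zero => exact hω k
  | succ N ih =>
    change c k (d o (cnd d o ω N)) = 0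
    rw [h.comm_ne hk, ih, map_zero]

lemma occ_cnd (h : CCR c d) {o : V} {ω : E} (hω : ∀ x, c x ω = 0) (N : ℕ) :
    d o (c o (cnd d o ω N)) = (N : ℝ) • cnd d o ω N := by
  induction N with
  | zero =>
    change d o (c o ω) = _
    rw [hω, map_zero]; simp
  | succ N ih =>
    change d o (c o (d o (cnd d o ω N))) = _
    rw [h.comm_self, ih, map_add, map_smul]
    change _ = ((N + 1 : ℕ) : ℝ) • d o (cnd d o ω N)
    push_cast
    rw [add_smul, one_smul]

lemma sec_cnd (h : CCR c d) {o : V} {ω : E} (hω : ∀ x, c x ω = 0) (N : ℕ) :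
    Sec c d N (cnd d o ω N) := by
  unfold Sec
  rw [Finset.sum_eq_single o]
  · exact occ_cnd h hω N
  · intro k _ hk; rw [c_cnd h hω hk, map_zero]
  · intro ho; exact absurd (mem_univ _) ho

/-- **the trial state** -/
theorem trial (h : CCR c d) {o : V} {ω : E} (hω0 : ω ≠ 0) (hω : ∀ x, c x ω = 0) (N : ℕ)
    {w : V → ℝ} (hw : w o = 0) : ∃ Ψ : E, Ψ ≠ 0 ∧ Sec c d N Ψ ∧
      ∀ k, k ≠ o → c k Ψ = (2 * w k) • d k (c o (c o Ψ)) := by
  set η := cnd d o ω N with hη
  set s : ℕ → E := ser c d o w η with hs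
  have hocc : ∀ j, d o (c o (s j)) = ((N : ℝ) - 2 * j) • s j := by
    intro j
    induction j with
    | zero =>
      change d o (c o η) = _
      rw [hη, occ_cnd h hω N]
      simp only [Nat.cast_zero, mul_zero, sub_zero]
      rfl
    | succ j ih =>
      have e3 : s (j + 1) = (1 / ((j : ℝ) + 1)) • KK c d o w (s j) := rfl
      have e4 : (N : ℝ) - 2 * ((j + 1 : ℕ) : ℝ) = (N : ℝ) - 2 * j - 2 := by push_cast; ring
      rw [e3, map_smul, map_smul, occ_KK h hw ih, smul_comm, e4]
  have hsec : ∀ j, Sec c d N (s j) := by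
    intro j
    induction j with
    | zero => exact sec_cnd h hω N
    | succ j ih => exact (sec_KK h ih).smul _
  set J := N / 2 with hJ
  have hzero : c o (c o (s J)) = 0 := by
    have e1 : ‖c o (s J)‖ ^ 2 = ((N : ℝ) - 2 * J) * ‖s J‖ ^ 2 := by
      rw [← real_inner_self_eq_norm_sq, h.adj', real_inner_comm, hocc, inner_smul_left,
        real_inner_self_eq_norm_sq]; rfl
    have e2 : ‖c o (c o (s J))‖ ^ 2 = ((N : ℝ) - 2 * J - 1) * ‖c o (s J)‖ ^ 2 := by
      have e3 : d o (c o (c o (s J))) = ((N : ℝ) - 2 * J - 1) • c o (s J) := by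
        have := congrArg (c o) (hocc J)
        rw [h.comm_self, map_smul] at this
        rw [sub_smul _ (1 : ℝ), one_smul, ← this, add_sub_cancel_right]
      rw [← real_inner_self_eq_norm_sq, h.adj', real_inner_comm, e3, inner_smul_left,
        real_inner_self_eq_norm_sq]; rfl
    have e4 : ((N : ℝ) - 2 * J - 1) * ((N : ℝ) - 2 * J) = 0 := by
      have h5 : N = 2 * J ∨ N = 2 * J + 1 := by omega
      rcases h5 with h5 | h5
      · have : (N : ℝ) = 2 * J := by exact_mod_cast h5
        rw [this]; ring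
      · have : (N : ℝ) = 2 * J + 1 := by exact_mod_cast h5
        rw [this]; ring
    have e5 : ‖c o (c o (s J))‖ ^ 2 = 0 := by
      rw [e2, e1, ← mul_assoc, e4, zero_mul]
    have e6 : ‖c o (c o (s J))‖ = 0 := by
      exact pow_eq_zero_iff (two_ne_zero) |>.1 e5
    exact norm_eq_zero.1 e6
  refine ⟨∑ j ∈ range (J + 1), s j, ?_, Sec.sum fun j _ => hsec j, ?_⟩
  · intro h0
    have e1 : inner ℝ η (∑ j ∈ range (J + 1), s j) = ‖η‖ ^ 2 := by
      rw [inner_sum, sum_range_succ']
      have e2 : ∀ j, inner ℝ η (s (j + 1)) = 0 := by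
        intro j
        have e3 : s (j + 1) = (1 / ((j : ℝ) + 1)) • KK c d o w (s j) := rfl
        rw [e3, inner_smul_right]
        have e4 : inner ℝ η (KK c d o w (s j)) = 0 := by
          unfold KK PP
          rw [inner_sum]
          refine sum_eq_zero fun l _ => ?_
          rw [inner_smul_right]
          by_cases hl : l = o
          · rw [hl, hw, zero_mul]
          · rw [← h.adj', hη, c_cnd h hω hl, inner_zero_left, mul_zero]
        rw [e4, mul_zero]
      simp only [e2, sum_const_zero, zero_add]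
      exact real_inner_self_eq_norm_sq η
    rw [h0, inner_zero_right] at e1
    have e2 : ‖η‖ = 0 := pow_eq_zero_iff (two_ne_zero) |>.1 e1.symm
    exact cnd_ne h hω0 N (norm_eq_zero.1 e2)
  · intro k hk
    rw [map_sum, sum_range_succ']
    have e1 : c k (s 0) = 0 := c_cnd h hω hk N
    rw [e1, add_zero]
    have e2 : ∀ j, c k (s (j + 1)) = (2 * w k) • d k (c o (c o (s j))) :=
      fun j => c_ser h hw hk (c_cnd h hω hk N) j
    simp only [e2, map_sum]
    rw [sum_range_succ, hzero, map_zero, add_zero, smul_sum]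

end Run7.h259.LHY
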