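import Pool.Agent.Run7.h259.LHY.Trial2

/-!
# The energy of the trial state
-/

set_option autoImplicit false
set_option linter.unusedSectionVars false
set_option linter.unusedVariables false

noncomputable section

namespace Run7.h259.LHY

open Finset Filter Topology

/-- iterating a contraction -/
lemma iter {ι : Type*} (Q w : ι → ℝ) (c m₀ : ℝ) (hc : 0 ≤ c) (hm : 0 ≤ m₀)
    (base : ∀ i, Q i ≤ w i * m₀)
    (step : ∀ m, 0 ≤ m → (∀ i, Q i ≤ w i * m) → ∀ i, Q i ≤ w i * (c + m / 2)) (i : ι) :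
    Q i ≤ w i * (2 * c) := by
  have h1 : ∀ j : ℕ, ∀ i, Q i ≤ w i * (2 * c + (m₀ - 2 * c) * (1 / 2) ^ j) := by
    intro j
    induction j with
    | zero => intro i; simpa using base i
    | succ j ih =>
      intro i
      have h2 : 0 ≤ 2 * c + (m₀ - 2 * c) * (1 / 2) ^ j := by
        have e1 : (0 : ℝ) < (1 / 2) ^ j := by positivity
        have e2 : ((1 : ℝ) / 2) ^ j ≤ 1 := pow_le_one₀ (by norm_num) (by norm_num)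
        nlinarith
      have h3 := step _ h2 ih i
      refine h3.trans (le_of_eq ?_)
      rw [pow_succ]; ring
  have h2 : Tendsto (fun j : ℕ => w i * (2 * c + (m₀ - 2 * c) * (1 / 2 : ℝ) ^ j)) atTop
      (𝓝 (w i * (2 * c + (m₀ - 2 * c) * 0))) := by
    have := tendsto_pow_atTop_nhds_zero_of_lt_one (r := (1 : ℝ) / 2) (by norm_num) (by norm_num)
    exact (tendsto_const_nhds.add (this.const_mul _)).const_mul _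
  have h3 := ge_of_tendsto' h2 (fun j => h1 j i)
  simpa using h3

variable {V : Type*} [Fintype V] [DecidableEq V]
variable {E : Type*} [NormedAddCommGroup E] [InnerProductSpace ℝ E]
variable {c d : V → E →ₗ[ℝ] E}

lemma norm_add_sq_le (a b : E) : ‖a + b‖ ^ 2 ≤ 2 * ‖a‖ ^ 2 + 2 * ‖b‖ ^ 2 := by
  have h := parallelogram_law_with_norm ℝ a b
  have : 0 ≤ ‖a - b‖ * ‖a - b‖ := by positivity
  nlinarith

/-- the data of the trial state -/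
structure TS (c d : V → E →ₗ[ℝ] E) (o : V) (N κ t : ℝ) (τ : V → ℝ) (Ψ : E) : Prop where
  ccr : CCR c d
  hN : 2 ≤ N
  hκ : 0 < κ
  hκ2 : κ ^ 2 = N * (N - 1)
  sec : Sec c d N Ψ
  hc : ∀ k, k ≠ o → c k Ψ = (τ k / κ) • d k (c o (c o Ψ))
  hτ : ∀ k, |τ k| ≤ t
  ht0 : 0 ≤ t
  ht : t ≤ 1 / 2

namespace TS

variable {o : V} {N κ t : ℝ} {τ : V → ℝ} {Ψ : E} (T : TS c d o N κ t τ Ψ)

include T

/-- removing a condensed pair does not increase the norm -/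
lemma contr {K : ℝ} {χ : E} (hχ : Sec c d K χ) (hK : K ≤ N) :
    ‖(1 / κ) • c o (c o χ)‖ ^ 2 ≤ ‖χ‖ ^ 2 := by
  have h1 := T.ccr.sec_le2 hχ hK (by linarith [T.hN]) o o
  rw [← T.hκ2] at h1
  have hκ := T.hκ
  rw [norm_smul, mul_pow, Real.norm_eq_abs, sq_abs, div_pow, one_pow, one_div_mul_eq_div,
    div_le_iff₀ (by positivity)]
  linarith

lemma xi_le : ‖(1 / κ) • c o (c o Ψ)‖ ^ 2 ≤ ‖Ψ‖ ^ 2 := T.contr T.sec le_rfl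

lemma c_eq {k : V} (hk : k ≠ o) : c k Ψ = τ k • d k ((1 / κ) • c o (c o Ψ)) := by
  rw [T.hc k hk, map_smul, smul_smul]
  congr 1
  ring

lemma M_eq {f : V → ℝ} (hf : f o = 0) :
    M c f Ψ = M d (fun k => τ k * f k) ((1 / κ) • c o (c o Ψ)) := by
  rw [M_apply, M_apply]
  refine sum_congr rfl fun k _ => ?_
  by_cases hk : k = o
  · rw [hk, hf, mul_zero, zero_smul, zero_smul]
  · rw [T.c_eq hk, smul_smul, mul_comm]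

lemma M_xi (f : V → ℝ) : ‖M c f ((1 / κ) • c o (c o Ψ))‖ ^ 2 ≤ ‖M c f Ψ‖ ^ 2 := by
  rw [map_smul, ← T.ccr.M_cc, ← T.ccr.M_cc]
  exact T.contr (T.ccr.sec_M T.sec f) (by linarith)

lemma MM_xi (f g : V → ℝ) :
    ‖M c f (M c g ((1 / κ) • c o (c o Ψ)))‖ ^ 2 ≤ ‖M c f (M c g Ψ)‖ ^ 2 := by
  rw [map_smul, map_smul, ← T.ccr.M_cc, ← T.ccr.M_cc, ← T.ccr.M_cc, ← T.ccr.M_cc]
  exact T.contr (T.ccr.sec_M (T.ccr.sec_M T.sec g) f) (by linarith)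

lemma sq_tau (f : V → ℝ) : ∑ k, (τ k * f k) ^ 2 ≤ t ^ 2 * ∑ k, f k ^ 2 := by
  rw [mul_sum]
  refine sum_le_sum fun k _ => ?_
  rw [mul_pow]
  have : τ k ^ 2 ≤ t ^ 2 := by rw [← sq_abs (τ k)]; have := T.hτ k; gcongr
  gcongr

lemma one_le {f : V → ℝ} (hf : f o = 0) :
    ‖M c f Ψ‖ ^ 2 ≤ (∑ k, f k ^ 2) * (2 * (t ^ 2 * ‖Ψ‖ ^ 2)) := by
  have ht := T.ht
  have ht0 := T.ht0
  have hN := T.hN
  refine iter (ι := {f : V → ℝ // f o = 0}) (fun f => ‖M c f.1 Ψ‖ ^ 2) (fun f => ∑ k, f.1 k ^ 2)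
    (t ^ 2 * ‖Ψ‖ ^ 2) (N * ‖Ψ‖ ^ 2) (by positivity) (by positivity)
    (fun f => T.ccr.norm_M_le T.sec f.1) ?_ ⟨f, hf⟩
  rintro m hm ih ⟨f, hf⟩
  have h1 := ih ⟨fun k => τ k * f k, by simp [hf]⟩
  simp only at h1 ⊢
  have h2 : ‖M c f Ψ‖ ^ 2 ≤ (∑ k, (τ k * f k) ^ 2) * ‖Ψ‖ ^ 2 +
      (∑ k, (τ k * f k) ^ 2) * m := by
    rw [T.M_eq hf, T.ccr.norm_Md]
    refine add_le_add ?_ ((T.M_xi _).trans h1)
    have := T.xi_le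
    gcongr
  have h3 := T.sq_tau f
  have h4 : t ^ 2 ≤ 1 / 4 := by nlinarith
  have h5 : 0 ≤ ∑ k, f k ^ 2 := sum_nonneg fun _ _ => by positivity
  calc ‖M c f Ψ‖ ^ 2 ≤ (∑ k, (τ k * f k) ^ 2) * (‖Ψ‖ ^ 2 + m) := by linarith
    _ ≤ (t ^ 2 * ∑ k, f k ^ 2) * (‖Ψ‖ ^ 2 + m) := by gcongr
    _ = (∑ k, f k ^ 2) * (t ^ 2 * ‖Ψ‖ ^ 2 + t ^ 2 * m) := by ring
    _ ≤ (∑ k, f k ^ 2) * (t ^ 2 * ‖Ψ‖ ^ 2 + m / 2) := by
        have : t ^ 2 * m ≤ m / 2 := by nlinarith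
        gcongr

lemma two_le {f g : V → ℝ} (hf : f o = 0) (hg : g o = 0) :
    ‖M c f (M c g Ψ)‖ ^ 2 ≤ ((∑ k, f k ^ 2) * ∑ k, g k ^ 2) * (2 * (3 * t ^ 2 * ‖Ψ‖ ^ 2)) := by
  have ht := T.ht
  have ht0 := T.ht0
  have hN := T.hN
  have hN1 : 0 ≤ N - 1 := by linarith
  refine iter (ι := {f : V → ℝ // f o = 0} × {f : V → ℝ // f o = 0})
    (fun p => ‖M c p.1.1 (M c p.2.1 Ψ)‖ ^ 2)
    (fun p => (∑ k, p.1.1 k ^ 2) * ∑ k, p.2.1 k ^ 2)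
    (3 * t ^ 2 * ‖Ψ‖ ^ 2) ((N - 1) * (N * ‖Ψ‖ ^ 2)) (by positivity) (by positivity) ?_ ?_
    (⟨f, hf⟩, ⟨g, hg⟩)
  · rintro ⟨⟨f, hf⟩, ⟨g, hg⟩⟩
    simp only
    have h1 := T.ccr.norm_M_le (T.ccr.sec_M T.sec g) f
    have h2 := T.ccr.norm_M_le T.sec g
    calc ‖M c f (M c g Ψ)‖ ^ 2 ≤ (∑ k, f k ^ 2) * ((N - 1) * ‖M c g Ψ‖ ^ 2) := h1
      _ ≤ (∑ k, f k ^ 2) * ((N - 1) * ((∑ k, g k ^ 2) * (N * ‖Ψ‖ ^ 2))) := by gcongr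
      _ = _ := by ring
  · rintro m hm ih ⟨⟨f, hf⟩, ⟨g, hg⟩⟩
    have h1 := ih (⟨fun k => τ k * g k, by simp [hg]⟩, ⟨f, hf⟩)
    simp only at h1 ⊢
    set τg : V → ℝ := fun k => τ k * g k with hτg
    set Ξ := (1 / κ) • c o (c o Ψ) with hΞ
    have e1 : M c f (M c g Ψ) = M d τg (M c f Ξ) + (∑ k, f k * τg k) • Ξ := by
      rw [T.M_eq hg, T.ccr.M_comm]
    have e2 := norm_add_sq_le (M d τg (M c f Ξ)) ((∑ k, f k * τg k) • Ξ)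
    rw [← e1, T.ccr.norm_Md, norm_smul, mul_pow, Real.norm_eq_abs, sq_abs] at e2
    have e3 : ‖M c f Ξ‖ ^ 2 ≤ (∑ k, f k ^ 2) * (2 * (t ^ 2 * ‖Ψ‖ ^ 2)) :=
      (T.M_xi f).trans (T.one_le hf)
    have e4 : ‖M c τg (M c f Ξ)‖ ^ 2 ≤ ((∑ k, τg k ^ 2) * ∑ k, f k ^ 2) * m :=
      (T.MM_xi τg f).trans h1
    have e5 : (∑ k, f k * τg k) ^ 2 ≤ (∑ k, f k ^ 2) * ∑ k, τg k ^ 2 :=
      sum_mul_sq_le_sq_mul_sq _ _ _
    have e6 := T.xi_le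
    rw [← hΞ] at e6
    have e7 : ∑ k, τg k ^ 2 ≤ t ^ 2 * ∑ k, g k ^ 2 := T.sq_tau g
    set F := ∑ k, f k ^ 2 with hF
    set G := ∑ k, g k ^ 2 with hG
    set H := ∑ k, τg k ^ 2 with hH
    set Z := ‖Ψ‖ ^ 2 with hZ
    have hF0 : 0 ≤ F := sum_nonneg fun _ _ => by positivity
    have hG0 : 0 ≤ G := sum_nonneg fun _ _ => by positivity
    have hH0 : 0 ≤ H := sum_nonneg fun _ _ => by positivity
    have hZ0 : 0 ≤ Z := by positivity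
    have h4 : t ^ 2 ≤ 1 / 4 := by nlinarith
    calc ‖M c f (M c g Ψ)‖ ^ 2
        ≤ 2 * (H * ‖M c f Ξ‖ ^ 2 + ‖M c τg (M c f Ξ)‖ ^ 2) +
          2 * ((∑ k, f k * τg k) ^ 2 * ‖Ξ‖ ^ 2) := e2
      _ ≤ 2 * (H * (F * (2 * (t ^ 2 * Z))) + H * F * m) + 2 * (F * H * Z) := by
          gcongr
      _ = H * (F * (4 * (t ^ 2 * Z) + 2 * m + 2 * Z)) := by ring
      _ ≤ t ^ 2 * G * (F * (4 * (t ^ 2 * Z) + 2 * m + 2 * Z)) := by gcongr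
      _ = F * G * (4 * t ^ 2 * (t ^ 2 * Z) + 2 * (t ^ 2 * m) + 2 * t ^ 2 * Z) := by ring
      _ ≤ F * G * (3 * t ^ 2 * Z + m / 2) := by
          have e8 : 4 * t ^ 2 * (t ^ 2 * Z) ≤ t ^ 2 * Z := by
            have : 0 ≤ t ^ 2 * Z := by positivity
            nlinarith
          have e9 : 2 * (t ^ 2 * m) ≤ m / 2 := by nlinarith
          have e10 : 4 * t ^ 2 * (t ^ 2 * Z) + 2 * (t ^ 2 * m) + 2 * t ^ 2 * Z ≤
            3 * t ^ 2 * Z + m / 2 := by linarith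
          gcongr

/-- a single mode -/
lemma mode_le {k : V} (hk : k ≠ o) : ‖c k Ψ‖ ^ 2 ≤ 2 * (t ^ 2 * ‖Ψ‖ ^ 2) := by
  have h1 := T.one_le (f := fun j => if j = k then 1 else 0) (by simp [Ne.symm hk])
  rw [M_apply] at h1
  simpa using h1

lemma mode_le' {k : V} (hk : k ≠ o) : ‖c k Ψ‖ ^ 2 ≤ τ k ^ 2 * ((1 + 2 * t ^ 2) * ‖Ψ‖ ^ 2) := by
  have h1 : ‖c k Ψ‖ ^ 2 = τ k ^ 2 * (‖(1 / κ) • c o (c o Ψ)‖ ^ 2 +
      ‖c k ((1 / κ) • c o (c o Ψ))‖ ^ 2) := by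
    rw [T.c_eq hk, norm_smul, mul_pow, Real.norm_eq_abs, sq_abs, T.ccr.norm_d]
  have h2 : ‖c k ((1 / κ) • c o (c o Ψ))‖ ^ 2 ≤ ‖c k Ψ‖ ^ 2 := by
    rw [map_smul, T.ccr.cc k o, T.ccr.cc k o]
    exact T.contr (T.ccr.sec_c T.sec k) (by linarith)
  have h3 := T.mode_le hk
  have h4 := T.xi_le
  rw [h1]
  have h5 : ‖(1 / κ) • c o (c o Ψ)‖ ^ 2 + ‖c k ((1 / κ) • c o (c o Ψ))‖ ^ 2 ≤
      (1 + 2 * t ^ 2) * ‖Ψ‖ ^ 2 := by nlinarith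
  gcongr

end TS

end Run7.h259.LHY
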