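import Pool.Agent.Run7.h259.LHY.Upper

/-!
# The energy of the trial state, continued
-/

set_option autoImplicit false
set_option linter.unusedSectionVars false
set_option linter.unusedVariables false

noncomputable section

namespace Run7.h259.LHY

open Finset Filter Topology

variable {V : Type*} [Fintype V] [DecidableEq V]
variable {E : Type*} [NormedAddCommGroup E] [InnerProductSpace ℝ E]
variable {c d : V → E →ₗ[ℝ] E}

/-- the row of the excited modes -/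
def fx (o : V) (v : V → V → ℝ) (x : V) : V → ℝ := fun k => if k = o then 0 else v k x

lemma fx_o (o : V) (v : V → V → ℝ) (x : V) : fx o v x o = 0 := by simp [fx]

lemma A_split (o : V) (v : V → V → ℝ) (x : V) (φ : E) :
    A c v x φ = v o x • c o φ + M c (fx o v x) φ := by
  unfold A
  rw [M_apply, M_apply, ← add_sum_erase univ _ (mem_univ o)]
  congr 1
  rw [← add_sum_erase univ (fun k => fx o v x k • c k φ) (mem_univ o), fx_o, zero_smul, zero_add]
  refine sum_congr rfl fun k hk => ?_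
  unfold fx
  rw [if_neg (ne_of_mem_erase hk)]

lemma fx_sq {o : V} {v : V → V → ℝ} (b : Basis o v) (x : V) : ∑ k, fx o v x k ^ 2 ≤ 1 := by
  have h1 := b.compl x x
  rw [if_pos rfl] at h1
  rw [← h1]
  refine sum_le_sum fun k _ => ?_
  unfold fx
  split_ifs
  · rw [zero_pow two_ne_zero]; exact mul_self_nonneg _
  · exact le_of_eq (sq _)

lemma fx_sum {o : V} {v : V → V → ℝ} (b : Basis o v) (k : V) : ∑ x, fx o v x k = 0 := by
  unfold fx
  by_cases hk : k = o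
  · simp [hk]
  · simp only [if_neg hk]
    have h1 := b.orth k o
    rw [if_neg hk] at h1
    have h2 : ∀ x, v k x * v o x = v o k * v k x := fun x => by rw [b.const x k]; ring
    simp only [h2, ← mul_sum] at h1
    have h3 : v o k ≠ 0 := by
      intro h3
      have h4 := b.sq k
      have : (0 : ℝ) < Fintype.card V := by exact_mod_cast Fintype.card_pos_iff.2 ⟨o⟩
      rw [h3, zero_pow two_ne_zero] at h4
      have : (0 : ℝ) < 1 / (Fintype.card V : ℝ) := by positivity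
      linarith
    exact (mul_eq_zero.1 h1).resolve_left h3

lemma M_fx_sum {o : V} {v : V → V → ℝ} (b : Basis o v) (φ : E) :
    ∑ x, M c (fx o v x) φ = 0 := by
  simp_rw [M_apply]
  rw [sum_comm]
  simp_rw [← sum_smul, fx_sum b, zero_smul, sum_const_zero]

namespace TS

variable {o : V} {N κ t : ℝ} {τ : V → ℝ} {Ψ : E} (T : TS c d o N κ t τ Ψ)

include T

/-- the interaction energy of the trial state -/
lemma int_le {v : V → V → ℝ} (b : Basis o v) (hneg : ∀ k, τ k ≤ 0) (β : ℝ) (β' : V → ℝ)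
    (hβ : ∀ x, κ / (Fintype.card V : ℝ) + ∑ k, fx o v x k * (τ k * fx o v x k) = β + β' x)
    (hβ0 : 0 ≤ β) (hβ' : ∑ x, β' x = 0) :
    ∑ x, ‖A c v x (A c v x Ψ)‖ ^ 2 ≤
      ((Fintype.card V : ℝ) * β ^ 2 + 3 * ∑ x, β' x ^ 2 +
      (24 * (N - 1) * t ^ 2 + 24 * (Fintype.card V : ℝ) * t ^ 4)) * ‖Ψ‖ ^ 2 := by
  set n : ℝ := (Fintype.card V : ℝ) with hn
  have hn0 : 0 < n := by
    rw [hn]; exact_mod_cast Fintype.card_pos_iff.2 ⟨o⟩
  have hκ := T.hκ
  have hN := T.hN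
  have ht0 := T.ht0
  have hN1 : 0 ≤ N - 1 := by linarith
  set q := v o o with hq
  have hq2 : q ^ 2 = 1 / n := b.sq o
  set Ξ := (1 / κ) • c o (c o Ψ) with hΞ
  set Z := ‖Ψ‖ ^ 2 with hZ
  have hZ0 : 0 ≤ Z := by positivity
  have hΞZ : ‖Ξ‖ ^ 2 ≤ Z := T.xi_le
  have hcc : c o (c o Ψ) = κ • Ξ := by
    rw [hΞ, smul_smul]
    have : κ * (1 / κ) = 1 := by field_simp
    rw [this, one_smul]
  set B : V → E := fun x => (2 * q) • c o (M c (fx o v x) Ψ) with hB
  set D : V → E := fun x => M d (fun k => τ k * fx o v x k) (M c (fx o v x) Ξ) with hD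
  have e0 : ∀ x, M c (fx o v x) (M c (fx o v x) Ψ) =
      D x + (∑ k, fx o v x k * (τ k * fx o v x k)) • Ξ := by
    intro x
    rw [T.M_eq (fx_o o v x), T.ccr.M_comm]
  have e1 : ∀ x, A c v x (A c v x Ψ) = β • Ξ + (β' x • Ξ + B x + D x) := by
    intro x
    rw [A_split o v x, A_split o v x, b.const x o, ← hq, map_add, map_smul, smul_add, smul_smul,
      ← sq, map_add, map_smul, ← T.ccr.M_cc, hcc, hq2, smul_smul, e0]
    have e2 : β • Ξ + (β' x • Ξ + B x + D x) =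
        (κ / n + ∑ k, fx o v x k * (τ k * fx o v x k)) • Ξ + B x + D x := by
      rw [hβ, add_smul]; abel
    rw [e2, add_smul]
    simp only [hB]
    rw [mul_smul 2 q, two_smul, show 1 / n * κ = κ / n by ring]
    abel
  have e2 : ∑ x, B x = 0 := by
    simp only [hB]
    rw [← smul_sum, ← map_sum, M_fx_sum b, map_zero, smul_zero]
  have e3 : inner ℝ Ξ (∑ x, D x) ≤ 0 := by
    have h1 : ∀ x, inner ℝ Ξ (D x) = ∑ k, ∑ j, (fx o v x k * fx o v x j) *
        (τ k * inner ℝ (c k Ξ) (c j Ξ)) := by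
      intro x
      simp only [hD]
      rw [← T.ccr.M_adj', M_apply, M_apply, sum_inner]
      refine sum_congr rfl fun k _ => ?_
      rw [inner_sum]
      refine sum_congr rfl fun j _ => ?_
      rw [inner_smul_left, inner_smul_right]
      simp only [conj_trivial]
      ring
    have h2 : inner ℝ Ξ (∑ x, D x) = ∑ k, ∑ j, (∑ x, fx o v x k * fx o v x j) *
        (τ k * inner ℝ (c k Ξ) (c j Ξ)) := by
      rw [inner_sum]
      simp_rw [h1]
      rw [sum_comm]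
      refine sum_congr rfl fun k _ => ?_
      rw [sum_comm]
      exact sum_congr rfl fun j _ => by rw [sum_mul]
    rw [h2]
    refine sum_nonpos fun k _ => ?_
    by_cases hk : k = o
    · refine le_of_eq (sum_eq_zero fun j _ => ?_)
      rw [hk]; simp [fx_o]
    · rw [Finset.sum_eq_single k]
      · have h3 : 0 ≤ ∑ x, fx o v x k * fx o v x k := sum_nonneg fun _ _ => mul_self_nonneg _
        rw [real_inner_self_eq_norm_sq]
        have h4 : τ k * ‖c k Ξ‖ ^ 2 ≤ 0 :=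
          mul_nonpos_of_nonpos_of_nonneg (hneg k) (by positivity)
        exact mul_nonpos_of_nonneg_of_nonpos h3 h4
      · intro j _ hj
        have h3 : ∑ x, fx o v x k * fx o v x j = 0 := by
          by_cases hjo : j = o
          · rw [hjo]; simp [fx_o]
          · have := b.orth k j
            rw [if_neg (Ne.symm hj)] at this
            rw [← this]
            exact sum_congr rfl fun x _ => by simp [fx, hk, hjo]
        rw [h3, zero_mul]
      · intro h; exact absurd (mem_univ _) h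
  have e4 : ∀ x, ‖A c v x (A c v x Ψ)‖ ^ 2 ≤
      β ^ 2 * Z + 2 * β * inner ℝ Ξ (β' x • Ξ + B x + D x) +
      3 * (β' x ^ 2 * Z + ‖B x‖ ^ 2 + ‖D x‖ ^ 2) := by
    intro x
    rw [e1, norm_add_sq_real, inner_smul_left, norm_smul, mul_pow, Real.norm_eq_abs, sq_abs]
    simp only [conj_trivial]
    have h1 : ‖β' x • Ξ + B x + D x‖ ^ 2 ≤ 3 * (‖β' x • Ξ‖ ^ 2 + ‖B x‖ ^ 2 + ‖D x‖ ^ 2) := by
      have h2 := norm_add₃_le (a := β' x • Ξ) (b := B x) (c := D x)
      have h3 : 0 ≤ ‖β' x • Ξ + B x + D x‖ := norm_nonneg _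
      have h4 : ‖β' x • Ξ + B x + D x‖ ^ 2 ≤ (‖β' x • Ξ‖ + ‖B x‖ + ‖D x‖) ^ 2 := by gcongr
      nlinarith [sq_nonneg (‖β' x • Ξ‖ - ‖B x‖), sq_nonneg (‖B x‖ - ‖D x‖),
        sq_nonneg (‖β' x • Ξ‖ - ‖D x‖)]
    have h2 : ‖β' x • Ξ‖ ^ 2 ≤ β' x ^ 2 * Z := by
      rw [norm_smul, mul_pow, Real.norm_eq_abs, sq_abs]; gcongr
    have h3 : β ^ 2 * ‖Ξ‖ ^ 2 ≤ β ^ 2 * Z := by gcongr
    nlinarith
  have e5 : ∀ x, ‖B x‖ ^ 2 ≤ 8 / n * (N - 1) * (t ^ 2 * Z) := by
    intro x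
    simp only [hB]
    rw [norm_smul, mul_pow, Real.norm_eq_abs, sq_abs, mul_pow, hq2]
    have h1 := T.ccr.sec_le (T.ccr.sec_M T.sec (fx o v x)) o
    have h2 := T.one_le (fx_o o v x)
    have h3 : ‖M c (fx o v x) Ψ‖ ^ 2 ≤ 1 * (2 * (t ^ 2 * Z)) :=
      h2.trans (by have := fx_sq b x; gcongr)
    calc 2 ^ 2 * (1 / n) * ‖c o (M c (fx o v x) Ψ)‖ ^ 2
        ≤ 2 ^ 2 * (1 / n) * ((N - 1) * (1 * (2 * (t ^ 2 * Z)))) := by
          refine mul_le_mul_of_nonneg_left (h1.trans ?_) (by positivity)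
          gcongr
      _ = _ := by ring
  have e6 : ∀ x, ‖D x‖ ^ 2 ≤ 8 * t ^ 4 * Z := by
    intro x
    simp only [hD]
    rw [T.ccr.norm_Md]
    have h3 := fx_sq b x
    have h0 : 0 ≤ ∑ k, fx o v x k ^ 2 := sum_nonneg fun _ _ => by positivity
    have h4 := T.sq_tau (fx o v x)
    have h5 : ∑ k, (τ k * fx o v x k) ^ 2 ≤ t ^ 2 := by
      refine h4.trans ?_
      have : 0 ≤ t ^ 2 := by positivity
      nlinarith
    have h50 : 0 ≤ ∑ k, (τ k * fx o v x k) ^ 2 := sum_nonneg fun _ _ => by positivity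
    have h6 : ‖M c (fx o v x) Ξ‖ ^ 2 ≤ 2 * (t ^ 2 * Z) := by
      refine (T.M_xi _).trans ((T.one_le (fx_o o v x)).trans ?_)
      have : 0 ≤ 2 * (t ^ 2 * Z) := by positivity
      nlinarith
    have h7 : ‖M c (fun k => τ k * fx o v x k) (M c (fx o v x) Ξ)‖ ^ 2 ≤ 6 * t ^ 4 * Z := by
      refine (T.MM_xi _ _).trans ((T.two_le (by simp [fx_o]) (fx_o o v x)).trans ?_)
      calc (∑ k, (τ k * fx o v x k) ^ 2) * (∑ k, fx o v x k ^ 2) * (2 * (3 * t ^ 2 * ‖Ψ‖ ^ 2)) ≤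
          t ^ 2 * 1 * (2 * (3 * t ^ 2 * Z)) := by gcongr
        _ = _ := by ring
    calc (∑ k, (τ k * fx o v x k) ^ 2) * ‖M c (fx o v x) Ξ‖ ^ 2 +
        ‖M c (fun k => τ k * fx o v x k) (M c (fx o v x) Ξ)‖ ^ 2 ≤
        t ^ 2 * (2 * (t ^ 2 * Z)) + 6 * t ^ 4 * Z := by gcongr
      _ = _ := by ring
  have e7 := sum_le_sum (s := univ) fun x _ => e4 x
  have s1 : ∑ x, 2 * β * inner ℝ Ξ (β' x • Ξ + B x + D x) = 2 * β * inner ℝ Ξ (∑ x, D x) := by
    rw [← mul_sum, ← inner_sum, sum_add_distrib, sum_add_distrib, ← sum_smul, hβ', zero_smul, e2,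
      zero_add, zero_add]
  have s2 : ∑ x, 3 * (β' x ^ 2 * Z + ‖B x‖ ^ 2 + ‖D x‖ ^ 2) =
      3 * ((∑ x, β' x ^ 2) * Z + ∑ x, ‖B x‖ ^ 2 + ∑ x, ‖D x‖ ^ 2) := by
    rw [← mul_sum, sum_add_distrib, sum_add_distrib, ← sum_mul]
  rw [sum_add_distrib, sum_add_distrib, s1, s2, sum_const, card_univ, nsmul_eq_mul, ← hn] at e7
  have e8 : ∑ x, ‖B x‖ ^ 2 ≤ 8 * (N - 1) * (t ^ 2 * Z) := by
    refine (sum_le_sum fun x _ => e5 x).trans (le_of_eq ?_)
    rw [sum_const, card_univ, nsmul_eq_mul, ← hn]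
    field_simp
  have e9 : ∑ x, ‖D x‖ ^ 2 ≤ n * (8 * t ^ 4 * Z) := by
    refine (sum_le_sum fun x _ => e6 x).trans (le_of_eq ?_)
    rw [sum_const, card_univ, nsmul_eq_mul, ← hn]
  have e10 : 2 * β * inner ℝ Ξ (∑ x, D x) ≤ 0 :=
    mul_nonpos_of_nonneg_of_nonpos (by positivity) e3
  nlinarith

/-- **the energy of the trial state** -/
theorem energy_le {v : V → V → ℝ} (b : Basis o v) (ε : V → ℝ) (g U r u : ℝ) (rx : V → ℝ)
    (hg : 0 < g) (h0 : ε o = 0) (hε : ∀ k, k ≠ o → g ≤ ε k) (hU : 0 ≤ U)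
    (hrx : ∀ x, rx x = ∑ k ∈ univ.erase o, v k x ^ 2 / ε k)
    (hr : r = 1 / (Fintype.card V : ℝ) * ∑ k ∈ univ.erase o, 1 / ε k) (hu : u = ueff U r)
    (htau : ∀ k, k ≠ o → τ k = -(u * κ / (Fintype.card V : ℝ) / (2 * ε k)))
    (htau0 : τ o = 0) :
    En c v ε U Ψ ≤ (u / (2 * (Fintype.card V : ℝ)) * (N * (N - 1)) +
      (t ^ 2 * (u * N / (Fintype.card V : ℝ)) ^ 2 / (2 * g) +
        12 * U * (N / (Fintype.card V : ℝ)) * t ^ 2 + 12 * U * t ^ 4 +
        3 / 8 * U * (u * N / (Fintype.card V : ℝ)) ^ 2 *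
          (1 / (Fintype.card V : ℝ) * ∑ x, (rx x - r) ^ 2)) * (Fintype.card V : ℝ)) *
      ‖Ψ‖ ^ 2 := by
  set n : ℝ := (Fintype.card V : ℝ) with hn
  have hn0 : 0 < n := by
    rw [hn]; exact_mod_cast Fintype.card_pos_iff.2 ⟨o⟩
  have hκ := T.hκ
  have hN := T.hN
  have ht := T.ht
  have ht0 := T.ht0
  have hN1 : 0 ≤ N - 1 := by linarith
  set S := ∑ k ∈ univ.erase o, 1 / ε k with hS
  have hεp : ∀ k, k ≠ o → 0 < ε k := fun k hk => lt_of_lt_of_le hg (hε k hk)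
  have hS0 : 0 ≤ S := sum_nonneg fun k hk => by
    have := hεp k (ne_of_mem_erase hk)
    positivity
  have hr0 : 0 ≤ r := by rw [hr]; positivity
  have hcard : ((univ.erase o : Finset V).card : ℝ) ≤ n := by
    rw [hn]
    exact_mod_cast (card_le_card (erase_subset _ _)).trans (le_of_eq card_univ)
  have hSn : S ≤ n / g := by
    have h1 : S ≤ ∑ k ∈ univ.erase o, 1 / g :=
      sum_le_sum fun k hk => one_div_le_one_div_of_le hg (hε k (ne_of_mem_erase hk))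
    refine h1.trans ?_
    rw [sum_const, nsmul_eq_mul, mul_one_div]
    gcongr
  have hrg : r ≤ 1 / g := by
    rw [hr]
    calc 1 / n * S ≤ 1 / n * (n / g) := by gcongr
      _ = 1 / g := by field_simp
  have hden : 0 < 1 + U * r / 2 := by positivity
  set θ := 1 / (1 + U * r / 2) with hθ
  have hu1 : u = U * θ := by rw [hu, hθ, ueff]; ring
  have hθ1 : θ * (1 + U * r / 2) = 1 := by rw [hθ]; field_simp
  have hθ0 : 0 < θ := by rw [hθ]; positivity
  have hu0 : 0 ≤ u := by rw [hu1]; positivity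
  have hneg : ∀ k, τ k ≤ 0 := by
    intro k
    by_cases hk : k = o
    · rw [hk, htau0]
    · rw [htau k hk]
      have := hεp k hk
      have : 0 ≤ u * κ / n / (2 * ε k) := by positivity
      linarith
  have hrsum : ∑ x, rx x = n * r := by
    have h1 : ∑ x, rx x = S := by
      simp_rw [hrx]
      rw [sum_comm, hS]
      refine sum_congr rfl fun k _ => ?_
      rw [← sum_div]
      congr 1
      have := b.orth k k
      rw [if_pos rfl] at this
      rw [← this]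
      exact sum_congr rfl fun x _ => sq _
    rw [h1, hr]; field_simp
  have hβ : ∀ x, κ / n + ∑ k, fx o v x k * (τ k * fx o v x k) =
      κ / n * θ + -(κ / n * (u / 2) * (rx x - r)) := by
    intro x
    have h1 : ∑ k, fx o v x k * (τ k * fx o v x k) = -(u * κ / n / 2 * rx x) := by
      rw [← add_sum_erase univ _ (mem_univ o), fx_o, zero_mul, zero_add, hrx, mul_sum,
        ← sum_neg_distrib]
      refine sum_congr rfl fun k hk => ?_
      have hk' := ne_of_mem_erase hk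
      have := hεp k hk'
      rw [htau k hk']
      simp only [fx, if_neg hk']
      field_simp
    rw [h1]
    have h2 : θ = 1 - u * r / 2 := by rw [hu1]; linarith
    rw [h2]; ring
  have hβ' : ∑ x, -(κ / n * (u / 2) * (rx x - r)) = 0 := by
    rw [sum_neg_distrib, ← mul_sum, sum_sub_distrib, hrsum, sum_const, card_univ, nsmul_eq_mul,
      ← hn, sub_self, mul_zero, neg_zero]
  have hi := T.int_le b hneg (κ / n * θ) (fun x => -(κ / n * (u / 2) * (rx x - r))) hβ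
    (by positivity) hβ'
  rw [← hn] at hi
  set W := ∑ x, (rx x - r) ^ 2 with hW
  have hW0 : 0 ≤ W := sum_nonneg fun _ _ => by positivity
  have hWs : ∑ x, (-(κ / n * (u / 2) * (rx x - r))) ^ 2 = (κ / n * (u / 2)) ^ 2 * W := by
    rw [hW, mul_sum]; exact sum_congr rfl fun x _ => by ring
  rw [hWs] at hi
  set Z := ‖Ψ‖ ^ 2 with hZ
  have hZ0 : 0 ≤ Z := by positivity
  -- the kinetic energy
  have k1 : ∑ k, ε k * ‖c k Ψ‖ ^ 2 ≤ (u * κ / n) ^ 2 / 4 * S * ((1 + 2 * t ^ 2) * Z) := by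
    rw [← add_sum_erase univ _ (mem_univ o), h0, zero_mul, zero_add, hS, mul_sum, sum_mul]
    refine sum_le_sum fun k hk => ?_
    have hk' := ne_of_mem_erase hk
    have h1 := T.mode_le' hk'
    have h3 := hεp k hk'
    calc ε k * ‖c k Ψ‖ ^ 2 ≤ ε k * (τ k ^ 2 * ((1 + 2 * t ^ 2) * Z)) := by gcongr
      _ = _ := by
        rw [htau k hk']; field_simp; ring
  have hκN : κ ≤ N := by
    refine abs_le_of_sq_le_sq' ?_ (by linarith) |>.2
    rw [T.hκ2]; nlinarith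
  unfold En
  have f1 : (u * κ / n) ^ 2 / 4 * S * ((1 + 2 * t ^ 2) * Z) =
      u ^ 2 * κ ^ 2 / (4 * n) * r * Z + (u * κ / n) ^ 2 / 2 * S * t ^ 2 * Z := by
    rw [hr]; field_simp; ring
  have f2 : (u * κ / n) ^ 2 / 2 * S * t ^ 2 * Z ≤ (u * N / n) ^ 2 / 2 * (n / g) * t ^ 2 * Z := by
    gcongr
  have f3 : U / 2 * ∑ x, ‖A c v x (A c v x Ψ)‖ ^ 2 ≤ U / 2 * ((n * (κ / n * θ) ^ 2 +
      3 * ((κ / n * (u / 2)) ^ 2 * W) + (24 * (N - 1) * t ^ 2 + 24 * n * t ^ 4)) * Z) := by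
    gcongr
  have f4 : U / 2 * ((n * (κ / n * θ) ^ 2 +
      3 * ((κ / n * (u / 2)) ^ 2 * W) + (24 * (N - 1) * t ^ 2 + 24 * n * t ^ 4)) * Z) =
      κ ^ 2 / n * (U * θ ^ 2 / 2) * Z + 3 / 8 * U * (u * κ / n) ^ 2 * W * Z +
      12 * U * (N - 1) * t ^ 2 * Z + 12 * U * n * t ^ 4 * Z := by
    field_simp
    ring
  have f5 : 3 / 8 * U * (u * κ / n) ^ 2 * W * Z ≤ 3 / 8 * U * (u * N / n) ^ 2 * W * Z := by gcongr
  have f6 : 12 * U * (N - 1) * t ^ 2 * Z ≤ 12 * U * N * t ^ 2 * Z := by gcongr; linarith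
  have f7 : u ^ 2 * κ ^ 2 / (4 * n) * r * Z + κ ^ 2 / n * (U * θ ^ 2 / 2) * Z =
      u / (2 * n) * (N * (N - 1)) * Z := by
    rw [← T.hκ2]
    have e : u ^ 2 * r / 4 + U * θ ^ 2 / 2 = u / 2 := by
      have e1 : u * r / 2 = 1 - θ := by rw [hu1]; linarith
      calc u ^ 2 * r / 4 + U * θ ^ 2 / 2 = u / 2 * (u * r / 2) + (U * θ) * θ / 2 := by ring
        _ = u / 2 * (1 - θ) + u * θ / 2 := by rw [e1, ← hu1]
        _ = _ := by ring
    calc _ = κ ^ 2 / n * (u ^ 2 * r / 4 + U * θ ^ 2 / 2) * Z := by field_simp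
      _ = _ := by rw [e]; field_simp
  have f8 : (u / (2 * n) * (N * (N - 1)) +
      (t ^ 2 * (u * N / n) ^ 2 / (2 * g) + 12 * U * (N / n) * t ^ 2 + 12 * U * t ^ 4 +
        3 / 8 * U * (u * N / n) ^ 2 * (1 / n * W)) * n) * Z =
      u / (2 * n) * (N * (N - 1)) * Z + (u * N / n) ^ 2 / 2 * (n / g) * t ^ 2 * Z +
      12 * U * N * t ^ 2 * Z + 12 * U * n * t ^ 4 * Z + 3 / 8 * U * (u * N / n) ^ 2 * W * Z := by
    field_simp
    ring
  rw [f8]
  linarith

end TS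

end Run7.h259.LHY
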