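import Pool.Agent.Run7.h259.LHY.Num

/-!
# The energy of the trial state, sharp form
-/

set_option autoImplicit false
set_option linter.unusedSectionVars false
set_option linter.unusedVariables false

noncomputable section

namespace Run7.h259.LHY

open Finset

variable {V : Type*} [Fintype V] [DecidableEq V]
variable {E : Type*} [NormedAddCommGroup E] [InnerProductSpace ℝ E]
variable {c d : V → E →ₗ[ℝ] E}

namespace TS

variable {o : V} {N κ t : ℝ} {τ : V → ℝ} {Ψ : E} (T : TS c d o N κ t τ Ψ)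

include T

lemma tau_sq (k : V) : τ k ^ 2 ≤ 1 / 4 := by
  have h1 := T.hτ k
  have h2 := T.ht
  have h3 : |τ k| ≤ 1 / 2 := h1.trans h2
  rw [← sq_abs]
  nlinarith [abs_nonneg (τ k)]

lemma mode_le2 {k : V} (hk : k ≠ o) : ‖c k Ψ‖ ^ 2 ≤ τ k ^ 2 * ((1 + 2 * τ k ^ 2) * ‖Ψ‖ ^ 2) := by
  have h1 : ‖c k Ψ‖ ^ 2 = τ k ^ 2 * (‖(1 / κ) • c o (c o Ψ)‖ ^ 2 +
      ‖c k ((1 / κ) • c o (c o Ψ))‖ ^ 2) := by
    rw [T.c_eq hk, norm_smul, mul_pow, Real.norm_eq_abs, sq_abs, T.ccr.norm_d]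
  have h2 : ‖c k ((1 / κ) • c o (c o Ψ))‖ ^ 2 ≤ ‖c k Ψ‖ ^ 2 := by
    rw [map_smul, T.ccr.cc k o, T.ccr.cc k o]
    exact T.contr (T.ccr.sec_c T.sec k) (by linarith)
  have h4 := T.xi_le
  have h5 := T.tau_sq k
  set x := ‖c k Ψ‖ ^ 2 with hx
  set Z := ‖Ψ‖ ^ 2 with hZ
  have hx0 : 0 ≤ x := by positivity
  have hZ0 : 0 ≤ Z := by positivity
  have hτ0 : 0 ≤ τ k ^ 2 := by positivity
  have h6 : x ≤ τ k ^ 2 * (Z + x) := by
    calc x = _ := h1
      _ ≤ τ k ^ 2 * (Z + x) := by gcongr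
  have h7 : τ k ^ 2 * x ≤ 1 / 4 * x := by gcongr
  have h8 : x ≤ 2 * (τ k ^ 2 * Z) := by nlinarith [mul_nonneg hτ0 hZ0]
  calc x ≤ τ k ^ 2 * (Z + x) := h6
    _ ≤ τ k ^ 2 * (Z + 2 * (τ k ^ 2 * Z)) := by gcongr
    _ = _ := by ring

lemma one_le2 {f : V → ℝ} (hf : f o = 0) :
    ‖M c f Ψ‖ ^ 2 ≤ (∑ k, (τ k * f k) ^ 2) * (3 / 2 * ‖Ψ‖ ^ 2) := by
  have ht := T.ht
  have ht0 := T.ht0
  have h1 := T.one_le (f := fun k => τ k * f k) (by simp [hf])
  have h2 := (T.M_xi (fun k => τ k * f k)).trans h1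
  have h3 := T.xi_le
  rw [T.M_eq hf, T.ccr.norm_Md]
  set S := ∑ k, (τ k * f k) ^ 2 with hS
  have hS0 : 0 ≤ S := sum_nonneg fun _ _ => by positivity
  set Z := ‖Ψ‖ ^ 2 with hZ
  have hZ0 : 0 ≤ Z := by positivity
  have h4 : 2 * (t ^ 2 * Z) ≤ 1 / 2 * Z := by
    have : t ^ 2 ≤ 1 / 4 := by nlinarith
    nlinarith
  calc _ ≤ S * Z + S * (2 * (t ^ 2 * Z)) := by gcongr
    _ ≤ S * Z + S * (1 / 2 * Z) := by gcongr
    _ = _ := by ring

lemma D_le {f : V → ℝ} (hf : f o = 0) :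
    ‖M d (fun k => τ k * f k) (M c f ((1 / κ) • c o (c o Ψ)))‖ ^ 2 ≤
      8 * (∑ k, (τ k * f k) ^ 2) ^ 2 * ‖Ψ‖ ^ 2 := by
  have ht := T.ht
  have ht0 := T.ht0
  have ht2 : t ^ 2 ≤ 1 / 4 := by nlinarith
  set τf : V → ℝ := fun k => τ k * f k with hτf
  have hτf0 : τf o = 0 := by simp [hτf, hf]
  set Ξ := (1 / κ) • c o (c o Ψ) with hΞ
  set S := ∑ k, (τ k * f k) ^ 2 with hS
  have hS' : ∑ k, τf k ^ 2 = S := rfl
  have hS0 : 0 ≤ S := sum_nonneg fun _ _ => by positivity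
  set Z := ‖Ψ‖ ^ 2 with hZ
  have hZ0 : 0 ≤ Z := by positivity
  have a1 : ‖M c f Ξ‖ ^ 2 ≤ S * (3 / 2 * Z) := (T.M_xi f).trans (T.one_le2 hf)
  have a2 : ‖M c τf Ξ‖ ^ 2 ≤ S * (1 / 2 * Z) := by
    refine (T.M_xi τf).trans ((T.one_le hτf0).trans ?_)
    rw [hS']
    have : 2 * (t ^ 2 * ‖Ψ‖ ^ 2) ≤ 1 / 2 * Z := by nlinarith
    gcongr
  have a3 : ‖M c τf (M c τf Ξ)‖ ^ 2 ≤ S * S * (3 / 2 * Z) := by
    refine (T.MM_xi τf τf).trans ((T.two_le hτf0 hτf0).trans ?_)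
    rw [hS']
    have : 2 * (3 * t ^ 2 * ‖Ψ‖ ^ 2) ≤ 3 / 2 * Z := by nlinarith
    gcongr
  have a4 : ‖M c τf (M c f Ξ)‖ ^ 2 ≤ 6 * S ^ 2 * Z := by
    refine (T.MM_xi τf f).trans ?_
    have e1 : M c τf (M c f Ψ) = M d τf (M c τf Ξ) + (∑ k, τf k * τf k) • Ξ := by
      rw [T.M_eq hf, T.ccr.M_comm]
    have e2 := norm_add_sq_le (M d τf (M c τf Ξ)) ((∑ k, τf k * τf k) • Ξ)
    rw [← e1, T.ccr.norm_Md, norm_smul, mul_pow, Real.norm_eq_abs, sq_abs, hS'] at e2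
    have e3 : ∑ k, τf k * τf k = S := by
      rw [← hS']; exact sum_congr rfl fun k _ => (sq _).symm
    rw [e3] at e2
    have e4 : ‖Ξ‖ ^ 2 ≤ Z := T.xi_le
    calc ‖M c τf (M c f Ψ)‖ ^ 2 ≤ _ := e2
      _ ≤ 2 * (S * (S * (1 / 2 * Z)) + S * S * (3 / 2 * Z)) + 2 * (S ^ 2 * Z) := by gcongr
      _ = _ := by ring
  rw [T.ccr.norm_Md, hS']
  calc S * ‖M c f Ξ‖ ^ 2 + ‖M c τf (M c f Ξ)‖ ^ 2 ≤ S * (S * (3 / 2 * Z)) + 6 * S ^ 2 * Z := by
        gcongr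
    _ = 15 / 2 * (S ^ 2 * Z) := by ring
    _ ≤ 8 * (S ^ 2 * Z) := by gcongr; norm_num
    _ = _ := by ring

/-- the interaction energy of the trial state -/
lemma int_le2 {v : V → V → ℝ} (b : Basis o v) (hneg : ∀ k, τ k ≤ 0) (β : ℝ) (β' P : V → ℝ)
    (hβ : ∀ x, κ / (Fintype.card V : ℝ) + ∑ k, fx o v x k * (τ k * fx o v x k) = β + β' x)
    (hβ0 : 0 ≤ β) (hβ' : ∑ x, β' x = 0) (hP : ∀ x, P x = ∑ k, (τ k * fx o v x k) ^ 2) :
    ∑ x, ‖A c v x (A c v x Ψ)‖ ^ 2 ≤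
      ((Fintype.card V : ℝ) * β ^ 2 + 3 * ∑ x, β' x ^ 2 +
      (18 * ((N - 1) / (Fintype.card V : ℝ)) * ∑ x, P x + 24 * ∑ x, P x ^ 2)) * ‖Ψ‖ ^ 2 := by
  set n : ℝ := (Fintype.card V : ℝ) with hn
  have hn0 : 0 < n := by
    rw [hn]; exact_mod_cast Fintype.card_pos_iff.2 ⟨o⟩
  have hκ := T.hκ
  have hN := T.hN
  have ht0 := T.ht0
  have hN1 : 0 ≤ N - 1 := by linarith
  set q := v o o with hq
  have hq2 : q ^ 2 = 1 / n := b.sq o
  set Ξ := (1 / κ) • c o (c o Ψ) with hΞ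
  set Z := ‖Ψ‖ ^ 2 with hZ
  have hZ0 : 0 ≤ Z := by positivity
  have hΞZ : ‖Ξ‖ ^ 2 ≤ Z := T.xi_le
  have hcc : c o (c o Ψ) = κ • Ξ := by
    rw [hΞ, smul_smul]
    have : κ * (1 / κ) = 1 := by field_simp
    rw [this, one_smul]
  set B : V → E := fun x => (2 * q) • c o (M c (fx o v x) Ψ) with hB
  set D : V → E := fun x => M d (fun k => τ k * fx o v x k) (M c (fx o v x) Ξ) with hD
  have e0 : ∀ x, M c (fx o v x) (M c (fx o v x) Ψ) =
      D x + (∑ k, fx o v x k * (τ k * fx o v x k)) • Ξ := by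
    intro x
    rw [T.M_eq (fx_o o v x), T.ccr.M_comm]
  have e1 : ∀ x, A c v x (A c v x Ψ) = β • Ξ + (β' x • Ξ + B x + D x) := by
    intro x
    rw [A_split o v x, A_split o v x, b.const x o, ← hq, map_add, map_smul, smul_add, smul_smul,
      ← sq, map_add, map_smul, ← T.ccr.M_cc, hcc, hq2, smul_smul, e0]
    have e2 : β • Ξ + (β' x • Ξ + B x + D x) =
        (κ / n + ∑ k, fx o v x k * (τ k * fx o v x k)) • Ξ + B x + D x := by
      rw [hβ, add_smul]; abel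
    rw [e2, add_smul]
    simp only [hB]
    rw [mul_smul 2 q, two_smul, show 1 / n * κ = κ / n by ring]
    abel
  have e2 : ∑ x, B x = 0 := by
    simp only [hB]
    rw [← smul_sum, ← map_sum, M_fx_sum b, map_zero, smul_zero]
  have e3 : inner ℝ Ξ (∑ x, D x) ≤ 0 := by
    have h1 : ∀ x, inner ℝ Ξ (D x) = ∑ k, ∑ j, (fx o v x k * fx o v x j) *
        (τ k * inner ℝ (c k Ξ) (c j Ξ)) := by
      intro x
      simp only [hD]
      rw [← T.ccr.M_adj', M_apply, M_apply, sum_inner]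
      refine sum_congr rfl fun k _ => ?_
      rw [inner_sum]
      refine sum_congr rfl fun j _ => ?_
      rw [inner_smul_left, inner_smul_right]
      simp only [conj_trivial]
      ring
    have h2 : inner ℝ Ξ (∑ x, D x) = ∑ k, ∑ j, (∑ x, fx o v x k * fx o v x j) *
        (τ k * inner ℝ (c k Ξ) (c j Ξ)) := by
      rw [inner_sum]
      simp_rw [h1]
      rw [sum_comm]
      refine sum_congr rfl fun k _ => ?_
      rw [sum_comm]
      exact sum_congr rfl fun j _ => by rw [sum_mul]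
    rw [h2]
    refine sum_nonpos fun k _ => ?_
    by_cases hk : k = o
    · refine le_of_eq (sum_eq_zero fun j _ => ?_)
      rw [hk]; simp [fx_o]
    · rw [Finset.sum_eq_single k]
      · have h3 : 0 ≤ ∑ x, fx o v x k * fx o v x k := sum_nonneg fun _ _ => mul_self_nonneg _
        rw [real_inner_self_eq_norm_sq]
        have h4 : τ k * ‖c k Ξ‖ ^ 2 ≤ 0 :=
          mul_nonpos_of_nonpos_of_nonneg (hneg k) (by positivity)
        exact mul_nonpos_of_nonneg_of_nonpos h3 h4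
      · intro j _ hj
        have h3 : ∑ x, fx o v x k * fx o v x j = 0 := by
          by_cases hjo : j = o
          · rw [hjo]; simp [fx_o]
          · have := b.orth k j
            rw [if_neg (Ne.symm hj)] at this
            rw [← this]
            exact sum_congr rfl fun x _ => by simp [fx, hk, hjo]
        rw [h3, zero_mul]
      · intro h; exact absurd (mem_univ _) h
  have e4 : ∀ x, ‖A c v x (A c v x Ψ)‖ ^ 2 ≤
      β ^ 2 * Z + 2 * β * inner ℝ Ξ (β' x • Ξ + B x + D x) +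
      3 * (β' x ^ 2 * Z + ‖B x‖ ^ 2 + ‖D x‖ ^ 2) := by
    intro x
    rw [e1, norm_add_sq_real, inner_smul_left, norm_smul, mul_pow, Real.norm_eq_abs, sq_abs]
    simp only [conj_trivial]
    have h1 : ‖β' x • Ξ + B x + D x‖ ^ 2 ≤ 3 * (‖β' x • Ξ‖ ^ 2 + ‖B x‖ ^ 2 + ‖D x‖ ^ 2) := by
      have h2 := norm_add₃_le (a := β' x • Ξ) (b := B x) (c := D x)
      have h3 : 0 ≤ ‖β' x • Ξ + B x + D x‖ := norm_nonneg _
      have h4 : ‖β' x • Ξ + B x + D x‖ ^ 2 ≤ (‖β' x • Ξ‖ + ‖B x‖ + ‖D x‖) ^ 2 := by gcongr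
      nlinarith [sq_nonneg (‖β' x • Ξ‖ - ‖B x‖), sq_nonneg (‖B x‖ - ‖D x‖),
        sq_nonneg (‖β' x • Ξ‖ - ‖D x‖)]
    have h2 : ‖β' x • Ξ‖ ^ 2 ≤ β' x ^ 2 * Z := by
      rw [norm_smul, mul_pow, Real.norm_eq_abs, sq_abs]; gcongr
    have h3 : β ^ 2 * ‖Ξ‖ ^ 2 ≤ β ^ 2 * Z := by gcongr
    nlinarith
  have hP0 : ∀ x, 0 ≤ P x := fun x => by rw [hP]; exact sum_nonneg fun _ _ => by positivity
  have e5 : ∀ x, ‖B x‖ ^ 2 ≤ 6 * ((N - 1) / n) * Z * P x := by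
    intro x
    simp only [hB]
    rw [norm_smul, mul_pow, Real.norm_eq_abs, sq_abs, mul_pow, hq2]
    have h1 := T.ccr.sec_le (T.ccr.sec_M T.sec (fx o v x)) o
    have h3 := T.one_le2 (fx_o o v x)
    rw [← hP] at h3
    calc 2 ^ 2 * (1 / n) * ‖c o (M c (fx o v x) Ψ)‖ ^ 2
        ≤ 2 ^ 2 * (1 / n) * ((N - 1) * (P x * (3 / 2 * Z))) := by
          refine mul_le_mul_of_nonneg_left (h1.trans ?_) (by positivity)
          gcongr
      _ = _ := by ring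
  have e6 : ∀ x, ‖D x‖ ^ 2 ≤ 8 * Z * P x ^ 2 := by
    intro x
    have := T.D_le (fx_o o v x)
    rw [← hP] at this
    simp only [hD]
    linarith
  have e7 := sum_le_sum (s := univ) fun x _ => e4 x
  have s1 : ∑ x, 2 * β * inner ℝ Ξ (β' x • Ξ + B x + D x) = 2 * β * inner ℝ Ξ (∑ x, D x) := by
    rw [← mul_sum, ← inner_sum, sum_add_distrib, sum_add_distrib, ← sum_smul, hβ', zero_smul, e2,
      zero_add, zero_add]
  have s2 : ∑ x, 3 * (β' x ^ 2 * Z + ‖B x‖ ^ 2 + ‖D x‖ ^ 2) =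
      3 * ((∑ x, β' x ^ 2) * Z + ∑ x, ‖B x‖ ^ 2 + ∑ x, ‖D x‖ ^ 2) := by
    rw [← mul_sum, sum_add_distrib, sum_add_distrib, ← sum_mul]
  rw [sum_add_distrib, sum_add_distrib, s1, s2, sum_const, card_univ, nsmul_eq_mul, ← hn] at e7
  have e8 : ∑ x, ‖B x‖ ^ 2 ≤ 6 * ((N - 1) / n) * Z * ∑ x, P x := by
    rw [mul_sum]; exact sum_le_sum fun x _ => e5 x
  have e9 : ∑ x, ‖D x‖ ^ 2 ≤ 8 * Z * ∑ x, P x ^ 2 := by
    rw [mul_sum]; exact sum_le_sum fun x _ => e6 x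
  have e10 : 2 * β * inner ℝ Ξ (∑ x, D x) ≤ 0 :=
    mul_nonpos_of_nonneg_of_nonpos (by positivity) e3
  nlinarith

/-- **the energy of the trial state, sharp form** -/
theorem energy_le2 {v : V → V → ℝ} (b : Basis o v) (ε : V → ℝ) (g U r u p w m : ℝ) (rx : V → ℝ)
    (hg : 0 < g) (h0 : ε o = 0) (hε : ∀ k, k ≠ o → g ≤ ε k) (hU : 0 ≤ U) (hw : 0 ≤ w)
    (hrx : ∀ x, rx x = ∑ k ∈ univ.erase o, v k x ^ 2 / ε k)
    (hr : r = 1 / (Fintype.card V : ℝ) * ∑ k ∈ univ.erase o, 1 / ε k) (hu : u = ueff U r)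
    (htau : ∀ k, k ≠ o → τ k = -(u * κ / (Fintype.card V : ℝ) / (2 * ε k)))
    (htau0 : τ o = 0)
    (hp : ∀ x, (u * N / (Fintype.card V : ℝ)) ^ 2 / 4 *
      ∑ k ∈ univ.erase o, v k x ^ 2 / ε k ^ 2 ≤ p)
    (hvar : ∑ x, (rx x - r) ^ 2 ≤ w * S2 o ε)
    (hm : m = u ^ 2 * (N * (N - 1)) / (4 * (Fintype.card V : ℝ) ^ 2) * S2 o ε) :
    En c v ε U Ψ ≤ (u / (2 * (Fintype.card V : ℝ)) * (N * (N - 1)) +
      (t * (u * N / (Fintype.card V : ℝ)) + 9 * U * (N / (Fintype.card V : ℝ)) + 12 * U * p +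
        3 / 2 * U * w) * m) * ‖Ψ‖ ^ 2 := by
  set n : ℝ := (Fintype.card V : ℝ) with hn
  have hn0 : 0 < n := by
    rw [hn]; exact_mod_cast Fintype.card_pos_iff.2 ⟨o⟩
  have hκ := T.hκ
  have hN := T.hN
  have ht := T.ht
  have ht0 := T.ht0
  have hN1 : 0 ≤ N - 1 := by linarith
  set S := ∑ k ∈ univ.erase o, 1 / ε k with hS
  have hεp : ∀ k, k ≠ o → 0 < ε k := fun k hk => lt_of_lt_of_le hg (hε k hk)
  have hS0 : 0 ≤ S := sum_nonneg fun k hk => by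
    have := hεp k (ne_of_mem_erase hk)
    positivity
  have hr0 : 0 ≤ r := by rw [hr]; positivity
  have hden : 0 < 1 + U * r / 2 := by positivity
  set θ := 1 / (1 + U * r / 2) with hθ
  have hu1 : u = U * θ := by rw [hu, hθ, ueff]; ring
  have hθ1 : θ * (1 + U * r / 2) = 1 := by rw [hθ]; field_simp
  have hθ0 : 0 < θ := by rw [hθ]; positivity
  have hu0 : 0 ≤ u := by rw [hu1]; positivity
  have hneg : ∀ k, τ k ≤ 0 := by
    intro k
    by_cases hk : k = o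
    · rw [hk, htau0]
    · rw [htau k hk]
      have := hεp k hk
      have : 0 ≤ u * κ / n / (2 * ε k) := by positivity
      linarith
  have hrsum : ∑ x, rx x = n * r := by
    have h1 : ∑ x, rx x = S := by
      simp_rw [hrx]
      rw [sum_comm, hS]
      refine sum_congr rfl fun k _ => ?_
      rw [← sum_div]
      congr 1
      have := b.orth k k
      rw [if_pos rfl] at this
      rw [← this]
      exact sum_congr rfl fun x _ => sq _
    rw [h1, hr]; field_simp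
  have hβ : ∀ x, κ / n + ∑ k, fx o v x k * (τ k * fx o v x k) =
      κ / n * θ + -(κ / n * (u / 2) * (rx x - r)) := by
    intro x
    have h1 : ∑ k, fx o v x k * (τ k * fx o v x k) = -(u * κ / n / 2 * rx x) := by
      rw [← add_sum_erase univ _ (mem_univ o), fx_o, zero_mul, zero_add, hrx, mul_sum,
        ← sum_neg_distrib]
      refine sum_congr rfl fun k hk => ?_
      have hk' := ne_of_mem_erase hk
      have := hεp k hk'
      rw [htau k hk']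
      simp only [fx, if_neg hk']
      field_simp
    rw [h1]
    have h2 : θ = 1 - u * r / 2 := by rw [hu1]; linarith
    rw [h2]; ring
  have hβ' : ∑ x, -(κ / n * (u / 2) * (rx x - r)) = 0 := by
    rw [sum_neg_distrib, ← mul_sum, sum_sub_distrib, hrsum, sum_const, card_univ, nsmul_eq_mul,
      ← hn, sub_self, mul_zero, neg_zero]
  set P : V → ℝ := fun x => ∑ k, (τ k * fx o v x k) ^ 2 with hP
  have hPx : ∀ x, P x = (u * κ / n) ^ 2 / 4 * ∑ k ∈ univ.erase o, v k x ^ 2 / ε k ^ 2 := by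
    intro x
    simp only [hP]
    rw [← add_sum_erase univ _ (mem_univ o), fx_o, mul_zero, zero_pow two_ne_zero, zero_add,
      mul_sum]
    refine sum_congr rfl fun k hk => ?_
    have hk' := ne_of_mem_erase hk
    have := hεp k hk'
    rw [htau k hk']
    simp only [fx, if_neg hk']
    field_simp
    ring
  have hm' : m = (u * κ / n) ^ 2 / 4 * S2 o ε := by
    rw [hm, ← T.hκ2]; field_simp
  have hPsum : ∑ x, P x = m := by
    simp_rw [hPx]
    rw [← mul_sum, sum_comm, hm']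
    congr 1
    unfold S2
    refine sum_congr rfl fun k _ => ?_
    rw [← sum_div]
    congr 1
    have := b.orth k k
    rw [if_pos rfl] at this
    rw [← this]
    exact sum_congr rfl fun x _ => sq _
  have hP0 : ∀ x, 0 ≤ P x := fun x => sum_nonneg fun _ _ => by positivity
  have hm0 : 0 ≤ m := by rw [← hPsum]; exact sum_nonneg fun x _ => hP0 x
  have hκN : κ ≤ N := by
    refine abs_le_of_sq_le_sq' ?_ (by linarith) |>.2
    rw [T.hκ2]; nlinarith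
  have hPp : ∀ x, P x ≤ p := by
    intro x
    refine le_trans ?_ (hp x)
    rw [hPx]
    have : 0 ≤ ∑ k ∈ univ.erase o, v k x ^ 2 / ε k ^ 2 := sum_nonneg fun _ _ => by positivity
    gcongr
  have hp0 : 0 ≤ p := (hP0 o).trans (hPp o)
  have hi := T.int_le2 b hneg (κ / n * θ) (fun x => -(κ / n * (u / 2) * (rx x - r))) P hβ
    (by positivity) hβ' (fun x => rfl)
  rw [← hn] at hi
  set W := ∑ x, (rx x - r) ^ 2 with hW
  have hWs : ∑ x, (-(κ / n * (u / 2) * (rx x - r))) ^ 2 ≤ w * m := by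
    calc ∑ x, (-(κ / n * (u / 2) * (rx x - r))) ^ 2 = (u * κ / n) ^ 2 / 4 * W := by
          rw [hW, mul_sum]; exact sum_congr rfl fun x _ => by ring
      _ ≤ (u * κ / n) ^ 2 / 4 * (w * S2 o ε) := by gcongr
      _ = _ := by rw [hm']; ring
  have hP2 : ∑ x, P x ^ 2 ≤ p * m := by
    rw [← hPsum, mul_sum]
    refine sum_le_sum fun x _ => ?_
    rw [sq]
    exact mul_le_mul_of_nonneg_right (hPp x) (hP0 x)
  set Z := ‖Ψ‖ ^ 2 with hZ
  have hZ0 : 0 ≤ Z := by positivity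
  rw [hPsum] at hi
  have hi2 : ∑ x, ‖A c v x (A c v x Ψ)‖ ^ 2 ≤ (n * (κ / n * θ) ^ 2 + 3 * (w * m) +
      (18 * (N / n) * m + 24 * (p * m))) * Z := by
    refine hi.trans ?_
    have : (N - 1) / n ≤ N / n := by gcongr; linarith
    gcongr
  -- the kinetic energy
  have k1 : ∑ k, ε k * ‖c k Ψ‖ ^ 2 ≤ ((u * κ / n) ^ 2 / 4 * S + t * (u * N / n) * m) * Z := by
    rw [← add_sum_erase univ _ (mem_univ o), h0, zero_mul, zero_add]
    have h9 : ∀ k ∈ univ.erase o, ε k * ‖c k Ψ‖ ^ 2 ≤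
        ((u * κ / n) ^ 2 / 4 * (1 / ε k) + t * (u * N / n) * ((u * κ / n) ^ 2 / 4 *
          (1 / ε k ^ 2))) * Z := by
      intro k hk
      have hk' := ne_of_mem_erase hk
      have h1 := T.mode_le2 hk'
      have h3 := hεp k hk'
      have h4 : τ k ^ 2 = (u * κ / n) ^ 2 / 4 * (1 / ε k ^ 2) := by
        rw [htau k hk']; field_simp; ring
      have h5 : ε k * τ k ^ 2 = (u * κ / n) ^ 2 / 4 * (1 / ε k) := by
        rw [h4]; field_simp
      have h6 : ε k * τ k ^ 2 * (2 * τ k ^ 2) ≤ t * (u * N / n) * τ k ^ 2 := by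
        have e1 : ε k * |τ k| = u * κ / n / 2 := by
          rw [htau k hk', abs_neg, abs_of_nonneg (by positivity)]; field_simp
        have e2 : ε k * τ k ^ 2 = (u * κ / n / 2) * |τ k| := by
          rw [← e1, ← sq_abs (τ k)]; ring
        rw [e2]
        calc u * κ / n / 2 * |τ k| * (2 * τ k ^ 2) = (|τ k| * (u * κ / n)) * τ k ^ 2 := by ring
          _ ≤ (t * (u * N / n)) * τ k ^ 2 := by
              have := T.hτ k
              gcongr
      calc ε k * ‖c k Ψ‖ ^ 2 ≤ ε k * (τ k ^ 2 * ((1 + 2 * τ k ^ 2) * Z)) := by gcongr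
        _ = (ε k * τ k ^ 2 + ε k * τ k ^ 2 * (2 * τ k ^ 2)) * Z := by ring
        _ ≤ (ε k * τ k ^ 2 + t * (u * N / n) * τ k ^ 2) * Z := by gcongr
        _ = _ := by rw [h5, h4]
    refine (sum_le_sum h9).trans (le_of_eq ?_)
    rw [← sum_mul, sum_add_distrib, ← mul_sum, ← mul_sum, ← mul_sum, hm', S2]
  unfold En
  have f1 : (u * κ / n) ^ 2 / 4 * S * Z = u ^ 2 * κ ^ 2 / (4 * n) * r * Z := by
    rw [hr]; field_simp
  have f3 : U / 2 * ∑ x, ‖A c v x (A c v x Ψ)‖ ^ 2 ≤ U / 2 * ((n * (κ / n * θ) ^ 2 +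
      3 * (w * m) + (18 * (N / n) * m + 24 * (p * m))) * Z) := by
    gcongr
  have f4 : U / 2 * ((n * (κ / n * θ) ^ 2 + 3 * (w * m) + (18 * (N / n) * m + 24 * (p * m))) * Z) =
      κ ^ 2 / n * (U * θ ^ 2 / 2) * Z + (9 * U * (N / n) + 12 * U * p + 3 / 2 * U * w) * m * Z := by
    field_simp
    ring
  have f7 : u ^ 2 * κ ^ 2 / (4 * n) * r * Z + κ ^ 2 / n * (U * θ ^ 2 / 2) * Z =
      u / (2 * n) * (N * (N - 1)) * Z := by
    rw [← T.hκ2]
    have e : u ^ 2 * r / 4 + U * θ ^ 2 / 2 = u / 2 := by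
      have e1 : u * r / 2 = 1 - θ := by rw [hu1]; linarith
      calc u ^ 2 * r / 4 + U * θ ^ 2 / 2 = u / 2 * (u * r / 2) + (U * θ) * θ / 2 := by ring
        _ = u / 2 * (1 - θ) + u * θ / 2 := by rw [e1, ← hu1]
        _ = _ := by ring
    calc _ = κ ^ 2 / n * (u ^ 2 * r / 4 + U * θ ^ 2 / 2) * Z := by field_simp
      _ = _ := by rw [e]; field_simp
  have f8 : (u / (2 * n) * (N * (N - 1)) +
      (t * (u * N / n) + 9 * U * (N / n) + 12 * U * p + 3 / 2 * U * w) * m) * Z =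
      u / (2 * n) * (N * (N - 1)) * Z + t * (u * N / n) * m * Z +
      (9 * U * (N / n) + 12 * U * p + 3 / 2 * U * w) * m * Z := by ring
  rw [f8, ← f7]
  have f9 : ((u * κ / n) ^ 2 / 4 * S + t * (u * N / n) * m) * Z =
      u ^ 2 * κ ^ 2 / (4 * n) * r * Z + t * (u * N / n) * m * Z := by
    rw [← f1]; ring
  rw [f9] at k1
  linarith

end TS

end Run7.h259.LHY
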